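import Pool.Agent.Lib.MP_898cae_lc.Defs

/-!
The statement that some Hausdorff complex manifold of complex dimension two is countably compact
and not compact, written in the language of set theory and read in a structure `(M, E)`.
-/

namespace Pool.Agent.Lib.MP_53f9be_gt.Cc

open Pool.Agent.Lib.MP_898cae_lc

/-- Data for the complex numbers: the set `C`, addition `A`, multiplication `P`, the set `R` of
reals with its strict order `L`, and the numbers `o = 0`, `e = 1` and `i`. -/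
structure Cx (M : Type 1) where
  C : M
  A : M
  P : M
  R : M
  L : M
  o : M
  e : M
  i : M

variable {M : Type 1} (E : M → M → Prop)

/-- `f(a, b) = c`. -/
def Op (f a b c : M) : Prop := ∃ z, Pair E z a b ∧ App E f z c

/-- `φ(x) = (a, b)`. -/
def Val (φ x a b : M) : Prop := ∃ z, Pair E z a b ∧ App E φ x z

/-- `f` is a commutative and associative binary operation with domain `C × C` and values in `C`. -/
def Bin (C f : M) : Prop :=
  (∀ a b c, Op E f a b c → E a C ∧ E b C) ∧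
  (∀ a, E a C → ∀ b, E b C → ∃ c, E c C ∧ Op E f a b c ∧ ∀ c', Op E f a b c' → c' = c) ∧
  (∀ a, E a C → ∀ b, E b C → ∀ c, Op E f a b c → Op E f b a c) ∧
  ∀ a, E a C → ∀ b, E b C → ∀ c, E c C →
    ∀ d g h, Op E f a b d → Op E f d c g → Op E f b c h → Op E f a h g

variable (K : Cx M)

/-- `F` contains `0` and `1` and is closed under sums, products, negatives and inverses. -/
def Closed (F : M) : Prop :=
  E K.o F ∧ E K.e F ∧
  (∀ a, E a F → ∀ b, E b F → ∀ c, Op E K.A a b c ∨ Op E K.P a b c → E c F) ∧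
  ∀ a, E a F → (∃ b, E b F ∧ Op E K.A a b K.o) ∧ (a ≠ K.o → ∃ b, E b F ∧ Op E K.P a b K.e)

/-- `C` is a field. -/
def IsFld : Prop :=
  Bin E K.C K.A ∧ Bin E K.C K.P ∧ Closed E K K.C ∧ K.o ≠ K.e ∧
  (∀ a, E a K.C → Op E K.A a K.o a ∧ Op E K.P a K.e a) ∧
  ∀ a, E a K.C → ∀ b, E b K.C → ∀ c, E c K.C → ∀ d p q r, Op E K.A b c d → Op E K.P a d p →
    Op E K.P a b q → Op E K.P a c r → Op E K.A q r p

/-- `L` is a strict linear order on `R` compatible with the field operations. -/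
def IsOrd : Prop :=
  (∀ a, E a K.R → ¬ App E K.L a a) ∧
  (∀ a, E a K.R → ∀ b, E b K.R → App E K.L a b ∨ a = b ∨ App E K.L b a) ∧
  (∀ a, E a K.R → ∀ b, E b K.R → ∀ c, E c K.R →
    (App E K.L a b → App E K.L b c → App E K.L a c) ∧
    ∀ d g, App E K.L a b → Op E K.A a c d → Op E K.A b c g → App E K.L d g) ∧
  ∀ a, E a K.R → ∀ b, E b K.R → ∀ c, App E K.L K.o a → App E K.L K.o b → Op E K.P a b c →
    App E K.L K.o c

/-- `b` is a real upper bound of `S`. -/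
def Ub (S b : M) : Prop := E b K.R ∧ ∀ x, E x S → ¬ App E K.L b x

/-- `C` is a field, `R` is a complete ordered subfield, `i * i + 1 = 0` and `C = R + i R`. -/
def IsCx : Prop :=
  IsFld E K ∧ Subs E K.R K.C ∧ Closed E K K.R ∧ IsOrd E K ∧
  (∀ S, Subs E S K.R → (∃ x, E x S) → (∃ b, Ub E K S b) →
    ∃ s, Ub E K S s ∧ ∀ b, Ub E K S b → ¬ App E K.L b s) ∧
  E K.i K.C ∧ (∃ m, Op E K.P K.i K.i m ∧ Op E K.A m K.e K.o) ∧
  ∀ c, E c K.C → ∃ a, E a K.R ∧ ∃ b, E b K.R ∧ ∃ t, Op E K.P K.i b t ∧ Op E K.A a t c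

/-- `ε` is a positive real. -/
def Pos (ε : M) : Prop := E ε K.R ∧ App E K.L K.o ε

/-- `|a| ≤ ε` for reals. -/
def Abs (a ε : M) : Prop := ¬ App E K.L ε a ∧ ∃ a', Op E K.A a a' K.o ∧ ¬ App E K.L ε a'

/-- `|Re (u - v)| ≤ ε` and `|Im (u - v)| ≤ ε`. -/
def Cl (u v ε : M) : Prop :=
  ∃ a, E a K.R ∧ ∃ b, E b K.R ∧ ∃ t s, Op E K.P K.i b t ∧ Op E K.A a t s ∧ Op E K.A v s u ∧
    Abs E K a ε ∧ Abs E K b ε

/-- The set of the pairs `(a, b)` with `V a b` is open in `C × C`. -/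
def OpenC (V : M → M → Prop) : Prop :=
  ∀ a b, V a b → ∃ ε, Pos E K ε ∧
    ∀ a', E a' K.C → ∀ b', E b' K.C → Cl E K a' a ε → Cl E K b' b ε → V a' b'

/-- `c'` is within `s` of `c + m (a' - a) + n (b' - b)`. -/
def Lin (c' c m n a' a b' b s : M) : Prop :=
  ∃ h k p q r u, Op E K.A a h a' ∧ Op E K.A b k b' ∧ Op E K.P m h p ∧ Op E K.P n k q ∧
    Op E K.A p q r ∧ Op E K.A c r u ∧ Cl E K c' u s

/-- The transition map `ψ ∘ φ⁻¹` is complex differentiable at every point of its domain. -/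
def Hol (φ ψ : M) : Prop :=
  ∀ x a b c d, Val E φ x a b → Val E ψ x c d →
    ∃ m, E m K.C ∧ ∃ n, E n K.C ∧ ∃ m', E m' K.C ∧ ∃ n', E n' K.C ∧ ∀ ε, Pos E K ε →
      ∃ δ, Pos E K δ ∧ ∀ t, Pos E K t → App E K.L t δ → ∀ s, Op E K.P ε t s →
        ∀ x' a' b' c' d', Val E φ x' a' b' → Val E ψ x' c' d' → Cl E K a' a t → Cl E K b' b t →
          Lin E K c' c m n a' a b' b s ∧ Lin E K d' d m' n' a' a b' b s

/-- `τ` is a Hausdorff topology on `X`. -/
def Haus (X τ : M) : Prop :=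
  (∀ O, E O τ → Subs E O X) ∧ E X τ ∧
  (∀ O, E O τ → ∀ O', E O' τ → ∃ W, E W τ ∧ ∀ x, E x W ↔ E x O ∧ E x O') ∧
  (∀ S, Subs E S τ → ∃ W, E W τ ∧ ∀ x, E x W ↔ ∃ O, E O S ∧ E x O) ∧
  ∀ x, E x X → ∀ y, E y X → x ≠ y →
    ∃ O O', E O τ ∧ E O' τ ∧ E x O ∧ E y O' ∧ ∀ z, E z O → ¬ E z O'

/-- `φ` is a homeomorphism from an open set `D` onto an open subset of `C × C`. -/
def Chart (τ φ : M) : Prop :=
  Fn E φ ∧ (∀ x x' z, App E φ x z → App E φ x' z → x = x') ∧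
  (∀ x z, App E φ x z → ∃ a, E a K.C ∧ ∃ b, E b K.C ∧ Pair E z a b) ∧
  ∃ D, E D τ ∧ (∀ x, E x D ↔ ∃ z, App E φ x z) ∧
    ∀ O, Subs E O D → (E O τ ↔ OpenC E K fun a b => ∃ x, E x O ∧ Val E φ x a b)

/-- `𝒜` is a holomorphic atlas on `(X, τ)` modelled on `C × C`. -/
def Atlas (X τ 𝒜 : M) : Prop :=
  (∀ φ, E φ 𝒜 → Chart E K τ φ) ∧ (∀ x, E x X → ∃ φ, E φ 𝒜 ∧ ∃ z, App E φ x z) ∧
  ∀ φ, E φ 𝒜 → ∀ ψ, E ψ 𝒜 → Hol E K φ ψ

/-- `S` is an open cover of `X`. -/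
def Cover (X τ S : M) : Prop := Subs E S τ ∧ ∀ x, E x X → ∃ O, E O S ∧ E x O

/-- Finitely many members of `S` cover `X`. -/
def FinSub (w X S : M) : Prop :=
  ∃ N, E N w ∧ ∃ f, Fn E f ∧ ∀ x, E x X → ∃ n, E n N ∧ ∃ O, E O S ∧ App E f n O ∧ E x O

/-- `S` is countable. -/
def Ctbl (w S : M) : Prop := ∃ g, Fn E g ∧ ∀ O, E O S → ∃ n, E n w ∧ App E g n O

/-- There is a Hausdorff complex manifold of complex dimension two in which every countable open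
cover has a finite subcover, while some open cover has none. -/
def Stoll : Prop :=
  ∃ (w : M) (K : Cx M) (X τ 𝒜 : M), Omega E w ∧ IsCx E K ∧ Haus E X τ ∧ Atlas E K X τ 𝒜 ∧
    (∀ S, Cover E X τ S → Ctbl E w S → FinSub E w X S) ∧
    ∃ S, Cover E X τ S ∧ ¬ FinSub E w X S

end Pool.Agent.Lib.MP_53f9be_gt.Cc
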