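import Pool.Agent.Lib.MP_53f9be_gt.FrcModel
import Pool.Agent.Lib.MP_53f9be_gt.CcDefs

/-!
Canonical names for the points of a type, for families, relations and binary operations, and the
truth values of the defined notions.
-/

open TopologicalSpace Set Filter
open Pool.Agent.Lib.MP_e0f6ac_lc Pool.Agent.Lib.MP_898cae_lc Pool.Agent.Lib.MP_53f9be_gt.Cc

namespace Pool.Agent.Lib.MP_53f9be_gt.Frc

variable {X : Type} [TopologicalSpace X]

/-- A canonical name for each point of a type. -/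
noncomputable def cdN {T : Type} (a : T) : Nm X :=
  check (Ordinal.typein (WellOrderingRel (α := T)) a).toPSet

/-- The member of the model named by a point. -/
noncomputable abbrev cd (U : UF X) {T : Type} (a : T) : Md U := cls U (cdN a)

theorem cd_inj {U : UF X} {T : Type} {a b : T} : cd U a = cd U b ↔ a = b := by
  refine ⟨fun h => ?_, fun h => h ▸ rfl⟩
  by_contra hne
  refine not_hold_bot U (hold_mono (check_not_equiv fun e => hne ?_) (mk_eq.1 h))
  have := PSet.rank_congr e
  rw [Ordinal.rank_toPSet, Ordinal.rank_toPSet] at this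
  exact Ordinal.typein_injective _ this

/-- The name of the range of a family of points. -/
noncomputable def famN {ι T : Type} (f : ι → T) : Nm X := Name.mk ι (fun i => cdN (f i)) fun _ => ⊤

/-- The name of a set of pairs. -/
noncomputable def relN {ι : Type} (A B : ι → Nm X) : Nm X :=
  Name.mk ι (fun i => prN (A i) (B i)) fun _ => ⊤

/-- The name of a binary operation. -/
noncomputable def opN {T : Type} (f : T → T → T) : Nm X :=
  relN (fun p : T × T => prN (cdN p.1) (cdN p.2)) fun p => cdN (f p.1 p.2)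

theorem el_fam (U : UF X) {ι T : Type} (f : ι → T) (i : ι) :
    El U (cd U (f i)) (cls U (famN f)) :=
  el_of_v (fun i => cdN (f i)) _ i (hold_top U)

variable [BaireSpace X]

theorem all_fam {ι T : Type} {f : ι → T} {P : (U : UF X) → Md U → Prop}
    [∀ τ, Tr fun U => P U (cls U τ)] (h : ∀ i U, P U (cd U (f i))) :
    ∀ U y, El U y (cls U (famN f)) → P U y :=
  fun _ _ hy => all_mk P (fun i U _ => h i U) hy

theorem ex_fam {ι T : Type} {f : ι → T} {P : (U : UF X) → Md U → Prop}
    [∀ τ, Tr fun U => P U (cls U τ)] {p : Prop} (h : ∀ i U, P U (cd U (f i)) → p) :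
    ∀ U, (∃ y, El U y (cls U (famN f)) ∧ P U y) → p := by
  rintro U ⟨y, hy, hy'⟩
  by_contra hp
  exact all_fam (P := fun U y => ¬ P U y) (fun i U h' => hp (h i U h')) U y hy hy'

theorem el_fam_iff {U : UF X} {ι T : Type} {f : ι → T} {a : T} :
    El U (cd U a) (cls U (famN f)) ↔ a ∈ range f := by
  refine ⟨fun h => ?_, ?_⟩
  · exact ex_fam (f := f) (P := fun U y => y = cd U a) (fun i U h => ⟨i, cd_inj.1 h⟩) U ⟨_, h, rfl⟩
  · rintro ⟨i, rfl⟩
    exact el_fam U f i

theorem app_rel (U : UF X) {ι : Type} (A B : ι → Nm X) (i : ι) :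
    App (El U) (cls U (relN A B)) (cls U (A i)) (cls U (B i)) :=
  ⟨_, el_of_v (fun i => prN (A i) (B i)) _ i (hold_top U), pair_prN U _ _⟩

theorem all_rel {ι : Type} {A B : ι → Nm X} {P : (U : UF X) → Md U → Md U → Prop}
    [∀ σ τ, Tr fun U => P U (cls U σ) (cls U τ)]
    (h : ∀ i U, P U (cls U (A i)) (cls U (B i))) :
    ∀ U x y, App (El U) (cls U (relN A B)) x y → P U x y := by
  rintro U x y ⟨z, hz, hp⟩
  refine all_mk (fun U z => ∀ x y, Pair (El U) z x y → P U x y) (fun i U _ x y hp => ?_) hz x y hp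
  obtain ⟨rfl, rfl⟩ := pair_inj (pair_prN U (A i) (B i)) hp
  exact h i U

/-- The complex numbers of the model. -/
noncomputable abbrev KU (U : UF X) : Cx (Md U) where
  C := cls U (famN (id : ℂ → ℂ))
  A := cls U (opN fun a b : ℂ => a + b)
  P := cls U (opN fun a b : ℂ => a * b)
  R := cls U (famN fun r : ℝ => (r : ℂ))
  L := cls U (relN (fun p : {p : ℝ × ℝ // p.1 < p.2} => cdN (p.1.1 : ℂ)) fun p => cdN (p.1.2 : ℂ))
  o := cd U (0 : ℂ)
  e := cd U (1 : ℂ)
  i := cd U Complex.I

section Inst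

variable (a b c d e f g h k : Nm X)

instance tr_Op : Tr fun U => Op (El U) (cls U a) (cls U b) (cls U c) (cls U d) := by
  unfold Op; infer_instance
instance tr_Val : Tr fun U => Val (El U) (cls U a) (cls U b) (cls U c) (cls U d) := by
  unfold Val; infer_instance
instance tr_Ub : Tr fun U => Ub (El U) (KU U) (cls U a) (cls U b) := by
  unfold Ub; infer_instance
instance tr_Pos : Tr fun U => Cc.Pos (El U) (KU U) (cls U a) := by
  unfold Cc.Pos; infer_instance
instance tr_Abs : Tr fun U => Abs (El U) (KU U) (cls U a) (cls U b) := by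
  unfold Abs; infer_instance
instance tr_Cl : Tr fun U => Cl (El U) (KU U) (cls U a) (cls U b) (cls U c) := by
  unfold Cl; infer_instance
instance tr_OpenC (V : (U : UF X) → Md U → Md U → Prop)
    [∀ σ τ, Tr fun U => V U (cls U σ) (cls U τ)] : Tr fun U => OpenC (El U) (KU U) (V U) := by
  unfold OpenC; infer_instance
instance tr_Lin : Tr fun U => Lin (El U) (KU U) (cls U a) (cls U b) (cls U c) (cls U d) (cls U e)
    (cls U f) (cls U g) (cls U h) (cls U k) := by
  unfold Lin; infer_instance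
set_option synthInstance.maxSize 2000 in
instance tr_Hol : Tr fun U => Hol (El U) (KU U) (cls U a) (cls U b) := by
  unfold Hol; infer_instance
set_option synthInstance.maxSize 2000 in
instance tr_Chart : Tr fun U => Chart (El U) (KU U) (cls U a) (cls U b) := by
  unfold Chart; infer_instance
instance tr_Cover : Tr fun U => Cover (El U) (cls U a) (cls U b) (cls U c) := by
  unfold Cover; infer_instance
instance tr_FinSub : Tr fun U => FinSub (El U) (cls U a) (cls U b) (cls U c) := by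
  unfold FinSub; infer_instance

end Inst

theorem op_cd (U : UF X) {T : Type} (f : T → T → T) (a b : T) :
    Op (El U) (cls U (opN f)) (cd U a) (cd U b) (cd U (f a b)) :=
  ⟨_, pair_prN U _ _,
    app_rel U (fun p : T × T => prN (cdN p.1) (cdN p.2)) (fun p => cdN (f p.1 p.2)) (a, b)⟩

theorem all_op {T : Type} {f : T → T → T} {P : (U : UF X) → Md U → Md U → Md U → Prop}
    [∀ σ τ ρ, Tr fun U => P U (cls U σ) (cls U τ) (cls U ρ)]
    (h : ∀ a b U, P U (cd U a) (cd U b) (cd U (f a b))) :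
    ∀ U x y z, Op (El U) (cls U (opN f)) x y z → P U x y z := by
  rintro U x y z ⟨t, ht, hp⟩
  refine all_rel (P := fun U t z => ∀ x y, Pair (El U) t x y → P U x y z)
    (fun i U x y hp => ?_) U t z hp x y ht
  obtain ⟨rfl, rfl⟩ := pair_inj (pair_prN U _ _) hp
  exact h _ _ U

theorem op_uniq {U : UF X} {T : Type} {f : T → T → T} {a b : T} {z : Md U}
    (h : Op (El U) (cls U (opN f)) (cd U a) (cd U b) z) : z = cd U (f a b) := by
  refine all_op (P := fun U x y z => x = cd U a → y = cd U b → z = cd U (f a b))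
    (fun a' b' U h1 h2 => ?_) U _ _ z h rfl rfl
  rw [cd_inj.1 h1, cd_inj.1 h2]

theorem op_iff {U : UF X} {T : Type} {f : T → T → T} {a b c : T} :
    Op (El U) (cls U (opN f)) (cd U a) (cd U b) (cd U c) ↔ f a b = c :=
  ⟨fun h => (cd_inj.1 (op_uniq h)).symm, fun h => h ▸ op_cd U f a b⟩

theorem lt_iff {U : UF X} {a b : ℝ} :
    App (El U) (KU U).L (cd U (a : ℂ)) (cd U (b : ℂ)) ↔ a < b := by
  refine ⟨fun h => ?_, fun h => app_rel U (fun p : {p : ℝ × ℝ // p.1 < p.2} => cdN (p.1.1 : ℂ))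
    (fun p => cdN (p.1.2 : ℂ)) ⟨(a, b), h⟩⟩
  by_contra hn
  refine all_rel (P := fun U x y => x = cd U (a : ℂ) → ¬ y = cd U (b : ℂ))
    (fun p U h1 h2 => hn ?_) U _ _ h rfl rfl
  have e1 := Complex.ofReal_injective (cd_inj.1 h1)
  have e2 := Complex.ofReal_injective (cd_inj.1 h2)
  rw [← e1, ← e2]
  exact p.2

omit [BaireSpace X] in
theorem elC (U : UF X) (a : ℂ) : El U (cd U a) (KU U).C := el_fam U id a

omit [BaireSpace X] in
theorem elR (U : UF X) (a : ℝ) : El U (cd U (a : ℂ)) (KU U).R :=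
  el_fam U (fun r : ℝ => (r : ℂ)) a

theorem allC {P : (U : UF X) → Md U → Prop} [∀ τ, Tr fun U => P U (cls U τ)]
    (h : ∀ (a : ℂ) U, P U (cd U a)) : ∀ U y, El U y (KU U).C → P U y :=
  all_fam (f := id) h

theorem allR {P : (U : UF X) → Md U → Prop} [∀ τ, Tr fun U => P U (cls U τ)]
    (h : ∀ (a : ℝ) U, P U (cd U (a : ℂ))) : ∀ U y, El U y (KU U).R → P U y :=
  all_fam (f := fun r : ℝ => (r : ℂ)) h

theorem exR {P : (U : UF X) → Md U → Prop} [∀ τ, Tr fun U => P U (cls U τ)] {p : Prop}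
    (h : ∀ (a : ℝ) U, P U (cd U (a : ℂ)) → p) : ∀ U, (∃ y, El U y (KU U).R ∧ P U y) → p :=
  ex_fam (f := fun r : ℝ => (r : ℂ)) h

theorem zero_lt_iff {U : UF X} {b : ℝ} : App (El U) (KU U).L (KU U).o (cd U (b : ℂ)) ↔ 0 < b :=
  lt_iff (a := 0)

theorem pos_iff {U : UF X} {b : ℝ} : Cc.Pos (El U) (KU U) (cd U (b : ℂ)) ↔ 0 < b :=
  ⟨fun h => zero_lt_iff.1 h.2, fun h => ⟨elR U b, zero_lt_iff.2 h⟩⟩

theorem allPos {P : (U : UF X) → Md U → Prop} [∀ τ, Tr fun U => P U (cls U τ)]
    (h : ∀ (a : ℝ), 0 < a → ∀ U, P U (cd U (a : ℂ))) :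
    ∀ U y, Cc.Pos (El U) (KU U) y → P U y := fun U y hy =>
  allR (P := fun U y => Cc.Pos (El U) (KU U) y → P U y) (fun a U ha => h a (pos_iff.1 ha) U)
    U y hy.1 hy

theorem abs_iff {U : UF X} {a ε : ℝ} :
    Abs (El U) (KU U) (cd U (a : ℂ)) (cd U (ε : ℂ)) ↔ |a| ≤ ε := by
  have key : ∀ (U : UF X) (x y z : Md U), Op (El U) (KU U).A x y z →
      x = cd U (a : ℂ) → z = cd U (0 : ℂ) → y = cd U ((-a : ℝ) : ℂ) := by
    refine all_op fun u v U h1 h2 => cd_inj.2 ?_
    have e1 := cd_inj.1 h1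
    have e2 : u + v = 0 := cd_inj.1 h2
    rw [e1] at e2
    push_cast
    linear_combination e2
  rw [abs_le]
  constructor
  · rintro ⟨h1, a', h2, h3⟩
    rw [key U _ _ _ h2 rfl rfl, lt_iff] at h3
    rw [lt_iff] at h1
    constructor <;> linarith [not_lt.1 h1, not_lt.1 h3]
  · rintro ⟨h1, h2⟩
    refine ⟨by rw [lt_iff]; linarith, cd U ((-a : ℝ) : ℂ), op_iff.2 (by simp), ?_⟩
    rw [lt_iff]; linarith

/-- Both coordinates of `u - v` are at most `ε` in absolute value. -/
def cl (u v : ℂ) (ε : ℝ) : Prop := |(u - v).re| ≤ ε ∧ |(u - v).im| ≤ ε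

theorem cl_iff {U : UF X} {u v : ℂ} {ε : ℝ} :
    Cl (El U) (KU U) (cd U u) (cd U v) (cd U (ε : ℂ)) ↔ cl u v ε := by
  constructor
  · suffices h : ∀ U : UF X, Cl (El U) (KU U) (cd U u) (cd U v) (cd U (ε : ℂ)) → cl u v ε from h U
    unfold Cl
    refine exR fun a => ?_
    refine exR fun b U => ?_
    rintro ⟨t, s, h1, h2, h3, h4, h5⟩
    obtain rfl := op_uniq h1
    obtain rfl := op_uniq h2
    have e : v + (a + Complex.I * b) = u := op_iff.1 h3
    rw [abs_iff] at h4 h5
    rw [← e]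
    constructor
    · simpa using h4
    · simpa using h5
  · rintro ⟨h1, h2⟩
    refine ⟨_, elR U (u - v).re, _, elR U (u - v).im, _, _, op_cd U _ _ _, op_cd U _ _ _,
      op_iff.2 ?_, abs_iff.2 h1, abs_iff.2 h2⟩
    have := Complex.re_add_im (u - v)
    linear_combination this

theorem lin_of {U : UF X} {c' c m n a' a b' b : ℂ} {s : ℝ}
    (h : cl c' (c + (m * (a' - a) + n * (b' - b))) s) :
    Lin (El U) (KU U) (cd U c') (cd U c) (cd U m) (cd U n) (cd U a') (cd U a) (cd U b') (cd U b)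
      (cd U (s : ℂ)) :=
  ⟨cd U (a' - a), cd U (b' - b), _, _, _, _, op_iff.2 (by ring), op_iff.2 (by ring),
    op_cd U _ _ _, op_cd U _ _ _, op_cd U _ _ _, op_cd U _ _ _, cl_iff.2 h⟩

theorem bin_op {f : ℂ → ℂ → ℂ} (hc : ∀ a b, f a b = f b a)
    (ha : ∀ a b c, f (f a b) c = f a (f b c)) (U : UF X) :
    Bin (El U) (KU U).C (cls U (opN f)) := by
  refine ⟨?_, ?_, ?_, ?_⟩
  · revert U
    exact all_op fun a b U => ⟨elC U a, elC U b⟩
  · revert U
    exact allC fun a => allC fun b U => ⟨_, elC U _, op_cd U f a b, fun _ h => op_uniq h⟩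
  · revert U
    refine allC fun a => allC fun b U c h => ?_
    obtain rfl := op_uniq h
    exact op_iff.2 (hc b a)
  · revert U
    refine allC fun a => allC fun b => allC fun c U d g h h1 h2 h3 => ?_
    obtain rfl := op_uniq h1
    obtain rfl := op_uniq h2
    obtain rfl := op_uniq h3
    exact op_iff.2 (ha a b c).symm

theorem isFld_KU (U : UF X) : IsFld (El U) (KU U) := by
  refine ⟨bin_op add_comm add_assoc U, bin_op mul_comm mul_assoc U,
    ⟨elC U 0, elC U 1, ?_, ?_⟩, fun h => zero_ne_one (cd_inj.1 h), ?_, ?_⟩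
  · revert U
    refine allC fun a => allC fun b U c h => ?_
    rcases h with h | h
    all_goals
      obtain rfl := op_uniq h
      exact elC U _
  · revert U
    refine allC fun a U => ⟨⟨_, elC U (-a), op_iff.2 (by simp)⟩, fun h => ?_⟩
    have : a ≠ 0 := fun e => h (cd_inj.2 e)
    exact ⟨_, elC U a⁻¹, op_iff.2 (mul_inv_cancel₀ this)⟩
  · revert U
    exact allC fun a U => ⟨op_iff.2 (by simp), op_iff.2 (by simp)⟩
  · revert U
    refine allC fun a => allC fun b => allC fun c U d p q r h1 h2 h3 h4 => ?_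
    obtain rfl := op_uniq h1
    obtain rfl := op_uniq h2
    obtain rfl := op_uniq h3
    obtain rfl := op_uniq h4
    exact op_iff.2 (mul_add a b c).symm

theorem closed_R (U : UF X) : Closed (El U) (KU U) (KU U).R := by
  refine ⟨elR U 0, elR U 1, ?_, ?_⟩
  · revert U
    refine allR fun a => allR fun b U c h => ?_
    rcases h with h | h
    · obtain rfl := op_uniq h
      exact el_fam_iff.2 ⟨a + b, by simp⟩
    · obtain rfl := op_uniq h
      exact el_fam_iff.2 ⟨a * b, by simp⟩
  · revert U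
    refine allR fun a U => ⟨⟨_, elR U (-a), op_iff.2 (by simp)⟩, fun h => ?_⟩
    have : (a : ℂ) ≠ 0 := fun e => h (cd_inj.2 e)
    exact ⟨_, elR U a⁻¹, op_iff.2 (by push_cast; exact mul_inv_cancel₀ this)⟩

theorem isOrd_KU (U : UF X) : IsOrd (El U) (KU U) := by
  refine ⟨?_, ?_, ?_, ?_⟩
  · revert U
    exact allR fun a U h => lt_irrefl _ (lt_iff.1 h)
  · revert U
    refine allR fun a => allR fun b U => ?_
    rcases lt_trichotomy a b with h | h | h
    · exact Or.inl (lt_iff.2 h)
    · exact Or.inr (Or.inl (h ▸ rfl))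
    · exact Or.inr (Or.inr (lt_iff.2 h))
  · revert U
    refine allR fun a => allR fun b => allR fun c U =>
      ⟨fun h1 h2 => lt_iff.2 ((lt_iff.1 h1).trans (lt_iff.1 h2)), fun d g h1 h2 h3 => ?_⟩
    obtain rfl := op_uniq h2
    obtain rfl := op_uniq h3
    have := lt_iff (U := U) (a := a + c) (b := b + c)
    push_cast at this
    exact this.2 (by linarith [lt_iff.1 h1])
  · revert U
    refine allR fun a => allR fun b U c h1 h2 h3 => ?_
    obtain rfl := op_uniq h3
    have := zero_lt_iff (U := U) (b := a * b)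
    push_cast at this
    exact this.2 (mul_pos (zero_lt_iff.1 h1) (zero_lt_iff.1 h2))

end Pool.Agent.Lib.MP_53f9be_gt.Frc
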