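import Pool.Agent.Lib.MP_53f9be_gt.CcBase

/-!
Forcing with a countably closed preorder: the forcing relation, and completeness of the reals.
-/

open TopologicalSpace Set Filter
open Pool.Agent.Lib.MP_e0f6ac_lc Pool.Agent.Lib.MP_898cae_lc Pool.Agent.Lib.MP_53f9be_gt.Cc

namespace Pool.Agent.Lib.MP_53f9be_gt.Frc

/-- Every decreasing sequence has a lower bound. -/
class SClosed (P : Type) [Preorder P] : Prop where
  lb : ∀ f : ℕ → P, (∀ n, f (n + 1) ≤ f n) → ∃ q, ∀ n, q ≤ f n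

variable {P : Type} [Preorder P]

theorem sigma_dec [SClosed P] {ι : Type} [Countable ι] (D : ι → P → Prop) (p : P)
    (hmono : ∀ n q r, r ≤ q → D n q → D n r) (hd : ∀ n q, q ≤ p → ∃ r ≤ q, D n r) :
    ∃ r ≤ p, ∀ n, D n r := by
  rcases isEmpty_or_nonempty ι with h | h
  · exact ⟨p, le_rfl, fun n => h.elim n⟩
  obtain ⟨e, he⟩ := exists_surjective_nat ι
  have : Nonempty P := ⟨p⟩
  choose! g hg using hd
  let f : ℕ → P := fun n => Nat.rec p (fun n q => g (e n) q) n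
  have hf : ∀ n, f n ≤ p := by
    intro n
    induction n with
    | zero => exact le_rfl
    | succ n ih => exact (hg (e n) _ ih).1.trans ih
  obtain ⟨q, hq⟩ := SClosed.lb f fun n => (hg (e n) _ (hf n)).1
  refine ⟨q, hq 0, fun i => ?_⟩
  obtain ⟨n, rfl⟩ := he i
  exact hmono _ _ _ (hq (n + 1)) (hg (e n) _ (hf n)).2

variable [TopologicalSpace P] [Topology.IsLowerSet P]

theorem isOpen_Iic' (p : P) : IsOpen (Iic p) :=
  Topology.IsLowerSet.isOpen_iff_isLowerSet.2 (isLowerSet_Iic p)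

instance baire_of_sclosed [SClosed P] : BaireSpace P where
  baire_property f ho hd := by
    rw [dense_iff_inter_open]
    rintro u hu ⟨p, hp⟩
    obtain ⟨r, hr, h⟩ := sigma_dec (fun n q => q ∈ f n) p
      (fun n q r hr hq => Topology.IsLowerSet.isOpen_iff_isLowerSet.1 (ho n) hr hq)
      (fun n q _ => by
        obtain ⟨r, h1, h2⟩ := (hd n).inter_open_nonempty _ (isOpen_Iic' q) ⟨q, le_rfl⟩
        exact ⟨r, h1, h2⟩)
    exact ⟨r, Topology.IsLowerSet.isOpen_iff_isLowerSet.1 hu hr hp, mem_iInter.2 h⟩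

/-- The Boolean value of a condition. -/
noncomputable def br (p : P) : RO P := RO.ofOpen (Iic p) (isOpen_Iic' p)

theorem hold_br {U : UF P} {p : P} : hold U (br p) ↔ Iic p ∈ U.1 := by
  rw [hold, br, RO.set_ofOpen]
  refine ⟨fun h => ?_, fun h => mem_of_superset h
    (interior_maximal subset_closure (isOpen_Iic' p))⟩
  rw [← U.closure_iff (isOpen_Iic' p)]
  exact mem_of_superset h interior_subset

theorem br_mono {U : UF P} {p q : P} (h : q ≤ p) (hq : hold U (br q)) : hold U (br p) :=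
  hold_br.2 (mem_of_superset (hold_br.1 hq) (Iic_subset_Iic.2 h))

theorem compat {U : UF P} {p q : P} (hp : hold U (br p)) (hq : hold U (br q)) :
    ∃ r, r ≤ p ∧ r ≤ q :=
  U.1.nonempty_of_mem (inter_mem (hold_br.1 hp) (hold_br.1 hq))

/-- The forcing relation. -/
def Fo (p : P) (H : UF P → Prop) : Prop := ∀ U, hold U (br p) → H U

theorem Fo.mono {p q : P} {H : UF P → Prop} (h : Fo p H) (hq : q ≤ p) : Fo q H :=
  fun U hU => h U (br_mono hq hU)

theorem dec {p : P} (H : UF P → Prop) [hH : Tr H] {U : UF P} (hp : hold U (br p)) (h : H U) :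
    ∃ q ≤ p, Fo q H := by
  obtain ⟨b, hb⟩ := hH.ex
  obtain ⟨q, h1, h2⟩ := U.1.nonempty_of_mem (inter_mem (hold_br.1 hp) ((hb U).1 h))
  refine ⟨q, h1, fun U' hU' => (hb U').2 (mem_of_superset (hold_br.1 hU') fun r hr => ?_)⟩
  exact Topology.IsLowerSet.isOpen_iff_isLowerSet.1 b.isOpen hr h2

theorem by_force (H : UF P → Prop) [hH : Tr H] (h : ∀ p, ¬ Fo p H) (U : UF P) : ¬ H U := by
  intro hU
  obtain ⟨b, hb⟩ := hH.ex
  obtain ⟨q, h2⟩ := U.1.nonempty_of_mem ((hb U).1 hU)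
  refine h q fun U' hU' => (hb U').2 (mem_of_superset (hold_br.1 hU') fun r hr => ?_)
  exact Topology.IsLowerSet.isOpen_iff_isLowerSet.1 b.isOpen hr h2

variable [SClosed P]

theorem exists_uf_br (p : P) : ∃ U : UF P, hold U (br p) := by
  refine exists_uf (RO.ne_bot_iff.2 ⟨p, ?_⟩)
  rw [br, RO.set_ofOpen]
  exact interior_maximal subset_closure (isOpen_Iic' p) le_rfl

theorem mem_dec {p : P} {ι : Type} {A : ι → Nm P} {v : ι → RO P}
    (Q : (U : UF P) → Md U → Prop) [∀ τ, Tr fun U => Q U (cls U τ)]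
    (h : Fo p fun U => ∃ y, El U y (cls U (Name.mk ι A v)) ∧ Q U y) :
    ∃ i, ∃ q ≤ p, Fo q fun U => hold U (v i) ∧ Q U (cls U (A i)) := by
  by_contra hc
  obtain ⟨U, hU⟩ := exists_uf_br p
  obtain ⟨y, hy, hy'⟩ := h U hU
  refine all_mk (fun U y => hold U (br p) → ¬ Q U y) (fun i U hi hp hq => hc ?_) hy hU hy'
  exact ⟨i, dec (fun U => hold U (v i) ∧ Q U (cls U (A i))) hp ⟨hi, hq⟩⟩

theorem fam_dec {p : P} {ι T : Type} {f : ι → T}
    (Q : (U : UF P) → Md U → Prop) [∀ τ, Tr fun U => Q U (cls U τ)]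
    (h : Fo p fun U => ∃ y, El U y (cls U (famN f)) ∧ Q U y) :
    ∃ i, ∃ q ≤ p, Fo q fun U => Q U (cd U (f i)) := by
  obtain ⟨i, q, hq, h'⟩ := mem_dec Q h
  exact ⟨i, q, hq, fun U hU => (h' U hU).2⟩

theorem om_dec {p : P} (Q : (U : UF P) → Md U → Prop) [∀ τ, Tr fun U => Q U (cls U τ)]
    (h : Fo p fun U => ∃ y, El U y (om U) ∧ Q U y) :
    ∃ n, ∃ q ≤ p, Fo q fun U => Q U (num U n) := by
  obtain ⟨i, q, hq, h'⟩ := mem_dec Q h
  exact ⟨i, q, hq, fun U hU => (h' U hU).2⟩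

theorem wit_dec {p : P} (Q : (U : UF P) → Md U → Prop) [∀ τ, Tr fun U => Q U (cls U τ)]
    (h : Fo p fun U => ∃ y, Q U y) : ∃ τ, Fo p fun U => Q U (cls U τ) := by
  obtain ⟨τ, hτ⟩ := exists_wit Q
  exact ⟨τ, fun U hU => hτ U (h U hU)⟩

theorem lt_of_le_lt {a b : ℝ} (h : a ≤ b) : ∀ (U : UF P) (x : Md U), El U x (KU U).R →
    App (El U) (KU U).L (cd U (b : ℂ)) x → App (El U) (KU U).L (cd U (a : ℂ)) x :=
  allR fun _ _ h' => lt_iff.2 (h.trans_lt (lt_iff.1 h'))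

theorem complete_R (U : UF P) (S : Md U) (h1 : Subs (El U) S (KU U).R) (h2 : ∃ x, El U x S)
    (h3 : ∃ b, Ub (El U) (KU U) S b) :
    ∃ s, Ub (El U) (KU U) S s ∧ ∀ b, Ub (El U) (KU U) S b → ¬ App (El U) (KU U).L b s := by
  obtain ⟨σ, rfl⟩ := mk_surj S
  by_contra h4
  refine by_force (fun U => Subs (El U) (cls U σ) (KU U).R ∧ (∃ x, El U x (cls U σ)) ∧
    (∃ b, Ub (El U) (KU U) (cls U σ) b) ∧ ¬ ∃ s, Ub (El U) (KU U) (cls U σ) s ∧
      ∀ b, Ub (El U) (KU U) (cls U σ) b → ¬ App (El U) (KU U).L b s) (fun p hp => ?_) U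
    ⟨h1, h2, h3, h4⟩
  let G : ℚ → UF P → Prop := fun q U =>
    ∃ x, El U x (cls U σ) ∧ App (El U) (KU U).L (cd U ((q : ℝ) : ℂ)) x
  have hG : ∀ q, Tr (G q) := fun q => by unfold G; infer_instance
  obtain ⟨r, hr, hD⟩ := sigma_dec (fun q r => Fo r (G q) ∨ Fo r fun U => ¬ G q U) p
    (fun q r r' h => Or.imp (·.mono h) (·.mono h)) (fun q r _ => by
      obtain ⟨U, hU⟩ := exists_uf_br r
      by_cases h : G q U
      · obtain ⟨r', h1, h2⟩ := dec (G q) hU h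
        exact ⟨r', h1, Or.inl h2⟩
      · obtain ⟨r', h1, h2⟩ := dec (fun U => ¬ G q U) hU h
        exact ⟨r', h1, Or.inr h2⟩)
  have hp' := hp.mono hr
  have hdec : ∀ q U, hold U (br r) → G q U → Fo r (G q) := fun q U hU h =>
    (hD q).resolve_right fun h' => h' U hU h
  let A : Set ℝ := {t | ∃ q : ℚ, t = q ∧ Fo r (G q)}
  have hne : A.Nonempty := by
    obtain ⟨a, r', hr', h⟩ := fam_dec (p := r) (f := fun r : ℝ => (r : ℂ))
      (fun U x => El U x (cls U σ)) fun U hU => by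
        obtain ⟨x, hx⟩ := (hp' U hU).2.1
        exact ⟨x, (hp' U hU).1 x hx, hx⟩
    obtain ⟨q, hq⟩ := exists_rat_lt a
    obtain ⟨U, hU⟩ := exists_uf_br r'
    exact ⟨q, q, rfl, hdec q U (br_mono hr' hU) ⟨_, h U hU, lt_iff.2 hq⟩⟩
  have hub : ∀ (b : ℝ) U, hold U (br r) → Ub (El U) (KU U) (cls U σ) (cd U (b : ℂ)) →
      b ∈ upperBounds A := by
    rintro b U hU hb _ ⟨q, rfl, hq⟩
    by_contra hlt
    obtain ⟨x, hx, hx'⟩ := hq U hU
    exact hb.2 x hx (lt_of_le_lt (not_le.1 hlt).le U x ((hp' U hU).1 x hx) hx')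
  have hbd : BddAbove A := by
    obtain ⟨b, r', hr', h⟩ := fam_dec (p := r) (f := fun r : ℝ => (r : ℂ))
      (fun U x => Ub (El U) (KU U) (cls U σ) x) fun U hU => by
        obtain ⟨x, hx⟩ := (hp' U hU).2.2.1
        exact ⟨x, hx.1, hx⟩
    obtain ⟨U, hU⟩ := exists_uf_br r'
    exact ⟨b, hub b U (br_mono hr' hU) (h U hU)⟩
  obtain ⟨U, hU⟩ := exists_uf_br r
  refine (hp' U hU).2.2.2 ⟨cd U ((sSup A : ℝ) : ℂ), ⟨elR U _, fun x hx => ?_⟩, fun b hb => ?_⟩
  · refine allR (P := fun U x => hold U (br r) → El U x (cls U σ) →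
      ¬ App (El U) (KU U).L (cd U ((sSup A : ℝ) : ℂ)) x) (fun a U hU ha h => ?_) U x
      ((hp' U hU).1 x hx) hU hx
    obtain ⟨q, h1, h2⟩ := exists_rat_btwn (lt_iff.1 h)
    exact h1.not_ge (le_csSup hbd ⟨q, rfl, hdec q U hU ⟨_, ha, lt_iff.2 h2⟩⟩)
  · refine allR (P := fun U b => hold U (br r) → Ub (El U) (KU U) (cls U σ) b →
      ¬ App (El U) (KU U).L b (cd U ((sSup A : ℝ) : ℂ))) (fun a U hU ha h => ?_) U b hb.1 hU hb
    exact (lt_iff.1 h).not_ge (csSup_le hne (hub a U hU ha))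

theorem isCx_KU (U : UF P) : IsCx (El U) (KU U) := by
  refine ⟨isFld_KU U, ?_, closed_R U, isOrd_KU U, complete_R U, elC U _,
    ⟨_, op_cd U _ _ _, op_iff.2 (by simp)⟩, ?_⟩
  · revert U
    exact allR fun a U => elC U _
  · revert U
    refine allC fun c U => ⟨_, elR U c.re, _, elR U c.im, _, op_cd U _ _ _, op_iff.2 ?_⟩
    have := Complex.re_add_im c
    linear_combination this

end Pool.Agent.Lib.MP_53f9be_gt.Frc
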