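import Pool.Agent.Lib.MP_53f9be_gt.Miss

/-!
Every sequence in `ℂ × ℂ` gets a cluster point after a suitable Fatou-Bieberbach embedding.
-/

open Complex Filter Topology Set Metric

namespace Pool.Agent.Lib.MP_53f9be_gt

theorem IsAut.univ {Y : Set (ℂ × ℂ)} {φ : ℂ × ℂ ≃ ℂ × ℂ} (h : IsAut Y φ) : IsAut univ φ :=
  ⟨h.diff, h.diff_symm, fun _ => Iff.rfl⟩

theorem Good.univ {Y : Set (ℂ × ℂ)} {F : ℂ × ℂ → ℂ × ℂ} (h : Good Y F) : Good univ F :=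
  ⟨fun R ε hε => (h.approx R ε hε).imp fun _ h' => ⟨h'.1.univ, h'.2⟩, h.inj⟩

theorem exists_interp {r ε : ℝ} (hr : 0 ≤ r) (hε : 0 < ε) {u v : ℂ} (c : ℂ) (hv : r < ‖v‖)
    (huv : u ≠ v) : ∃ g : ℂ → ℂ, Differentiable ℂ g ∧ (∀ x, ‖x‖ ≤ r → ‖g x‖ ≤ ε) ∧ g u = 0 ∧
      g v = c := by
  have hv0 : 0 < ‖v‖ := hr.trans_lt hv
  have h1 : Tendsto (fun N : ℕ => ‖c / (v - u)‖ * (r + ‖u‖) * (r / ‖v‖) ^ N) atTop (𝓝 0) := by
    have := (tendsto_pow_atTop_nhds_zero_of_lt_one (r := r / ‖v‖) (by positivity)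
      (by rwa [div_lt_one hv0])).const_mul (‖c / (v - u)‖ * (r + ‖u‖))
    simpa using this
  obtain ⟨N, hN⟩ := (h1.eventually_le_const hε).exists
  refine ⟨fun x => c / (v - u) * (x - u) * (x / v) ^ N, by fun_prop, fun x hx => ?_, by simp, ?_⟩
  · refine le_trans ?_ hN
    rw [norm_mul, norm_mul, norm_pow, norm_div x v]
    have := norm_sub_le x u
    gcongr
    linarith
  · have h2 : v - u ≠ 0 := sub_ne_zero.2 huv.symm
    have h3 : v ≠ 0 := norm_pos_iff.1 hv0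
    simp [h2, h3]

theorem exists_hmove {r ε : ℝ} (hr : 0 ≤ r) (hε : 0 < ε) {a b : ℂ × ℂ} (c : ℂ) (hb : r < ‖b.2‖)
    (hab : a.2 ≠ b.2) : ∃ θ : ℂ × ℂ ≃ ℂ × ℂ, IsAut univ θ ∧ (∀ z, ‖z‖ ≤ r → ‖θ z - z‖ ≤ ε) ∧
      θ a = a ∧ θ b = (c, b.2) := by
  obtain ⟨g, hg, h1, h2, h3⟩ := exists_interp hr hε (c - b.1) hb hab
  refine ⟨shear g, isAut_shear_univ hg, fun z hz => ?_, ?_, ?_⟩
  · rw [norm_shear_sub]
    exact h1 _ ((norm_snd_le z).trans hz)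
  · change (a.1 + g a.2, a.2) = a
    simp [h2]
  · change (b.1 + g b.2, b.2) = _
    simp [h3]

theorem swap_conj {r ε : ℝ} {θ : ℂ × ℂ ≃ ℂ × ℂ} (h : IsAut univ θ)
    (h' : ∀ z, ‖z‖ ≤ r → ‖θ z - z‖ ≤ ε) : ∃ θ' : ℂ × ℂ ≃ ℂ × ℂ, IsAut univ θ' ∧
      (∀ z, ‖z‖ ≤ r → ‖θ' z - z‖ ≤ ε) ∧ ∀ z, θ' z = (θ z.swap).swap := by
  have hs : ∀ z : ℂ × ℂ, ‖z.swap‖ = ‖z‖ := fun z => max_comm _ _
  refine ⟨((Equiv.prodComm ℂ ℂ).trans θ).trans (Equiv.prodComm ℂ ℂ),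
    (isAut_swap.univ.trans h).trans isAut_swap.univ, fun z hz => ?_, fun _ => rfl⟩
  rw [← hs]
  exact h' z.swap (by rwa [hs])

theorem exists_vmove {r ε : ℝ} (hr : 0 ≤ r) (hε : 0 < ε) {a b : ℂ × ℂ} (c : ℂ) (hb : r < ‖b.1‖)
    (hab : a.1 ≠ b.1) : ∃ θ : ℂ × ℂ ≃ ℂ × ℂ, IsAut univ θ ∧ (∀ z, ‖z‖ ≤ r → ‖θ z - z‖ ≤ ε) ∧
      θ a = a ∧ θ b = (b.1, c) := by
  obtain ⟨θ, h1, h2, h3, h4⟩ := exists_hmove hr hε (a := a.swap) (b := b.swap) c hb hab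
  obtain ⟨θ', g1, g2, g3⟩ := swap_conj h1 h2
  exact ⟨θ', g1, g2, by rw [g3, h3]; rfl, by rw [g3, h4]; rfl⟩

theorem exists_move_fst {r ε : ℝ} (hr : 0 ≤ r) (hε : 0 < ε) {a b : ℂ × ℂ} (ha : r < ‖a.1‖)
    (hab : ‖a‖ < ‖b‖) : ∃ θ : ℂ × ℂ ≃ ℂ × ℂ, IsAut univ θ ∧ (∀ z, ‖z‖ ≤ r → ‖θ z - z‖ ≤ ε) ∧
      θ a = a ∧ ‖θ b - a‖ ≤ ε := by
  set η := min ε (‖a.1‖ - r) / 4 with hη
  have hη0 : 0 < η := by
    have : 0 < min ε (‖a.1‖ - r) := lt_min hε (by linarith)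
    positivity
  have h1 : 4 * η ≤ ε := by linarith [min_le_left ε (‖a.1‖ - r)]
  have h2 : 4 * η ≤ ‖a.1‖ - r := by linarith [min_le_right ε (‖a.1‖ - r)]
  have hρ : 0 ≤ r + 2 * η := by linarith
  have ha1 := norm_fst_le a
  have ha2 := norm_snd_le a
  obtain ⟨θ₁, a1, a2, a3, a4⟩ : ∃ θ : ℂ × ℂ ≃ ℂ × ℂ, IsAut univ θ ∧
      (∀ z, ‖z‖ ≤ r + 2 * η → ‖θ z - z‖ ≤ η) ∧ θ a = a ∧ ‖a‖ < ‖(θ b).2‖ := by
    rcases lt_max_iff.1 (hab.trans_eq (Prod.norm_def b)) with h | h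
    · obtain ⟨θ, b1, b2, b3, b4⟩ := exists_vmove hρ hη0 (a := a) (b := b) ((‖a‖ + 1 : ℝ) : ℂ)
        (by linarith) (fun e => by rw [← e] at h; linarith)
      refine ⟨θ, b1, b2, b3, ?_⟩
      rw [b4, norm_real, Real.norm_of_nonneg (by positivity)]
      linarith
    · exact ⟨Equiv.refl _, IsAut.refl, fun z _ => by simpa using hη0.le, rfl, h⟩
  obtain ⟨θ₂, b1, b2, b3, b4⟩ := exists_hmove hρ hη0 (a := a) (b := θ₁ b) (a.1 + η)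
    (by linarith) (fun e => by rw [← e] at a4; linarith)
  have hn : ‖(η : ℂ)‖ = η := by rw [norm_real, Real.norm_of_nonneg hη0.le]
  obtain ⟨θ₃, c1, c2, c3, c4⟩ := exists_vmove hρ hη0 (a := a) (b := (a.1 + η, (θ₁ b).2)) a.2
    (by
      have := norm_le_norm_add_norm_sub' a.1 (a.1 + η)
      rw [show a.1 - (a.1 + η) = -(η : ℂ) by ring, norm_neg, hn] at this
      dsimp only
      linarith)
    (fun e => by
      have : (η : ℂ) = 0 := by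
        dsimp only at e
        linear_combination -e
      rw [this, norm_zero] at hn
      linarith)
  refine ⟨(θ₁.trans θ₂).trans θ₃, (a1.trans b1).trans c1, fun z hz => ?_, ?_, ?_⟩
  · have := near_trans (near_trans (r := r) (fun z hz => a2 z (by linarith))
      (fun z hz => b2 z (by linarith))) (fun z hz => c2 z (by linarith)) z hz
    exact this.trans (by linarith)
  · simp [a3, b3, c3]
  · simp only [Equiv.trans_apply, b4, c4]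
    have : ((a.1 + η, a.2) : ℂ × ℂ) - a = ((η : ℂ), 0) := Prod.ext (by simp) (by simp)
    rw [this, Prod.norm_mk, hn, norm_zero]
    exact max_le (by linarith) hε.le

theorem exists_move {r ε : ℝ} (hr : 0 ≤ r) (hε : 0 < ε) {a b : ℂ × ℂ} (ha : r < ‖a‖)
    (hab : ‖a‖ < ‖b‖) : ∃ θ : ℂ × ℂ ≃ ℂ × ℂ, IsAut univ θ ∧ (∀ z, ‖z‖ ≤ r → ‖θ z - z‖ ≤ ε) ∧
      θ a = a ∧ ‖θ b - a‖ ≤ ε := by
  have hs : ∀ z : ℂ × ℂ, ‖z.swap‖ = ‖z‖ := fun z => max_comm _ _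
  rcases lt_max_iff.1 (ha.trans_eq (Prod.norm_def a)) with h | h
  · exact exists_move_fst hr hε h hab
  · obtain ⟨θ, h1, h2, h3, h4⟩ := exists_move_fst hr hε (a := a.swap) (b := b.swap) h
      (by rwa [hs, hs])
    obtain ⟨θ', g1, g2, g3⟩ := swap_conj h1 h2
    refine ⟨θ', g1, g2, by rw [g3, h3]; rfl, ?_⟩
    rw [g3, ← hs]
    exact h4

theorem exists_good_freq (z : ℕ → ℂ × ℂ) :
    ∃ F, Good univ F ∧ ∃ B, ∀ n, ∃ m, n ≤ m ∧ ‖F (z m)‖ ≤ B := by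
  by_cases hb : ∃ B, ∀ n, ∃ m, n ≤ m ∧ ‖z m‖ ≤ B
  · exact ⟨id, good_id, hb⟩
  push Not at hb
  have hfar : ∀ (B : ℝ) (n : ℕ), ∃ k, n ≤ k ∧ B < ‖z k‖ := fun B n => by
    obtain ⟨n', h⟩ := hb B
    exact ⟨max n n', le_max_left _ _, h _ (le_max_right _ _)⟩
  obtain ⟨k₀, -, hk₀⟩ := hfar 0 0
  set C := ‖z k₀‖ + 1 with hC
  obtain ⟨s, hs, G, hG⟩ := exists_limit (Y := univ) (S := (ℂ × ℂ ≃ ℂ × ℂ) × ℝ × ℕ)
    (fun _ s _ => s.1) (fun s => s.2.1)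
    (fun m s => IsAut univ s.1 ∧ (m : ℝ) ≤ s.2.1 ∧ m ≤ s.2.2 ∧ s.2.1 < ‖z s.2.2‖ ∧
      ‖s.1 (z s.2.2)‖ < C ∧ ∀ n, m = n + 1 → ∃ k, n ≤ k ∧ ‖z k‖ ≤ s.2.1 ∧ ‖s.1 (z k)‖ < C)
    (fun m s n hs _ => hs.1.good) (fun m s hs => hs.2.1) (by
      rintro m ⟨Φ, ρ, k⟩ ⟨hΦ, h1, h2, h3, h4, -⟩ ε hε
      dsimp only at hΦ h1 h2 h3 h4
      obtain ⟨δ, hδ, -, hmod⟩ := exists_modulus hΦ.diff.continuous ρ hε
      obtain ⟨δ', hδ', -, hmod'⟩ := exists_modulus hΦ.diff.continuous ‖z k‖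
        (ε := (C - ‖Φ (z k)‖) / 2) (by linarith)
      obtain ⟨k', hk', hk''⟩ := hfar (max ‖z k‖ (m + 1 : ℕ)) (m + 1)
      obtain ⟨θ, g1, g2, g3, g4⟩ := exists_move (r := ρ) (ε := min δ δ')
        ((Nat.cast_nonneg m).trans h1) (lt_min hδ hδ') h3 ((le_max_left _ _).trans_lt hk'')
      refine ⟨(θ.trans Φ, max ‖z k‖ (m + 1 : ℕ), k'), ⟨g1.trans hΦ, le_max_right _ _, hk', hk'',
        ?_, fun n hn => ⟨k, by omega, le_max_left _ _, ?_⟩⟩, h3.le.trans (le_max_left _ _),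
        fun n _ y hy => hmod y (θ y) hy ((g2 y hy).trans (min_le_left _ _))⟩
      · have := hmod' (z k) (θ (z k')) le_rfl (g4.trans (min_le_right _ _))
        have h5 := norm_le_norm_add_norm_sub' (Φ (θ (z k'))) (Φ (z k))
        change ‖Φ (θ (z k'))‖ < C
        linarith
      · change ‖Φ (θ (z k))‖ < C
        rwa [g3])
    (Equiv.refl _, 0, k₀) ⟨IsAut.refl, by simp, by simp, hk₀, by simp [hC], by simp⟩
  refine ⟨G 0, (hG 0).1, C + 1, fun n => ?_⟩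
  obtain ⟨k, h1, h2, h3⟩ := (hs (n + 1)).2.2.2.2.2 n rfl
  have := (hG 0).2.2 (n + 1) (Nat.zero_le _) (z k) h2
  exact ⟨k, h1, by linarith [norm_le_norm_add_norm_sub' (G 0 (z k)) ((s (n + 1)).1 (z k))]⟩

theorem exists_good_cluster (z : ℕ → ℂ × ℂ) :
    ∃ F, Good univ F ∧ ∃ w, ∀ ε, 0 < ε → ∀ n, ∃ m, n < m ∧ ‖F (z m) - w‖ ≤ ε := by
  obtain ⟨F, hF, B, hB⟩ := exists_good_freq z
  obtain ⟨w, -, hw⟩ := (isCompact_closedBall (0 : ℂ × ℂ) B).exists_mapClusterPt_of_frequently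
    (l := atTop) (f := fun m => F (z m)) (frequently_atTop.2 fun n => by simpa using hB n)
  refine ⟨F, hF, w, fun ε hε n => ?_⟩
  obtain ⟨m, h1, h2⟩ := frequently_atTop.1 (hw.frequently (closedBall_mem_nhds w hε)) (n + 1)
  exact ⟨m, h1, by simpa [dist_eq_norm] using h2⟩

theorem exists_good_not_surj : ∃ F : ℂ × ℂ → ℂ × ℂ, Good univ F ∧ ∃ w, w ∉ range F := by
  obtain ⟨F, hF, h⟩ := exists_good_miss
  refine ⟨F, hF.univ, (0, 3 / 2), ?_⟩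
  rintro ⟨z, hz⟩
  refine h z ?_
  rw [hz]
  norm_num

/-- Conditions: labellings of the plane pair using countably many sheets. -/
structure Cond where
  j : ℂ × ℂ → ℝ × (ℂ × ℂ)
  inj : Function.Injective j
  cnt : (range fun z => (j z).1).Countable

instance condPreorder : Preorder Cond where
  le q p := ∃ F, Good univ F ∧ p.j = q.j ∘ F
  le_refl _ := ⟨id, good_id, rfl⟩
  le_trans r q p := by
    rintro ⟨G, hG, h⟩ ⟨F, hF, h'⟩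
    exact ⟨G ∘ F, hG.comp hF, by rw [h', h]; rfl⟩

theorem exists_glue (p : ℕ → Cond) (G : ℕ → ℂ × ℂ → ℂ × ℂ)
    (h : ∀ n m z z', G n z = G m z' ↔ (p n).j z = (p m).j z') :
    ∃ q : Cond, ∀ n, (p n).j = q.j ∘ G n := by
  classical
  have hc : (⋃ n, range fun z => ((p n).j z).1).Countable := countable_iUnion fun n => (p n).cnt
  obtain ⟨t, ht⟩ : ∃ t : ℝ, t ∉ ⋃ n, range fun z => ((p n).j z).1 := by
    by_contra hn
    push Not at hn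
    exact not_countable_univ (eq_univ_of_forall hn ▸ hc)
  let j : ℂ × ℂ → ℝ × (ℂ × ℂ) := fun w =>
    if h : ∃ x : ℕ × (ℂ × ℂ), G x.1 x.2 = w then (p h.choose.1).j h.choose.2 else (t, w)
  have h1 : ∀ n z, j (G n z) = (p n).j z := fun n z => by
    have hx : ∃ x : ℕ × (ℂ × ℂ), G x.1 x.2 = G n z := ⟨(n, z), rfl⟩
    simp only [j, dif_pos hx]
    exact (h _ _ _ _).1 hx.choose_spec
  have h2 : ∀ w, (∃ n z, G n z = w) ∨ j w = (t, w) := fun w => by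
    by_cases hx : ∃ x : ℕ × (ℂ × ℂ), G x.1 x.2 = w
    · obtain ⟨x, hx⟩ := hx
      exact Or.inl ⟨_, _, hx⟩
    · exact Or.inr (dif_neg hx)
  refine ⟨⟨j, fun w w' e => ?_, (hc.insert t).mono ?_⟩, fun n => funext fun z => (h1 n z).symm⟩
  · rcases h2 w with ⟨n, z, rfl⟩ | hw <;> rcases h2 w' with ⟨m, z', rfl⟩ | hw'
    · rw [h1, h1] at e
      exact (h _ _ _ _).2 e
    · rw [h1, hw'] at e
      exact (ht (mem_iUnion.2 ⟨n, z, congrArg Prod.fst e⟩)).elim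
    · rw [h1, hw] at e
      exact (ht (mem_iUnion.2 ⟨m, z', congrArg Prod.fst e.symm⟩)).elim
    · rw [hw, hw'] at e
      exact congrArg Prod.snd e
  · rintro _ ⟨w, rfl⟩
    rcases h2 w with ⟨n, z, rfl⟩ | hw
    · exact Or.inr (mem_iUnion.2 ⟨n, z, by simp only [h1]⟩)
    · exact Or.inl (congrArg Prod.fst hw)

theorem Cond.exists_ext (p : Cond) {F : ℂ × ℂ → ℂ × ℂ} (hF : Good univ F) :
    ∃ q : Cond, p.j = q.j ∘ F := by
  obtain ⟨q, hq⟩ := exists_glue (fun _ => p) (fun _ => F)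
    fun _ _ _ _ => hF.injective.eq_iff.trans p.inj.eq_iff.symm
  exact ⟨q, hq 0⟩

theorem Cond.exists_lb (f : ℕ → Cond) (hf : ∀ n, f (n + 1) ≤ f n) : ∃ q, ∀ n, q ≤ f n := by
  have ha : ∀ n m, n ≤ m → ∃ F, Good univ F ∧ (f n).j = (f m).j ∘ F :=
    fun n m h => antitone_nat_of_succ_le hf h
  choose! F hF hF' using ha
  obtain ⟨G, hG, hG'⟩ := exists_cocone_nat F hF fun n m k h1 h2 => funext fun z => (f k).inj (by
    have e1 := congrFun (hF' n k (h1.trans h2)) z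
    have e2 := congrFun (hF' n m h1) z
    have e3 := congrFun (hF' m k h2) (F n m z)
    simp only [Function.comp] at e1 e2 e3 ⊢
    rw [← e1, e2, e3])
  obtain ⟨q, hq⟩ := exists_glue f G fun n m z z' => by
    rw [hG' n _ (le_max_left n m), hG' m _ (le_max_right n m), hF' n _ (le_max_left n m),
      hF' m _ (le_max_right n m)]
    exact (hG _).injective.eq_iff.trans (f _).inj.eq_iff.symm
  exact ⟨q, fun n => ⟨G n, hG n, hq n⟩⟩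

theorem trans_open {p q r : Cond} (hp : r ≤ p) (hq : r ≤ q) {z₀ w₀ : ℂ × ℂ} (h : p.j z₀ = q.j w₀)
    {ε : ℝ} (hε : 0 < ε) :
    ∃ δ, 0 < δ ∧ ∀ w, ‖w - w₀‖ ≤ δ → ∃ z, ‖z - z₀‖ ≤ ε ∧ p.j z = q.j w := by
  obtain ⟨F, hF, e1⟩ := hp
  obtain ⟨G, hG, e2⟩ := hq
  have h1 : F z₀ = G w₀ := r.inj (by rwa [e1, e2] at h)
  have h2 : F '' closedBall z₀ ε ∈ 𝓝 (G w₀) :=
    h1 ▸ hF.isOpenMap.image_mem_nhds (closedBall_mem_nhds z₀ hε)
  obtain ⟨δ, hδ, h3⟩ := Metric.nhds_basis_closedBall.mem_iff.1 (hG.continuous.continuousAt h2)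
  refine ⟨δ, hδ, fun w hw => ?_⟩
  obtain ⟨z, hz, e⟩ := h3 (show w ∈ closedBall w₀ δ by rwa [mem_closedBall, dist_eq_norm])
  refine ⟨z, by rwa [mem_closedBall, dist_eq_norm] at hz, ?_⟩
  rw [e1, e2]
  exact congrArg r.j e

theorem trans_hol {p q r : Cond} (hp : r ≤ p) (hq : r ≤ q) {z₀ w₀ : ℂ × ℂ} (h : p.j z₀ = q.j w₀) :
    ∃ B : ℂ × ℂ →L[ℂ] ℂ × ℂ, ∀ ε, 0 < ε → ∃ δ, 0 < δ ∧ ∀ z w, p.j z = q.j w → ‖z - z₀‖ ≤ δ →
      ‖w - w₀ - B (z - z₀)‖ ≤ ε * ‖z - z₀‖ := by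
  obtain ⟨F, hF, e1⟩ := hp
  obtain ⟨G, hG, e2⟩ := hq
  have h1 : ∀ z w, p.j z = q.j w → F z = G w := fun z w h => r.inj (by rwa [e1, e2] at h)
  obtain ⟨A, hA⟩ := hG.exists_equiv w₀
  have hl := Function.leftInverse_invFun hG.injective
  have h2 := (hA.to_local_left_inverse (g := Function.invFun G)
    (Eventually.of_forall hl)).hasFDerivAt
  rw [← h1 _ _ h] at h2
  have h3 := h2.comp z₀ (hF.differentiable z₀).hasFDerivAt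
  refine ⟨(A.symm : ℂ × ℂ →L[ℂ] ℂ × ℂ).comp (fderiv ℂ F z₀), fun ε hε => ?_⟩
  obtain ⟨δ, hδ, h4⟩ := Metric.nhds_basis_closedBall.mem_iff.1 (h3.isLittleO.def hε)
  refine ⟨δ, hδ, fun z w hzw hz => ?_⟩
  have h5 := h4 (show z ∈ closedBall z₀ δ by rwa [mem_closedBall, dist_eq_norm])
  simp only [mem_ofPred_eq, Function.comp, h1 _ _ hzw, h1 _ _ h, hl w, hl w₀] at h5
  exact h5

end Pool.Agent.Lib.MP_53f9be_gt
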