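import Pool.Agent.Lib.MP_53f9be_gt.CcForce
import Pool.Agent.Lib.MP_53f9be_gt.CcPush

/-!
The generic manifold: the union of the labelled planes along the generic filter.
-/

set_option synthInstance.maxSize 4000

open TopologicalSpace Set Filter
open Pool.Agent.Lib.MP_e0f6ac_lc Pool.Agent.Lib.MP_898cae_lc Pool.Agent.Lib.MP_53f9be_gt.Cc

namespace Pool.Agent.Lib.MP_53f9be_gt.Frc

instance condTop : TopologicalSpace Cond := Topology.lowerSet Cond

instance condLower : Topology.IsLowerSet Cond := ⟨rfl⟩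

instance condClosed : SClosed Cond := ⟨Cond.exists_lb⟩

/-- The name of the underlying set. -/
noncomputable def XN : Nm Cond :=
  Name.mk (Cond × (ℂ × ℂ)) (fun x => cdN (x.1.j x.2)) fun x => br x.1

/-- The chart given by a condition. -/
noncomputable def phN (p : Cond) : Nm Cond :=
  relN (fun z : ℂ × ℂ => cdN (p.j z)) fun z => prN (cdN z.1) (cdN z.2)

/-- The name of the atlas. -/
noncomputable def AtN : Nm Cond := Name.mk Cond phN br

/-- The name of the family of chart domains. -/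
noncomputable def DmN : Nm Cond := Name.mk Cond (fun p => famN p.j) br

theorem el_X {U : UF Cond} {p : Cond} (h : hold U (br p)) (z : ℂ × ℂ) :
    El U (cd U (p.j z)) (cls U XN) :=
  el_of_v (fun x : Cond × (ℂ × ℂ) => cdN (x.1.j x.2)) _ (p, z) h

theorem el_At {U : UF Cond} {p : Cond} (h : hold U (br p)) : El U (cls U (phN p)) (cls U AtN) :=
  el_of_v phN _ p h

theorem el_Dm {U : UF Cond} {p : Cond} (h : hold U (br p)) :
    El U (cls U (famN p.j)) (cls U DmN) :=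
  el_of_v (fun p : Cond => famN p.j) _ p h

theorem allX {P : (U : UF Cond) → Md U → Prop} [∀ τ, Tr fun U => P U (cls U τ)]
    (h : ∀ (p : Cond) z U, hold U (br p) → P U (cd U (p.j z))) :
    ∀ U y, El U y (cls U XN) → P U y :=
  fun _ _ hy => all_mk P (fun x U hx => h x.1 x.2 U hx) hy

theorem allAt {P : (U : UF Cond) → Md U → Prop} [∀ τ, Tr fun U => P U (cls U τ)]
    (h : ∀ (p : Cond) U, hold U (br p) → P U (cls U (phN p))) :
    ∀ U y, El U y (cls U AtN) → P U y :=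
  fun _ _ hy => all_mk P h hy

theorem allDm {P : (U : UF Cond) → Md U → Prop} [∀ τ, Tr fun U => P U (cls U τ)]
    (h : ∀ (p : Cond) U, hold U (br p) → P U (cls U (famN p.j))) :
    ∀ U y, El U y (cls U DmN) → P U y :=
  fun _ _ hy => all_mk P h hy

theorem app_ph (U : UF Cond) (p : Cond) (z : ℂ × ℂ) :
    App (El U) (cls U (phN p)) (cd U (p.j z)) (cls U (prN (cdN z.1) (cdN z.2))) :=
  app_rel U (fun z : ℂ × ℂ => cdN (p.j z)) (fun z => prN (cdN z.1) (cdN z.2)) z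

theorem val_ph (U : UF Cond) (p : Cond) (z : ℂ × ℂ) :
    Val (El U) (cls U (phN p)) (cd U (p.j z)) (cd U z.1) (cd U z.2) :=
  ⟨_, pair_prN U _ _, app_ph U p z⟩

theorem all_app {p : Cond} {P : (U : UF Cond) → Md U → Md U → Prop}
    [∀ σ τ, Tr fun U => P U (cls U σ) (cls U τ)]
    (h : ∀ z U, P U (cd U (p.j z)) (cls U (prN (cdN z.1) (cdN z.2)))) :
    ∀ U x y, App (El U) (cls U (phN p)) x y → P U x y :=
  all_rel h

theorem all_val {p : Cond} {P : (U : UF Cond) → Md U → Md U → Md U → Prop}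
    [∀ σ τ ρ, Tr fun U => P U (cls U σ) (cls U τ) (cls U ρ)]
    (h : ∀ z U, P U (cd U (p.j z)) (cd U z.1) (cd U z.2)) :
    ∀ U x a b, Val (El U) (cls U (phN p)) x a b → P U x a b := by
  rintro U x a b ⟨t, ht, hp⟩
  refine all_app (P := fun U x t => ∀ a b, Pair (El U) t a b → P U x a b)
    (fun z U a b hp => ?_) U x t hp a b ht
  obtain ⟨rfl, rfl⟩ := pair_inj (pair_prN U _ _) hp
  exact h z U

theorem all_val2 {p q : Cond} {P : (U : UF Cond) → Md U → Md U → Md U → Md U → Prop}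
    [∀ σ τ ρ κ, Tr fun U => P U (cls U σ) (cls U τ) (cls U ρ) (cls U κ)]
    (h : ∀ z w, p.j z = q.j w → ∀ U, P U (cd U z.1) (cd U z.2) (cd U w.1) (cd U w.2)) :
    ∀ U x a b c d, Val (El U) (cls U (phN p)) x a b → Val (El U) (cls U (phN q)) x c d →
      P U a b c d := by
  intro U x a b c d h1 h2
  refine all_val (P := fun U x a b => ∀ c d, Val (El U) (cls U (phN q)) x c d → P U a b c d)
    (fun z U c d h2 => ?_) U x a b h1 c d h2
  exact all_val (P := fun U x c d => cd U (p.j z) = x → P U (cd U z.1) (cd U z.2) c d)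
    (fun w U e => h z w (cd_inj.1 e) U) U _ c d h2 rfl

theorem val_uniq {U : UF Cond} {p : Cond} {z : ℂ × ℂ} {x : Md U}
    (h : Val (El U) (cls U (phN p)) x (cd U z.1) (cd U z.2)) : x = cd U (p.j z) := by
  refine all_val (P := fun U x a b => a = cd U z.1 → b = cd U z.2 → x = cd U (p.j z))
    (fun w U h1 h2 => ?_) U x _ _ h rfl rfl
  rw [Prod.ext (cd_inj.1 h1) (cd_inj.1 h2)]

theorem val_facts (p : Cond) : ∀ (U : UF Cond) x a b, Val (El U) (cls U (phN p)) x a b →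
    El U a (KU U).C ∧ El U b (KU U).C ∧ ∀ x', Val (El U) (cls U (phN p)) x' a b → x' = x :=
  all_val fun _ U => ⟨elC U _, elC U _, fun _ h => val_uniq h⟩

theorem at_facts : ∀ (U : UF Cond) φ, El U φ (cls U AtN) → ∀ x a b, Val (El U) φ x a b →
    El U a (KU U).C ∧ El U b (KU U).C ∧ ∀ x', Val (El U) φ x' a b → x' = x :=
  allAt fun p U _ => val_facts p U

theorem dom_val (p : Cond) : ∀ (U : UF Cond) x, El U x (cls U (famN p.j)) →
    ∃ a b, Val (El U) (cls U (phN p)) x a b :=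
  all_fam fun z U => ⟨_, _, val_ph U p z⟩

theorem dom_sub (p : Cond) : ∀ (U : UF Cond) x, El U x (cls U (famN p.j)) → hold U (br p) →
    El U x (cls U XN) :=
  all_fam fun z _ h => el_X h z

theorem all_pairs (p : Cond) : ∀ (U : UF Cond) a, El U a (KU U).C → ∀ b, El U b (KU U).C →
    ∃ x, El U x (cls U (famN p.j)) ∧ Val (El U) (cls U (phN p)) x a b :=
  allC fun a => allC fun b U => ⟨_, el_fam U p.j (a, b), val_ph U p (a, b)⟩

theorem cl_of_norm {u v : ℂ} {ε : ℝ} (h : ‖u - v‖ ≤ ε) : cl u v ε :=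
  ⟨(Complex.abs_re_le_norm _).trans h, (Complex.abs_im_le_norm _).trans h⟩

theorem norm_of_cl {z w : ℂ × ℂ} {ε : ℝ} (h1 : cl z.1 w.1 ε) (h2 : cl z.2 w.2 ε) :
    ‖z - w‖ ≤ 2 * ε := by
  have a1 := Complex.norm_le_abs_re_add_abs_im (z.1 - w.1)
  have a2 := Complex.norm_le_abs_re_add_abs_im (z.2 - w.2)
  rw [Prod.norm_def]
  exact max_le (by simp only [Prod.fst_sub]; linarith [h1.1, h1.2])
    (by simp only [Prod.snd_sub]; linarith [h2.1, h2.2])

theorem near_val {p q r : Cond} (hp : r ≤ p) (hq : r ≤ q) : ∀ (U : UF Cond) x c d a b,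
    Val (El U) (cls U (phN p)) x c d → Val (El U) (cls U (phN q)) x a b →
    ∀ ε, Cc.Pos (El U) (KU U) ε → ∃ δ, Cc.Pos (El U) (KU U) δ ∧
      ∀ a', El U a' (KU U).C → ∀ b', El U b' (KU U).C → Cl (El U) (KU U) a' a δ →
        Cl (El U) (KU U) b' b δ → ∃ x' c' d', Cl (El U) (KU U) c' c ε ∧ Cl (El U) (KU U) d' d ε ∧
          Val (El U) (cls U (phN p)) x' c' d' ∧ Val (El U) (cls U (phN q)) x' a' b' := by
  refine all_val2 fun z w h => ?_
  refine allPos fun ε hε U => ?_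
  obtain ⟨δ, hδ, h'⟩ := trans_open hp hq h hε
  refine ⟨_, pos_iff.2 (half_pos hδ), ?_⟩
  revert U
  refine allC fun a' => ?_
  refine allC fun b' U h1 h2 => ?_
  obtain ⟨z', g1, g2⟩ := h' (a', b') (by
    linarith [norm_of_cl (z := (a', b')) (cl_iff.1 h1) (cl_iff.1 h2)])
  exact ⟨_, _, _, cl_iff.2 (cl_of_norm ((norm_fst_le (z' - z)).trans g1)),
    cl_iff.2 (cl_of_norm ((norm_snd_le (z' - z)).trans g1)), val_ph U p z',
    g2 ▸ val_ph U q (a', b')⟩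

theorem open_trans {p q : Cond} {U : UF Cond} (hp : hold U (br p)) (hq : hold U (br q))
    {O : Md U} (hO : Subs (El U) O (cls U (famN p.j)))
    (h : OpenC (El U) (KU U) fun a b => ∃ x, El U x O ∧ Val (El U) (cls U (phN p)) x a b) :
    OpenC (El U) (KU U) fun a b => ∃ x, El U x O ∧ Val (El U) (cls U (phN q)) x a b := by
  obtain ⟨r, h1, h2⟩ := compat hp hq
  rintro a b ⟨x, hx, hv⟩
  obtain ⟨c, d, hv'⟩ := dom_val p U x (hO x hx)
  obtain ⟨ε, hε, h3⟩ := h c d ⟨x, hx, hv'⟩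
  obtain ⟨δ, hδ, h4⟩ := near_val h1 h2 U x c d a b hv' hv ε hε
  refine ⟨δ, hδ, fun a' ha' b' hb' g1 g2 => ?_⟩
  obtain ⟨x', c', d', k1, k2, k3, k4⟩ := h4 a' ha' b' hb' g1 g2
  obtain ⟨f1, f2, f3⟩ := val_facts p U _ _ _ k3
  obtain ⟨x'', k5, k6⟩ := h3 c' f1 d' f2 k1 k2
  exact ⟨x', f3 x'' k6 ▸ k5, k4⟩

theorem hol_ph {p q r : Cond} (hp : r ≤ p) (hq : r ≤ q) (U : UF Cond) :
    Hol (El U) (KU U) (cls U (phN p)) (cls U (phN q)) := by
  revert U
  unfold Hol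
  refine all_val2 fun z₀ w₀ h U => ?_
  obtain ⟨B, hB⟩ := trans_hol hp hq h
  refine ⟨_, elC U (B (1, 0)).1, _, elC U (B (0, 1)).1, _, elC U (B (1, 0)).2, _,
    elC U (B (0, 1)).2, ?_⟩
  revert U
  refine allPos fun ε hε U => ?_
  obtain ⟨δ, hδ, h'⟩ := hB (ε / 2) (half_pos hε)
  refine ⟨_, pos_iff.2 (half_pos hδ), ?_⟩
  revert U
  refine allPos fun t ht U h1 s h2 => ?_
  obtain rfl := op_uniq h2
  have h3 := lt_iff.1 h1
  clear h1 h2
  rw [← Complex.ofReal_mul]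
  revert U
  refine all_val2 fun z w e U g1 g2 => ?_
  have k1 := norm_of_cl (cl_iff.1 g1) (cl_iff.1 g2)
  have k2 : ‖w - w₀ - B (z - z₀)‖ ≤ ε * t := (h' z w e (by linarith)).trans (by nlinarith)
  have k3 : B (z - z₀) = (z.1 - z₀.1) • B (1, 0) + (z.2 - z₀.2) • B (0, 1) := by
    rw [← map_smul, ← map_smul, ← map_add]
    congr 1
    ext <;> simp
  rw [k3] at k2
  refine ⟨lin_of (cl_of_norm (le_trans (le_of_eq ?_) ((norm_fst_le _).trans k2))),
    lin_of (cl_of_norm (le_trans (le_of_eq ?_) ((norm_snd_le _).trans k2)))⟩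
  all_goals
    congr 1
    simp
    ring

theorem min_pos : ∀ (U : UF Cond) ε, Cc.Pos (El U) (KU U) ε → ∀ ε', Cc.Pos (El U) (KU U) ε' →
    ∃ δ, Cc.Pos (El U) (KU U) δ ∧ ∀ u, El U u (KU U).C → ∀ v, El U v (KU U).C →
      Cl (El U) (KU U) u v δ → Cl (El U) (KU U) u v ε ∧ Cl (El U) (KU U) u v ε' := by
  refine allPos fun ε hε => ?_
  refine allPos fun ε' hε' U => ⟨_, pos_iff.2 (lt_min hε hε'), ?_⟩
  revert U
  refine allC fun u => ?_
  refine allC fun v U h => ?_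
  obtain ⟨h1, h2⟩ := cl_iff.1 h
  exact ⟨cl_iff.2 ⟨h1.trans (min_le_left _ _), h2.trans (min_le_left _ _)⟩,
    cl_iff.2 ⟨h1.trans (min_le_right _ _), h2.trans (min_le_right _ _)⟩⟩

theorem dense2 {p q : Cond} (P : UF Cond → Prop) [Tr P] (h : ∀ r, r ≤ p → r ≤ q → Fo r P)
    {U : UF Cond} (hp : hold U (br p)) (hq : hold U (br q)) : P U := by
  by_contra hc
  obtain ⟨s, hs, hf⟩ := dec (fun U => hold U (br q) ∧ ¬ P U) hp ⟨hq, hc⟩
  obtain ⟨U', hU'⟩ := exists_uf_br s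
  obtain ⟨r, h1, h2⟩ := compat hU' (hf U' hU').1
  obtain ⟨U'', hU''⟩ := exists_uf_br r
  exact (hf U'' (br_mono h1 hU'')).2 (h r (h1.trans hs) h2 U'' hU'')

theorem exists_top : ∃ τ : Nm Cond, ∀ U O, El U O (cls U τ) ↔ Subs (El U) O (cls U XN) ∧
    ∀ φ, El U φ (cls U AtN) →
      OpenC (El U) (KU U) fun a b => ∃ x, El U x O ∧ Val (El U) φ x a b := by
  obtain ⟨π, hπ⟩ := md_power XN
  obtain ⟨τ, hτ⟩ := md_sep (fun U O => Subs (El U) O (cls U XN) ∧ ∀ φ, El U φ (cls U AtN) →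
    OpenC (El U) (KU U) fun a b => ∃ x, El U x O ∧ Val (El U) φ x a b) π
  exact ⟨τ, fun U O => (hτ U O).trans ⟨fun h => h.2, fun h => ⟨hπ U O h.1, h⟩⟩⟩

section

variable {τ : Nm Cond} (hτ : ∀ U O, El U O (cls U τ) ↔ Subs (El U) O (cls U XN) ∧
    ∀ φ, El U φ (cls U AtN) → OpenC (El U) (KU U) fun a b => ∃ x, El U x O ∧ Val (El U) φ x a b)

include hτ

theorem top_iff {p : Cond} {U : UF Cond} (hp : hold U (br p)) {O : Md U}
    (hO : Subs (El U) O (cls U (famN p.j))) : El U O (cls U τ) ↔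
      OpenC (El U) (KU U) fun a b => ∃ x, El U x O ∧ Val (El U) (cls U (phN p)) x a b := by
  rw [hτ]
  refine ⟨fun h => h.2 _ (el_At hp), fun h => ⟨fun x hx => dom_sub p U x (hO x hx) hp, ?_⟩⟩
  obtain ⟨O, rfl⟩ := mk_surj O
  intro φ hφ
  exact allAt (P := fun U φ => hold U (br p) → Subs (El U) (cls U O) (cls U (famN p.j)) →
    (OpenC (El U) (KU U) fun a b => ∃ x, El U x (cls U O) ∧ Val (El U) (cls U (phN p)) x a b) →
    OpenC (El U) (KU U) fun a b => ∃ x, El U x (cls U O) ∧ Val (El U) φ x a b)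
    (fun q U hq hp hO h => open_trans hp hq hO h) U φ hφ hp hO h

theorem open_mem {p : Cond} {U : UF Cond} (hp : hold U (br p)) {V : Set (ℂ × ℂ)}
    (hV : IsOpen V) : El U (cls U (famN fun v : V => p.j v)) (cls U τ) := by
  have h0 : ∀ (U : UF Cond) x, El U x (cls U (famN fun v : V => p.j v)) →
      El U x (cls U (famN p.j)) := all_fam fun v U => el_fam U p.j v
  rw [top_iff hτ hp (h0 U)]
  rintro a b ⟨x, hx, hv⟩
  refine all_val (P := fun U x a b => El U x (cls U (famN fun v : V => p.j v)) →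
    ∃ ε, Cc.Pos (El U) (KU U) ε ∧ ∀ a', El U a' (KU U).C → ∀ b', El U b' (KU U).C →
      Cl (El U) (KU U) a' a ε → Cl (El U) (KU U) b' b ε → ∃ x,
        El U x (cls U (famN fun v : V => p.j v)) ∧ Val (El U) (cls U (phN p)) x a' b')
    (fun z U hz => ?_) U x a b hv hx
  obtain ⟨v, hv⟩ := el_fam_iff.1 hz
  obtain rfl : v = z := p.inj hv
  obtain ⟨δ, hδ, h⟩ := Metric.nhds_basis_closedBall.mem_iff.1 (hV.mem_nhds v.2)
  refine ⟨_, pos_iff.2 (half_pos hδ), ?_⟩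
  clear hz
  revert U
  refine allC fun a' => ?_
  refine allC fun b' U h1 h2 => ?_
  have : (a', b') ∈ V := h (by
    rw [Metric.mem_closedBall, dist_eq_norm]
    linarith [norm_of_cl (z := (a', b')) (cl_iff.1 h1) (cl_iff.1 h2)])
  exact ⟨_, el_fam U (fun v : V => p.j v) ⟨_, this⟩, val_ph U p (a', b')⟩

theorem dom_mem {p : Cond} {U : UF Cond} (hp : hold U (br p)) :
    El U (cls U (famN p.j)) (cls U τ) := by
  rw [top_iff hτ hp fun _ h => h]
  obtain h := all_pairs p U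
  refine fun a b _ => ⟨_, pos_iff.2 one_pos, fun a' ha' b' hb' _ _ => h a' ha' b' hb'⟩

theorem chart_ph {p : Cond} {U : UF Cond} (hp : hold U (br p)) :
    Chart (El U) (KU U) (cls U τ) (cls U (phN p)) := by
  refine ⟨fun x y y' h h' => ?_, fun x x' y h h' => ?_, ?_, _, dom_mem hτ hp,
    fun x => ⟨fun h => ?_, fun ⟨y, h⟩ => ?_⟩, fun O hO => top_iff hτ hp hO⟩
  · refine all_app (P := fun U x y => ∀ y', App (El U) (cls U (phN p)) x y' → y = y')
      (fun z U y' h' => ?_) U x y h y' h'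
    refine all_app (P := fun U x y' => cd U (p.j z) = x → cls U (prN (cdN z.1) (cdN z.2)) = y')
      (fun w U e => ?_) U _ y' h' rfl
    rw [p.inj (cd_inj.1 e)]
  · exact all_app (P := fun U x y => ∀ x', App (El U) (cls U (phN p)) x' y → x = x')
      (fun z U x' h' => (val_uniq ⟨_, pair_prN U _ _, h'⟩).symm) U x y h x' h'
  · exact all_app (P := fun U _ y => ∃ a, El U a (KU U).C ∧ ∃ b, El U b (KU U).C ∧ Pair (El U) y a b)
      (fun z U => ⟨_, elC U _, _, elC U _, pair_prN U _ _⟩) U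
  · obtain ⟨a, b, y, -, h'⟩ := dom_val p U x h
    exact ⟨y, h'⟩
  · exact all_app (P := fun U x _ => El U x (cls U (famN p.j))) (fun z U => el_fam U p.j z) U x y h

theorem atlas_At (U : UF Cond) : Atlas (El U) (KU U) (cls U XN) (cls U τ) (cls U AtN) := by
  refine ⟨allAt (fun p U hp => chart_ph hτ hp) U, ?_, ?_⟩
  · revert U
    exact allX fun p z U hp => ⟨_, el_At hp, _, app_ph U p z⟩
  revert U
  refine allAt fun p U hp ψ hψ => ?_
  refine allAt (P := fun U ψ => hold U (br p) → Hol (El U) (KU U) (cls U (phN p)) ψ)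
    (fun q U hq hp => ?_) U ψ hψ hp
  obtain ⟨r, h1, h2⟩ := compat hp hq
  exact hol_ph h1 h2 U

theorem haus_X (U : UF Cond) : Haus (El U) (cls U XN) (cls U τ) := by
  refine ⟨fun O h => ((hτ U O).1 h).1, (hτ U _).2 ⟨fun _ h => h, ?_⟩, fun O hO O' hO' => ?_,
    fun S hS => ?_, ?_⟩
  · revert U
    refine allAt fun p U hp a b _ => ⟨_, pos_iff.2 one_pos, fun a' ha' b' hb' _ _ => ?_⟩
    obtain ⟨x, h1, h2⟩ := all_pairs p U a' ha' b' hb'
    exact ⟨x, dom_sub p U x h1 hp, h2⟩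
  · obtain ⟨O, rfl⟩ := mk_surj O
    obtain ⟨O', rfl⟩ := mk_surj O'
    obtain ⟨W, hW⟩ := md_sep (fun U z => El U z (cls U O')) O
    obtain ⟨h1, h2⟩ := (hτ U _).1 hO
    obtain ⟨-, h3⟩ := (hτ U _).1 hO'
    refine ⟨_, (hτ U _).2 ⟨fun x hx => h1 x ((hW U x).1 hx).1, fun φ hφ => ?_⟩, hW U⟩
    rintro a b ⟨x, hx, hv⟩
    obtain ⟨ε, hε, g1⟩ := h2 φ hφ a b ⟨x, ((hW U x).1 hx).1, hv⟩
    obtain ⟨ε', hε', g2⟩ := h3 φ hφ a b ⟨x, ((hW U x).1 hx).2, hv⟩
    obtain ⟨δ, hδ, g3⟩ := min_pos U ε hε ε' hε'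
    obtain ⟨ha, hb, -⟩ := at_facts U φ hφ x a b hv
    refine ⟨δ, hδ, fun a' ha' b' hb' k1 k2 => ?_⟩
    obtain ⟨y, y1, y2⟩ := g1 a' ha' b' hb' (g3 a' ha' a ha k1).1 (g3 b' hb' b hb k2).1
    obtain ⟨y', y3, y4⟩ := g2 a' ha' b' hb' (g3 a' ha' a ha k1).2 (g3 b' hb' b hb k2).2
    obtain rfl := (at_facts U φ hφ y a' b' y2).2.2 y' y4
    exact ⟨y', (hW U y').2 ⟨y1, y3⟩, y2⟩
  · obtain ⟨S, rfl⟩ := mk_surj S
    obtain ⟨W, hW⟩ := md_sep (fun U z => ∃ O, El U O (cls U S) ∧ El U z O) XN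
    refine ⟨cls U W, (hτ U _).2 ⟨fun x hx => ((hW U x).1 hx).1, fun φ hφ => ?_⟩,
      fun x => (hW U x).trans ⟨fun h => h.2, fun ⟨O, h1, h2⟩ =>
        ⟨((hτ U O).1 (hS O h1)).1 x h2, O, h1, h2⟩⟩⟩
    rintro a b ⟨x, hx, hv⟩
    obtain ⟨O, h1, h2⟩ := ((hW U x).1 hx).2
    obtain ⟨h3, h4⟩ := (hτ U O).1 (hS O h1)
    obtain ⟨ε, hε, g⟩ := h4 φ hφ a b ⟨x, h2, hv⟩
    refine ⟨ε, hε, fun a' ha' b' hb' k1 k2 => ?_⟩
    obtain ⟨y, y1, y2⟩ := g a' ha' b' hb' k1 k2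
    exact ⟨y, (hW U y).2 ⟨h3 y y1, O, h1, y1⟩, y2⟩
  · revert U
    refine allX fun p z U hp y hy => ?_
    refine allX (P := fun U y => hold U (br p) → cd U (p.j z) ≠ y → ∃ O O', El U O (cls U τ) ∧
      El U O' (cls U τ) ∧ El U (cd U (p.j z)) O ∧ El U y O' ∧ ∀ z, El U z O → ¬ El U z O')
      (fun q w U hq hp hne => ?_) U y hy hp
    have hne' : p.j z ≠ q.j w := fun e => hne (cd_inj.2 e)
    refine dense2 (fun U => ∃ O O', El U O (cls U τ) ∧ El U O' (cls U τ) ∧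
      El U (cd U (p.j z)) O ∧ El U (cd U (q.j w)) O' ∧ ∀ z, El U z O → ¬ El U z O') ?_ hp hq
    rintro r ⟨F, -, e1⟩ ⟨G, -, e2⟩ U hr
    rw [e1, e2] at hne' ⊢
    obtain ⟨V, V', h1, h2, h3, h4, h5⟩ := t2_separation (fun e : F z = G w => hne' (congrArg _ e))
    refine ⟨_, _, open_mem hτ hr h1, open_mem hτ hr h2, el_fam U (fun v : V => r.j v) ⟨_, h3⟩,
      el_fam U (fun v : V' => r.j v) ⟨_, h4⟩, ?_⟩
    clear hr
    revert U
    refine all_fam fun v U h => ?_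
    obtain ⟨v', hv'⟩ := el_fam_iff.1 h
    exact h5.ne_of_mem v.2 v'.2 (r.inj hv').symm

theorem cc_X (U : UF Cond) (S : Md U) (h1 : Cover (El U) (cls U XN) (cls U τ) S)
    (h2 : Ctbl (El U) (om U) S) : FinSub (El U) (om U) (cls U XN) S := by
  obtain ⟨g, h2, h3⟩ := h2
  obtain ⟨S, rfl⟩ := mk_surj S
  obtain ⟨g, rfl⟩ := mk_surj g
  by_contra h4
  refine by_force (fun U => Cover (El U) (cls U XN) (cls U τ) (cls U S) ∧ Fn (El U) (cls U g) ∧
    (∀ O, El U O (cls U S) → ∃ n, El U n (om U) ∧ App (El U) (cls U g) n O) ∧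
    ¬ FinSub (El U) (om U) (cls U XN) (cls U S)) (fun p hp => ?_) U ⟨h1, h2, h3, h4⟩
  clear h1 h2 h3 h4 U
  let Bad : ℕ → (U : UF Cond) → Md U → Prop := fun N U x => ¬ ∃ n, El U n (num U N) ∧
    ∃ O, El U O (cls U S) ∧ App (El U) (cls U g) n O ∧ El U x O
  have hBad : ∀ N σ, Tr fun U => Bad N U (cls U σ) := fun N σ => by unfold Bad; infer_instance
  obtain ⟨r, hr, hD⟩ := sigma_dec (fun N q => ∃ z, Fo q fun U => Bad N U (cd U (q.j z))) p
    (by
      rintro N q r hrq ⟨z, hz⟩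
      have h := hz.mono hrq
      obtain ⟨F, -, e⟩ := hrq
      rw [e] at h
      exact ⟨F z, h⟩)
    (fun N q hq => by
      obtain ⟨⟨p', z⟩, q', hq', h⟩ := mem_dec (p := q) (Bad N)
        (A := fun x : Cond × (ℂ × ℂ) => cdN (x.1.j x.2)) (v := fun x => br x.1) fun U hU => by
          obtain ⟨-, g2, -, g4⟩ := hp U (br_mono hq hU)
          by_contra hc
          exact g4 ⟨_, num_el_om U N, _, g2, fun x hx => by_contra fun h => hc ⟨x, hx, h⟩⟩
      obtain ⟨U, hU⟩ := exists_uf_br q'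
      obtain ⟨r, k1, F, -, e⟩ := compat hU (h U hU).1
      refine ⟨r, k1.trans hq', F z, fun U hU => ?_⟩
      have := (h U (br_mono k1 hU)).2
      dsimp only at this e
      rwa [e] at this)
  choose z hz using hD
  obtain ⟨F, hF, w, hw⟩ := exists_good_cluster z
  obtain ⟨s, hs⟩ := r.exists_ext hF
  have hsr : s ≤ r := ⟨F, hF, hs⟩
  obtain ⟨n, s₁, hs₁, k1⟩ := om_dec (p := s) (fun U n => ∃ O, El U O (cls U S) ∧
      App (El U) (cls U g) n O ∧ El U (cd U (s.j w)) O) fun U hU => by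
    obtain ⟨g1, -, g3, -⟩ := hp U (br_mono (hsr.trans hr) hU)
    obtain ⟨O, o1, o2⟩ := g1.2 _ (el_X hU w)
    obtain ⟨n, n1, n2⟩ := g3 O o1
    exact ⟨n, n1, O, o1, n2, o2⟩
  obtain ⟨ε, s₂, hs₂, k2⟩ := fam_dec (p := s₁) (f := fun r : ℝ => (r : ℂ))
    (fun U ε => Cc.Pos (El U) (KU U) ε ∧ ∃ O, El U O (cls U S) ∧
      App (El U) (cls U g) (num U n) O ∧ ∀ a', El U a' (KU U).C → ∀ b', El U b' (KU U).C →
        Cl (El U) (KU U) a' (cd U w.1) ε → Cl (El U) (KU U) b' (cd U w.2) ε →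
          ∃ x, El U x O ∧ Val (El U) (cls U (phN s)) x a' b') fun U hU => by
    obtain ⟨O, o1, o2, o3⟩ := k1 U hU
    have hU' := br_mono hs₁ hU
    obtain ⟨g1, -⟩ := hp U (br_mono (hsr.trans hr) hU')
    obtain ⟨ε, hε, h⟩ := ((hτ U O).1 (g1.1 O o1)).2 _ (el_At hU') _ _ ⟨_, o3, val_ph U s w⟩
    exact ⟨ε, hε.1, hε, O, o1, o2, h⟩
  obtain ⟨U, hU⟩ := exists_uf_br s₂
  obtain ⟨hε, O, o1, o2, o3⟩ := k2 U hU
  obtain ⟨m, hm, hm'⟩ := hw ε (pos_iff.1 hε) n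
  obtain ⟨x, x1, x2⟩ := o3 _ (elC U (F (z m)).1) _ (elC U (F (z m)).2)
    (cl_iff.2 (cl_of_norm ((norm_fst_le (F (z m) - w)).trans hm')))
    (cl_iff.2 (cl_of_norm ((norm_snd_le (F (z m) - w)).trans hm')))
  obtain rfl := val_uniq x2
  have := hz m U (br_mono ((hs₂.trans hs₁).trans hsr) hU)
  rw [hs] at this
  exact this ⟨_, num_el_num.2 hm, O, o1, o2, x1⟩

theorem cover_Dm (U : UF Cond) : Cover (El U) (cls U XN) (cls U τ) (cls U DmN) :=
  ⟨allDm (P := fun U O => El U O (cls U τ)) (fun _ _ hp => dom_mem hτ hp) U,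
    allX (P := fun U x => ∃ O, El U O (cls U DmN) ∧ El U x O)
      (fun p z U hp => ⟨_, el_Dm hp, el_fam U p.j z⟩) U⟩

end

theorem dom_mono {p q : Cond} (h : q ≤ p) : ∀ (U : UF Cond) x, El U x (cls U (famN p.j)) →
    El U x (cls U (famN q.j)) := by
  obtain ⟨F, -, e⟩ := h
  exact all_fam fun z U => el_fam_iff.2 ⟨F z, by rw [e]; rfl⟩

theorem not_finSub (U : UF Cond) : ¬ FinSub (El U) (om U) (cls U XN) (cls U DmN) := by
  refine by_force (fun U => FinSub (El U) (om U) (cls U XN) (cls U DmN)) (fun p hp => ?_) U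
  clear U
  obtain ⟨N, p₁, -, h1⟩ := om_dec _ hp
  obtain ⟨f, h2⟩ := wit_dec _ h1
  obtain ⟨q, hq, hD⟩ := sigma_dec (fun (n : ℕ) q => Fo q fun U => ∀ O, El U O (cls U DmN) →
      App (El U) (cls U f) (num U n) O → Subs (El U) O (cls U (famN q.j))) p₁
    (fun n q r hrq h U hU O o1 o2 x hx => dom_mono hrq U x (h U (br_mono hrq hU) O o1 o2 x hx))
    (fun n q hq => by
      by_cases hc : ∃ U, hold U (br q) ∧ ∃ O, El U O (cls U DmN) ∧ App (El U) (cls U f) (num U n) O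
      · obtain ⟨U, hU, hO⟩ := hc
        obtain ⟨q₁, hq₁, g1⟩ := dec (fun U => ∃ O, El U O (cls U DmN) ∧
          App (El U) (cls U f) (num U n) O) hU hO
        obtain ⟨p', q₂, hq₂, g2⟩ := mem_dec _ g1
        obtain ⟨U', hU'⟩ := exists_uf_br q₂
        obtain ⟨r, k1, k2⟩ := compat hU' (g2 U' hU').1
        refine ⟨r, (k1.trans hq₂).trans hq₁, fun U hU O _ o2 => ?_⟩
        have hf := (h2 U (br_mono (((k1.trans hq₂).trans hq₁).trans hq) hU)).1
        rw [hf _ _ _ o2 (g2 U (br_mono k1 hU)).2]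
        exact dom_mono k2 U
      · exact ⟨q, le_rfl, fun U hU O o1 o2 => (hc ⟨U, hU, O, o1, o2⟩).elim⟩)
  obtain ⟨F, hF, w, hw⟩ := exists_good_not_surj
  obtain ⟨r, hr⟩ := q.exists_ext hF
  have hrq : r ≤ q := ⟨F, hF, hr⟩
  obtain ⟨U, hU⟩ := exists_uf_br r
  obtain ⟨n, n1, O, o1, o2, o3⟩ := (h2 U (br_mono (hrq.trans hq) hU)).2 _ (el_X hU w)
  obtain ⟨k, -, rfl⟩ := el_num.1 n1
  obtain ⟨z, hz⟩ := el_fam_iff.1 (hD k U (br_mono hrq hU) O o1 o2 _ o3)
  rw [hr] at hz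
  exact hw ⟨z, r.inj hz⟩

theorem stoll_md (U : UF Cond) : Stoll (El U) := by
  obtain ⟨τ, hτ⟩ := exists_top
  exact ⟨om U, KU U, _, _, _, omega_om U, isCx_KU U, haus_X hτ U, atlas_At hτ U, cc_X hτ U,
    _, cover_Dm hτ U, not_finSub U⟩

theorem main : ∃ (M : Type 1) (E : M → M → Prop), ZFC E ∧ Stoll E := by
  obtain ⟨U, -⟩ := exists_uf_br (P := Cond)
    ⟨fun z => (0, z), fun _ _ h => congrArg Prod.snd h, by simp⟩
  exact ⟨Md U, El U, zfc_md U, stoll_md U⟩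

end Pool.Agent.Lib.MP_53f9be_gt.Frc
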