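import Pool.Agent.Lib.MP_53f9be_gt.Limit

/-!
The union of a chain of good maps is a Hausdorff connected complex manifold.
-/

open Complex Filter Topology Set Metric
open scoped ContDiff Manifold

namespace Pool.Agent.Lib.MP_53f9be_gt

theorem exists_omega_one : ∃ (I : Type) (_ : LinearOrder I) (_ : WellFoundedLT I),
    Cardinal.mk I = Cardinal.aleph 1 ∧ (∀ β : I, (Iio β).Countable) ∧
      ∀ s : Set I, s.Countable → ∃ β, ∀ α ∈ s, α < β := by
  have h1 : ∀ β : (Cardinal.aleph 1).ord.ToType, (Iio β).Countable := fun β => by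
    rw [← Cardinal.le_aleph0_iff_set_countable, ← Cardinal.lt_aleph_one_iff]
    simpa using Cardinal.mk_Iio_lt β
  refine ⟨(Cardinal.aleph 1).ord.ToType, inferInstance, inferInstance, Cardinal.mk_ord_toType _,
    h1, fun s hs => ?_⟩
  by_contra! h
  have : (univ : Set (Cardinal.aleph 1).ord.ToType).Countable := by
    refine (hs.biUnion fun α _ => (h1 α).insert α).mono fun β _ => ?_
    obtain ⟨α, hα, h⟩ := h β
    exact mem_biUnion hα h.eq_or_lt
  rw [← Cardinal.le_aleph0_iff_set_countable, Cardinal.mk_univ, Cardinal.mk_ord_toType] at this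
  exact absurd Cardinal.aleph0_lt_aleph_one this.not_gt

theorem exists_colimit {I E : Type} [LinearOrder I] [TopologicalSpace E] (F : I → I → E → E)
    (hF : ∀ a b, a ≤ b → IsOpenEmbedding (F a b)) (hid : ∀ a, F a a = id)
    (hcomp : ∀ a b c, a ≤ b → b ≤ c → F a c = F b c ∘ F a b) :
    ∃ (M : Type) (_ : TopologicalSpace M) (ι : I → E → M), (∀ a, IsOpenEmbedding (ι a)) ∧
      (∀ a b, a ≤ b → ∀ z, ι b (F a b z) = ι a z) ∧ ∀ x, ∃ a z, ι a z = x := by
  have key : ∀ {a b c d x y}, a ≤ c → b ≤ c → a ≤ d → b ≤ d → F a c x = F b c y →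
      F a d x = F b d y := by
    intro a b c d x y h1 h2 h3 h4 h
    rcases le_total c d with h5 | h5
    · rw [hcomp a c d h1 h5, hcomp b c d h2 h5]; exact congrArg _ h
    · rw [hcomp a d c h3 h5, hcomp b d c h4 h5] at h; exact (hF d c h5).injective h
  let S : Setoid (I × E) :=
    { r := fun p q => F p.1 (max p.1 q.1) p.2 = F q.1 (max p.1 q.1) q.2
      iseqv :=
        { refl := fun _ => rfl
          symm := fun h => by rw [max_comm]; exact h.symm
          trans := fun {p q r} h1 h2 => by
            refine key (c := max p.1 (max q.1 r.1)) (by simp) (by simp) (by simp) (by simp) ?_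
            exact (key (by simp) (by simp) (by simp) (by simp) h1).trans
              (key (by simp) (by simp) (by simp) (by simp) h2) } }
  let ι : I → E → Quotient S := fun a z => Quotient.mk S (a, z)
  have hι : ∀ a b x y, ι a x = ι b y ↔ F a (max a b) x = F b (max a b) y := fun a b x y =>
    Quotient.eq
  let t : TopologicalSpace (Quotient S) := ⨆ a, TopologicalSpace.coinduced (ι a) inferInstance
  have ht : ∀ U : Set (Quotient S), IsOpen U ↔ ∀ a, IsOpen (ι a ⁻¹' U) := fun U => by
    simp only [t, isOpen_iSup_iff, isOpen_coinduced]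
  refine ⟨Quotient S, t, ι, fun a => ?_, fun a b hab z => ?_, fun x => ?_⟩
  · refine .of_continuous_injective_isOpenMap (continuous_def.2 fun U hU => (ht U).1 hU a)
      (fun x y h => (hF a _ (le_max_left a a)).injective ((hι _ _ _ _).1 h))
      (fun U hU => (ht _).2 fun b => ?_)
    have : ι b ⁻¹' (ι a '' U) = F b (max a b) ⁻¹' (F a (max a b) '' U) := by
      ext z; simp only [mem_preimage, mem_image, hι]
    rw [this]
    exact ((hF a _ (le_max_left _ _)).isOpenMap U hU).preimage (hF b _ (le_max_right _ _)).continuous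
  · rw [hι, max_eq_left hab, hid]; rfl
  · obtain ⟨⟨a, z⟩, rfl⟩ := Quotient.exists_rep x
    exact ⟨a, z, rfl⟩

theorem exists_manifold {I E E' : Type} [LinearOrder I] [Nonempty I] [NormedAddCommGroup E]
    [NormedSpace ℂ E] [FiniteDimensional ℂ E] [Nontrivial E] [NormedAddCommGroup E']
    [NormedSpace ℂ E'] [CompleteSpace E'] (L : E ≃L[ℂ] E') {Y : Set E} (F : I → I → E → E)
    (hF : ∀ a b, a ≤ b → Good Y (F a b)) (hid : ∀ a, F a a = id)
    (hcomp : ∀ a b c, a ≤ b → b ≤ c → F a c = F b c ∘ F a b) :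
    ∃ (M : Type) (_ : TopologicalSpace M) (_ : T2Space M) (_ : ChartedSpace E' M) (ι : I → E → M),
      IsManifold 𝓘(ℂ, E') ⊤ M ∧ ConnectedSpace M ∧ (∀ a, IsOpenEmbedding (ι a)) ∧
      (∀ a b, a ≤ b → ∀ z, ι b (F a b z) = ι a z) ∧ (∀ x, ∃ a z, ι a z = x) ∧
      ∀ x : M, (chartAt E' x).target = univ ∧
        ∃ a, ∀ y ∈ (chartAt E' x).source, ι a (L.symm (chartAt E' x y)) = y := by
  have : CompleteSpace E := FiniteDimensional.complete ℂ E
  obtain ⟨M, t, ι, hι, hιF, hsurj⟩ := exists_colimit F (fun a b hab =>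
    .of_continuous_injective_isOpenMap (hF a b hab).continuous (hF a b hab).injective
      (hF a b hab).isOpenMap) hid hcomp
  have hpair : ∀ x y : M, ∃ a z w, ι a z = x ∧ ι a w = y := by
    intro x y
    obtain ⟨a, z, rfl⟩ := hsurj x
    obtain ⟨b, w, rfl⟩ := hsurj y
    exact ⟨max a b, _, _, hιF _ _ (le_max_left _ _) z, hιF _ _ (le_max_right _ _) w⟩
  have hκ : ∀ a, IsOpenEmbedding (ι a ∘ L.symm) := fun a =>
    (hι a).comp L.symm.toHomeomorph.isOpenEmbedding
  let ch : I → OpenPartialHomeomorph M E' := fun a => ((hκ a).toOpenPartialHomeomorph _).symm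
  choose idx pt hidx using hsurj
  let cs : ChartedSpace E' M :=
    { atlas := range ch
      chartAt := fun x => ch (idx x)
      mem_chart_source := fun x => by
        simp only [ch, OpenPartialHomeomorph.symm_source,
          IsOpenEmbedding.toOpenPartialHomeomorph_target]
        exact ⟨L (pt x), by simpa using hidx x⟩
      chart_mem_atlas := fun x => mem_range_self _ }
  have htr : ∀ a b, a ≤ b → ∀ x, ((ch a).symm ≫ₕ ch b) x = L (F a b (L.symm x)) := by
    intro a b hab x
    have := ((hκ b).toOpenPartialHomeomorph _).left_inv (x := L (F a b (L.symm x))) (by simp)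
    simpa [ch, hιF a b hab] using this
  have hcd : ∀ a b, a ≤ b → ∀ x, ContDiffAt ℂ ⊤ ((ch a).symm ≫ₕ ch b) x := by
    intro a b hab x
    rw [funext (htr a b hab)]
    exact L.contDiff.contDiffAt.comp x
      (((hF a b hab).analyticAt _).contDiffAt.comp x L.symm.contDiff.contDiffAt)
  refine ⟨M, t, ⟨fun x y hxy => ?_⟩, cs, ι, ?_, ?_, hι, hιF, fun x => ⟨_, _, hidx x⟩,
    fun x => ⟨(hκ (idx x)).toOpenPartialHomeomorph_source _, idx x, fun y hy => ?_⟩⟩
  · obtain ⟨a, z, w, rfl, rfl⟩ := hpair x y
    exact separated_by_isOpenEmbedding (hι a) (ne_of_apply_ne _ hxy)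
  · refine isManifold_of_contDiffOn _ _ _ ?_
    rintro _ _ ⟨a, rfl⟩ ⟨b, rfl⟩ x hx
    simp only [modelWithCornersSelf_coe, modelWithCornersSelf_coe_symm, Function.id_comp,
      Function.comp_id, preimage_id_eq, id_eq, range_id, inter_univ] at hx ⊢
    refine ContDiffAt.contDiffWithinAt ?_
    rcases le_total a b with hab | hab
    · exact hcd a b hab x
    · obtain ⟨A, hA⟩ := (hF b a hab).exists_equiv (L.symm (((ch b).symm ≫ₕ ch a).symm x))
      have := ((ch b).symm ≫ₕ ch a).contDiffAt_symm (n := ⊤) (f₀' := (L.symm.trans A).trans L)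
        (a := x) (by simpa [and_comm] using hx) (by
          rw [funext (htr b a hab)]
          exact L.hasFDerivAt.comp _ (hA.hasFDerivAt.comp _ L.symm.hasFDerivAt)) (hcd b a hab _)
      simpa [OpenPartialHomeomorph.trans_symm_eq_symm_trans_symm] using this
  · have : Nonempty M := ⟨ι (Classical.arbitrary I) 0⟩
    have : PreconnectedSpace M := ⟨isPreconnected_of_forall_pair fun x _ y _ => by
      obtain ⟨a, z, w, rfl, rfl⟩ := hpair x y
      exact ⟨range (ι a), subset_univ _, mem_range_self _, mem_range_self _,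
        isPreconnected_range (hι a).continuous⟩⟩
    exact ⟨inferInstance⟩
  · exact ((hκ (idx x)).toOpenPartialHomeomorph _).right_inv hy

end Pool.Agent.Lib.MP_53f9be_gt
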