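import Pool.Agent.Lib.MP_53f9be_gt.Holo

/-!
An entire complex differentiable map on a finite-dimensional complex normed space is analytic.
-/

open Complex Filter Topology Set Metric
open scoped ContDiff Nat

namespace Pool.Agent.Lib.MP_53f9be_gt

variable {E F : Type*} [NormedAddCommGroup E] [NormedSpace ℂ E] [NormedAddCommGroup F]
  [NormedSpace ℂ F] [CompleteSpace F] [FiniteDimensional ℂ E]

theorem contDiff_nat_of_differentiable (n : ℕ) :
    ∀ {f : E → F}, Differentiable ℂ f → ContDiff ℂ n f := by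
  induction n with
  | zero => intro f hf; exact contDiff_zero.2 hf.continuous
  | succ n ih =>
    intro f hf
    rw [Nat.cast_succ, contDiff_succ_iff_fderiv_apply]
    refine ⟨hf, fun h => absurd h (by simp), fun y => ih ?_⟩
    exact differentiableOn_univ.1
      (differentiableOn_fderiv_apply isOpen_univ hf.differentiableOn y)

theorem norm_iteratedFDeriv_le {f : E → F} (hf : Differentiable ℂ f) {c : E} {M δ : ℝ}
    (hδ : 0 < δ) (N : ℕ) (hM : ∀ y ∈ ball c ((N + 1) * δ), ‖f y‖ ≤ M) :
    ∀ k ≤ N, ∀ y ∈ ball c ((N + 1 - k) * δ), ‖iteratedFDeriv ℂ k f y‖ ≤ M * (2 / δ) ^ k := by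
  intro k
  induction k with
  | zero => intro _ y hy; simpa using hM y (by simpa using hy)
  | succ k ih =>
    intro hk y hy
    rw [← norm_fderiv_iteratedFDeriv]
    have hd : Differentiable ℂ (iteratedFDeriv ℂ k f) :=
      (contDiff_nat_of_differentiable (k + 1) hf).differentiable_iteratedFDeriv
        (by exact_mod_cast Nat.lt_succ_self k)
    have := norm_fderiv_le_of_bound (c := y) hδ hd.differentiableOn
      (M := M * (2 / δ) ^ k) (fun z hz => ih (by omega) z (by
        rw [mem_ball] at *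
        have := dist_triangle z y c
        push_cast at hy
        linarith))
    refine this.trans_eq ?_
    rw [pow_succ]; ring

theorem analyticAt_of_differentiable {f : E → F} (hf : Differentiable ℂ f) (c : E) :
    AnalyticAt ℂ f c := by
  haveI : ProperSpace E := FiniteDimensional.proper ℂ E
  obtain ⟨M, hM⟩ : ∃ M, ∀ y ∈ closedBall c 2, ‖f y‖ ≤ M :=
    (isCompact_closedBall c 2).exists_bound_of_continuousOn hf.continuous.continuousOn
  have hM0 : 0 ≤ M := (norm_nonneg _).trans (hM c (mem_closedBall_self (by norm_num)))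
  let p : FormalMultilinearSeries ℂ E F := fun n => (n ! : ℂ)⁻¹ • iteratedFDeriv ℂ n f c
  have hp : ∀ n : ℕ, ‖p n‖ * ((1 / 6 : NNReal) : ℝ) ^ n ≤ M := by
    intro n
    rcases Nat.eq_zero_or_pos n with rfl | hn
    · simpa [p] using hM c (mem_closedBall_self (by norm_num))
    have hn' : (0 : ℝ) < n := by exact_mod_cast hn
    have hn1 : (1 : ℝ) ≤ n := by exact_mod_cast hn
    have h1 := norm_iteratedFDeriv_le hf (c := c) (M := M) (δ := 1 / n) (by positivity) n
      (fun y hy => hM y (ball_subset_closedBall (ball_subset_ball (by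
        rw [add_mul, mul_one_div_cancel hn'.ne', one_mul]
        have : 1 / (n : ℝ) ≤ 1 := by rw [div_le_one hn']; exact hn1
        linarith) hy))) n le_rfl c (mem_ball_self (by simp; positivity))
    have h2 := Real.pow_div_factorial_le_exp (n : ℝ) hn'.le n
    have h3 : Real.exp n ≤ 3 ^ n := by
      rw [← Real.exp_one_pow]
      gcongr
      exact (Real.exp_one_lt_d9.trans (by norm_num)).le
    have hfac : (0 : ℝ) < n ! := by exact_mod_cast n.factorial_pos
    have e1 : ‖p n‖ = (n ! : ℝ)⁻¹ * ‖iteratedFDeriv ℂ n f c‖ := by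
      simp [p, norm_smul]
    rw [e1]
    calc (n ! : ℝ)⁻¹ * ‖iteratedFDeriv ℂ n f c‖ * ((1 / 6 : NNReal) : ℝ) ^ n
        ≤ (n ! : ℝ)⁻¹ * (M * (2 / (1 / n)) ^ n) * ((1 / 6 : NNReal) : ℝ) ^ n := by gcongr
      _ = M * ((n : ℝ) ^ n / n !) * (1 / 3) ^ n := by
          have : (2 / (1 / (n : ℝ))) ^ n * ((1 / 6 : NNReal) : ℝ) ^ n = n ^ n * (1 / 3) ^ n := by
            rw [← mul_pow, ← mul_pow]; congr 1; push_cast; field_simp; norm_num
          calc _ = (n ! : ℝ)⁻¹ * M * ((2 / (1 / (n : ℝ))) ^ n * ((1 / 6 : NNReal) : ℝ) ^ n) := by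
                ring
            _ = _ := by rw [this]; ring
      _ ≤ M * 3 ^ n * (1 / 3) ^ n := by gcongr; exact h2.trans h3
      _ = M := by rw [mul_assoc, ← mul_pow]; simp
  refine ⟨p, ((1 / 6 : NNReal) : ENNReal), p.le_radius_of_bound M hp, by simp, fun {y} _ => ?_⟩
  let L : ℂ →L[ℂ] E := (ContinuousLinearMap.id ℂ ℂ).smulRight y
  have hg : Differentiable ℂ ((fun z => f (c + z)) ∘ L) := by
    refine Differentiable.comp (hf.comp (by fun_prop)) L.differentiable
  have := hasSum_taylorSeries_of_entire hg 0 1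
  convert this using 1
  · funext n
    have hc : ContDiff ℂ n (fun z => f (c + z)) :=
      contDiff_nat_of_differentiable n (hf.comp (by fun_prop))
    rw [iteratedDeriv_eq_iteratedFDeriv, L.iteratedFDeriv_comp_right hc 0 le_rfl,
      iteratedFDeriv_comp_add_left]
    simp [p, L]
  · simp [L]

end Pool.Agent.Lib.MP_53f9be_gt
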