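import Pool.Agent.Lib.MP_898cae_lc.Alg

/-!
Two-valued quotients of the Boolean-valued universe over the regular open algebra of an arbitrary
Baire space (no chain condition): truth values, the maximum principle and the axioms of ZFC.
-/

open TopologicalSpace Set Filter
open Pool.Agent.Lib.MP_e0f6ac_lc Pool.Agent.Lib.MP_898cae_lc

namespace Pool.Agent.Lib.MP_53f9be_gt.Frc

variable {X : Type} [TopologicalSpace X] [BaireSpace X]

theorem le_of_uf {a b : RO X} (h : ∀ U : UF X, hold U a → hold U b) : a ≤ b := by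
  have h1 : {x | x ∈ a.set → x ∈ b.set} ∈ residual X := by
    rw [res_iff]
    intro U
    by_cases ha : hold U a
    · filter_upwards [h U ha] with x hx _ using hx
    · have : a.setᶜ ∈ U.1 := Ultrafilter.compl_mem_iff_notMem.2 ha
      filter_upwards [this] with x hx hx' using absurd hx' hx
  refine RO.le_of_subset_closure fun x hx => ?_
  have hd := dense_of_mem_residual h1
  rw [mem_closure_iff]
  intro o ho hxo
  obtain ⟨y, hy, hy'⟩ := hd.inter_open_nonempty (o ∩ a.set) (ho.inter a.isOpen) ⟨x, hxo, hx⟩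
  exact ⟨y, hy.1, hy' hy.2⟩

theorem exists_uf {a : RO X} (h : a ≠ ⊥) : ∃ U : UF X, hold U a := by
  by_contra hc
  push Not at hc
  exact h (le_bot_iff.1 (le_of_uf fun U hU => absurd hU (hc U)))

omit [BaireSpace X] in
theorem mix_le {ι : Type} (a : ι → RO X) (ha : Pairwise fun m n => Disjoint (a m) (a n))
    (x : ι → Nm X) : ∃ τ : Nm X, ∀ n, a n ≤ Name.eqv (x n) τ := by
  refine ⟨Name.mk (Σ n, dom (x n)) (fun p => fn (x p.1) p.2) (fun p => a p.1 ⊓ vl (x p.1) p.2),
    fun n => ?_⟩
  refine le_trans ?_ (Name.eqv_ext _ _)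
  refine le_inf (le_iInf fun z => impI fun b hb hz => ?_) (le_iInf fun z => impI fun b hb hz => ?_)
  · rw [← mk_eta (x n), Name.mem_mk] at hz
    rw [Name.mem_mk]
    exact exE hz fun i b1 hb1 hi =>
      exI (⟨n, i⟩ : Σ n, dom (x n)) (le_inf (le_inf (hb1.trans hb) (l1 hi)) (l2 hi))
  · rw [Name.mem_mk] at hz
    refine exE hz fun p b1 hb1 hp => ?_
    obtain ⟨m, i⟩ := p
    by_cases hmn : m = n
    · subst hmn
      conv_rhs => rw [← mk_eta (x m), Name.mem_mk]
      exact exI i (le_inf (l2 (l1 hp)) (l2 hp))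
    · have : b1 ≤ ⊥ := (le_inf (l1 (l1 hp)) (hb1.trans hb)).trans (ha hmn).le_bot
      exact this.trans bot_le

omit [BaireSpace X] in
theorem max_principle (φ : Nm X → RO X) (hφ : ∀ x y, Name.eqv x y ⊓ φ x ≤ φ y) :
    ∃ τ, ∀ σ, φ σ ≤ φ τ := by
  classical
  let S : Type := {b : RO X // b ∈ range φ}
  choose s hs using fun b : S => b.2
  let r : S → S → Prop := WellOrderingRel
  have hwf : WellFounded r := (WellOrderingRel.isWellOrder (α := S)).wf
  let a : S → RO X := fun b => b.1 ⊓ (⨆ c : {c // r c b}, c.1.1)ᶜ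
  have hd : ∀ b c : S, r c b → Disjoint (a b) (a c) := by
    intro b c h
    refine Disjoint.mono inf_le_right (inf_le_left.trans ?_) disjoint_compl_left
    exact le_iSup (fun c : {c // r c b} => c.1.1) ⟨c, h⟩
  obtain ⟨τ, hτ⟩ := mix_le a (fun b c hbc => by
    rcases trichotomous_of r b c with h | h | h
    · exact (hd c b h).symm
    · exact absurd h hbc
    · exact hd b c h) s
  have key : ∀ b : S, b.1 ≤ φ τ := by
    intro b
    induction b using hwf.induction with
    | _ b ih =>
      have h1 : a b ≤ φ τ := by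
        refine (le_inf (hτ b) ?_).trans (hφ _ _)
        rw [hs b]
        exact inf_le_left
      have h2 : (⨆ c : {c // r c b}, c.1.1) ≤ φ τ := iSup_le fun c => ih c.1 c.2
      calc b.1 ≤ a b ⊔ ⨆ c : {c // r c b}, c.1.1 := by
            simp only [a]
            rw [sup_comm, sup_inf_left, sup_compl_eq_top, inf_top_eq]
            exact le_sup_right
        _ ≤ φ τ := sup_le h1 h2
  exact ⟨τ, fun σ => key ⟨φ σ, σ, rfl⟩⟩

theorem exists_wit (P : (U : UF X) → Md U → Prop) [h : ∀ τ, Tr fun U => P U (cls U τ)] :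
    ∃ τ, ∀ U, (∃ x, P U x) → P U (cls U τ) := by
  choose φ hφ using fun τ => (h τ).ex
  obtain ⟨τ, hτ⟩ := max_principle φ fun x y => le_of_uf fun U hU => by
    rw [hold_inf] at hU
    rw [← hφ, ← mk_eq.2 hU.1, hφ]
    exact hU.2
  refine ⟨τ, fun U ⟨x, hx⟩ => ?_⟩
  obtain ⟨σ, rfl⟩ := mk_surj x
  exact (hφ τ U).2 (hold_mono (hτ σ) ((hφ σ U).1 hx))

instance tr_exists (P : (U : UF X) → Md U → Prop) [h : ∀ τ, Tr fun U => P U (cls U τ)] :
    Tr fun U => ∃ x, P U x := by
  obtain ⟨τ, hτ⟩ := exists_wit P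
  exact Tr.of_iff (Q := fun U => P U (cls U τ)) fun U => ⟨hτ U, fun h => ⟨_, h⟩⟩

instance tr_all (P : (U : UF X) → Md U → Prop) [h : ∀ τ, Tr fun U => P U (cls U τ)] :
    Tr fun U => ∀ x, P U x :=
  Tr.of_iff (Q := fun U => ¬ ∃ x, ¬ P U x) fun U => by simp

/-- To prove a property with truth values for all members of a name, check the listed ones. -/
theorem all_mk {ι : Type} {A : ι → Nm X} {v : ι → RO X} (P : (U : UF X) → Md U → Prop)
    [hP : ∀ τ, Tr fun U => P U (cls U τ)] (h : ∀ i U, hold U (v i) → P U (cls U (A i)))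
    {U : UF X} {y : Md U} (hy : El U y (cls U (Name.mk ι A v))) : P U y := by
  obtain ⟨σ, rfl⟩ := mk_surj y
  obtain ⟨c, hc⟩ := (hP σ).ex
  rw [hc]
  refine hold_mono ?_ hy
  rw [Name.mem_mk]
  refine iSup_le fun i => le_of_uf fun U' hU' => ?_
  rw [hold_inf] at hU'
  rw [← hc, mk_eq.2 hU'.2]
  exact h i U' hU'.1

section Inst

variable (a b c : Nm X)

instance tr_Subs : Tr fun U => Subs (El U) (cls U a) (cls U b) := by
  unfold Subs; infer_instance
instance tr_Emp : Tr fun U => Emp (El U) (cls U a) := by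
  unfold Emp; infer_instance
instance tr_Succ : Tr fun U => Succ (El U) (cls U a) (cls U b) := by
  unfold Succ; infer_instance
instance tr_Ind : Tr fun U => Ind (El U) (cls U a) := by
  unfold Ind; infer_instance
instance tr_Dbl : Tr fun U => Dbl (El U) (cls U a) (cls U b) (cls U c) := by
  unfold Dbl; infer_instance
instance tr_Pair : Tr fun U => Pair (El U) (cls U a) (cls U b) (cls U c) := by
  unfold Pair; infer_instance
instance tr_App : Tr fun U => App (El U) (cls U a) (cls U b) (cls U c) := by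
  unfold App; infer_instance
instance tr_Fn : Tr fun U => Fn (El U) (cls U a) := by
  unfold Fn; infer_instance
end Inst

omit [BaireSpace X] in
theorem cls_update (U : UF X) (v : ℕ → Nm X) (i : ℕ) (τ : Nm X) :
    Function.update (fun j => cls U (v j)) i (cls U τ) =
      fun j => cls U (Function.update v i τ j) := by
  funext j
  by_cases h : j = i
  · subst h; simp
  · simp [Function.update_of_ne h]

theorem tr_Sat (φ : Fml) : ∀ v : ℕ → Nm X, Tr fun U => Sat (El U) φ fun j => cls U (v j) := by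
  induction φ with
  | mem i j => intro v; unfold Sat; infer_instance
  | eq i j => intro v; unfold Sat; infer_instance
  | neg φ ih => intro v; unfold Sat; have := ih v; infer_instance
  | and φ ψ ih ih' => intro v; unfold Sat; have := ih v; have := ih' v; infer_instance
  | ex i φ ih =>
    intro v
    unfold Sat
    have : ∀ τ, Tr fun U => Sat (El U) φ (Function.update (fun j => cls U (v j)) i (cls U τ)) := by
      intro τ
      simp only [cls_update]
      exact ih _
    infer_instance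

theorem md_ext {U : UF X} {a b : Md U} (h : ∀ z, El U z a ↔ El U z b) : a = b := by
  obtain ⟨a, rfl⟩ := mk_surj a
  obtain ⟨b, rfl⟩ := mk_surj b
  obtain ⟨c, hc⟩ := (inferInstance :
    Tr fun U => ∀ z, El U z (cls U a) ↔ El U z (cls U b)).ex
  refine mk_eq.2 (hold_mono ?_ ((hc U).1 h))
  refine le_trans ?_ (Name.eqv_ext _ _)
  refine le_inf (le_iInf fun z => le_himp_iff.2 (le_of_uf fun U' hU' => ?_))
    (le_iInf fun z => le_himp_iff.2 (le_of_uf fun U' hU' => ?_))
  · rw [hold_inf] at hU'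
    exact el_mk.1 (((hc U').2 hU'.1 (cls U' z)).1 hU'.2)
  · rw [hold_inf] at hU'
    exact el_mk.1 (((hc U').2 hU'.1 (cls U' z)).2 hU'.2)

/-- `all_mk` for an arbitrary name. -/
theorem all_nm (a : Nm X) (P : (U : UF X) → Md U → Prop)
    [hP : ∀ τ, Tr fun U => P U (cls U τ)]
    (h : ∀ i U, hold U (vl a i) → P U (cls U (fn a i)))
    {U : UF X} {y : Md U} (hy : El U y (cls U a)) : P U y := by
  rw [← mk_eta a] at hy
  exact all_mk P h hy

omit [BaireSpace X] in
theorem el_nm {U : UF X} (a : Nm X) (i : dom a) (h : hold U (vl a i)) :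
    El U (cls U (fn a i)) (cls U a) := by
  have := el_of_v (U := U) (fn a) (vl a) i h
  rwa [mk_eta] at this

theorem md_found {U : UF X} (a : Md U) (h : ∃ z, El U z a) :
    ∃ y, El U y a ∧ ∀ z, El U z y → ¬ El U z a := by
  obtain ⟨a, rfl⟩ := mk_surj a
  have key : ∀ (τ : Nm X) (U : UF X), El U (cls U τ) (cls U a) →
      ∃ y, El U y (cls U a) ∧ ∀ z, El U z y → ¬ El U z (cls U a) := by
    intro τ
    induction τ with
    | mk ι A v ih =>
      intro U hτ
      by_contra hc
      apply hc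
      refine ⟨_, hτ, fun z hz hza => hc ?_⟩
      exact all_mk (fun U z => El U z (cls U a) →
        ∃ y, El U y (cls U a) ∧ ∀ z, El U z y → ¬ El U z (cls U a))
        (fun i U _ => ih i U) hz hza
  obtain ⟨z, hz⟩ := h
  obtain ⟨τ, rfl⟩ := mk_surj z
  exact key τ U hz

theorem md_sep (P : (U : UF X) → Md U → Prop) [hP : ∀ τ, Tr fun U => P U (cls U τ)]
    (a : Nm X) : ∃ b, ∀ U z, El U z (cls U b) ↔ El U z (cls U a) ∧ P U z := by
  choose c hc using fun τ => (hP τ).ex
  refine ⟨Name.mk (dom a) (fn a) fun i => vl a i ⊓ c (fn a i), fun U z => ⟨fun hz => ?_, ?_⟩⟩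
  · refine all_mk (fun U z => El U z (cls U a) ∧ P U z) (fun i U hi => ?_) hz
    rw [hold_inf] at hi
    exact ⟨el_nm a i hi.1, (hc _ _).2 hi.2⟩
  · rintro ⟨hz, hz'⟩
    refine all_nm a (fun U z => P U z → El U z
      (cls U (Name.mk (dom a) (fn a) fun i => vl a i ⊓ c (fn a i)))) (fun i U hi hp => ?_) hz hz'
    exact el_of_v _ _ i (hold_inf.2 ⟨hi, (hc _ _).1 hp⟩)

theorem md_coll (R : (U : UF X) → Md U → Md U → Prop)
    [hR : ∀ σ τ, Tr fun U => R U (cls U σ) (cls U τ)] (a : Nm X) :
    ∃ b, ∀ U x, El U x (cls U a) → (∃ y, R U x y) → ∃ y, El U y (cls U b) ∧ R U x y := by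
  choose g hg using fun σ => exists_wit fun U y => R U (cls U σ) y
  refine ⟨Name.mk (dom a) (fun i => g (fn a i)) fun _ => ⊤, fun U x hx => ?_⟩
  refine all_nm a (fun U x => (∃ y, R U x y) → ∃ y, El U y
    (cls U (Name.mk (dom a) (fun i => g (fn a i)) fun _ => ⊤)) ∧ R U x y) (fun i U _ h => ?_) hx
  exact ⟨_, el_of_v (fun i => g (fn a i)) _ i (hold_top U), hg _ U h⟩

theorem md_union (a : Nm X) : ∃ u, ∀ U y z, El U y (cls U a) → El U z y → El U z (cls U u) := by
  refine ⟨Name.mk (Σ i, dom (fn a i)) (fun p => fn (fn a p.1) p.2) fun _ => ⊤,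
    fun U y z hy hz => ?_⟩
  refine all_nm a (fun U y => ∀ z, El U z y → El U z (cls U
    (Name.mk (Σ i, dom (fn a i)) (fun p => fn (fn a p.1) p.2) fun _ => ⊤)))
    (fun i U _ z hz => ?_) hy z hz
  refine all_nm (fn a i) (fun U z => El U z (cls U
    (Name.mk (Σ i, dom (fn a i)) (fun p => fn (fn a p.1) p.2) fun _ => ⊤)))
    (fun j U _ => ?_) hz
  exact el_of_v (fun p : Σ i, dom (fn a i) => fn (fn a p.1) p.2) _ ⟨i, j⟩ (hold_top U)

theorem md_power (a : Nm X) : ∃ p, ∀ U z, Subs (El U) z (cls U a) → El U z (cls U p) := by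
  refine ⟨Name.mk (dom a → RO X) (fun v => Name.mk (dom a) (fn a) v) fun _ => ⊤,
    fun U z hz => ?_⟩
  obtain ⟨z, rfl⟩ := mk_surj z
  have h : cls U z = cls U (Name.mk (dom a) (fn a) fun i => Name.mem (fn a i) z) := by
    refine md_ext fun t => ⟨fun ht => ?_, fun ht => ?_⟩
    · refine all_nm a (fun U t => El U t (cls U z) → El U t
        (cls U (Name.mk (dom a) (fn a) fun i => Name.mem (fn a i) z))) (fun i U _ h => ?_)
        (hz t ht) ht
      exact el_of_v _ _ i h
    · exact all_mk (fun U t => El U t (cls U z)) (fun i U h => h) ht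
  rw [h]
  exact el_of_v (fun v => Name.mk (dom a) (fn a) v) _ _ (hold_top U)

theorem md_choice (a : Nm X) : ∃ c, ∀ U, (∀ y, El U y (cls U a) → ∃ z, El U z y) →
    (∀ y y' z, El U y (cls U a) → El U y' (cls U a) → El U z y → El U z y' → y = y') →
      ∀ y, El U y (cls U a) → ∃! z, El U z y ∧ El U z (cls U c) := by
  classical
  choose g hg using fun σ : Nm X => exists_wit fun U y => El U y (cls U σ)
  let r : dom a → dom a → Prop := WellOrderingRel
  have hwf : WellFounded r := (WellOrderingRel.isWellOrder (α := dom a)).wf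
  let val : dom a → RO X := fun i =>
    vl a i ⊓ ⨅ j : {j // r j i}, (vl a j.1 ⊓ Name.eqv (fn a j.1) (fn a i))ᶜ
  let c : Nm X := Name.mk (dom a) (fun i => g (fn a i)) val
  refine ⟨c, fun U hne hdj y hy => ?_⟩
  have hex : ∀ (i : dom a) (U : UF X), hold U (vl a i) → (∃ z, El U z (cls U (fn a i))) →
      ∃ z, El U z (cls U (fn a i)) ∧ El U z (cls U c) := by
    intro i
    obtain ⟨b, hb⟩ := (inferInstance : Tr fun U => (∃ z, El U z (cls U (fn a i))) →
      ∃ z, El U z (cls U (fn a i)) ∧ El U z (cls U c)).ex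
    suffices h : vl a i ≤ b from fun U hU => (hb U).2 (hold_mono h hU)
    by_contra hc
    have h0 : vl a i ⊓ bᶜ ≠ ⊥ := by
      intro h0
      apply hc
      rwa [← disjoint_iff, disjoint_compl_right_iff] at h0
    have hS : {j | vl a i ⊓ bᶜ ⊓ (vl a j ⊓ Name.eqv (fn a j) (fn a i)) ≠ ⊥}.Nonempty := by
      refine ⟨i, ?_⟩
      rw [mem_ofPred_eq, Name.eqv_refl, inf_top_eq, inf_eq_left.2 inf_le_left]
      exact h0
    obtain ⟨j, hj, hmin⟩ := hwf.has_min _ hS
    obtain ⟨U, hU⟩ := exists_uf hj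
    rw [hold_inf, hold_inf, hold_inf, hold_compl, ← hb] at hU
    obtain ⟨⟨_, h2⟩, h3, h4⟩ := hU
    apply h2
    intro hz
    have h5 : cls U (fn a j) = cls U (fn a i) := mk_eq.2 h4
    refine ⟨cls U (g (fn a j)), ?_, el_of_v (fun i => g (fn a i)) val j ?_⟩
    · rw [← h5] at hz ⊢
      exact hg _ U hz
    · have h6 : vl a i ⊓ bᶜ ⊓ (vl a j ⊓ Name.eqv (fn a j) (fn a i)) ≤ val j := by
        refine le_inf (inf_le_right.trans inf_le_left) (le_iInf fun k => ?_)
        rw [le_compl_iff_disjoint_right, disjoint_iff, ← le_bot_iff]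
        have h7 : vl a i ⊓ bᶜ ⊓ (vl a k.1 ⊓ Name.eqv (fn a k.1) (fn a i)) = ⊥ := by
          by_contra h7
          exact hmin k.1 h7 k.2
        rw [← h7]
        refine le_inf (inf_le_left.trans inf_le_left) (le_inf (l1 inf_le_right) ?_)
        exact (le_inf (l2 inf_le_right) (l2 (l2 inf_le_left))).trans (Name.eqv_trans _ _ _)
      refine hold_mono h6 ?_
      rw [hold_inf, hold_inf, hold_inf, hold_compl, ← hb]
      exact ⟨⟨‹_›, h2⟩, h3, h4⟩
  have h1 := all_nm a (fun U y => (∃ z, El U z y) → ∃ z, El U z y ∧ El U z (cls U c))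
    hex hy (hne y hy)
  obtain ⟨z, hz⟩ := h1
  refine ExistsUnique.intro z hz fun z' hz' => ?_
  obtain ⟨y, rfl⟩ := mk_surj y
  have key : ∀ (i j : dom a) (U : UF X), hold U (val i) → hold U (val j) →
      (∀ y, El U y (cls U a) → ∃ z, El U z y) →
      (∀ y y' z, El U y (cls U a) → El U y' (cls U a) → El U z y → El U z y' → y = y') →
      El U (cls U y) (cls U a) → El U (cls U (g (fn a i))) (cls U y) →
      El U (cls U (g (fn a j))) (cls U y) → cls U (g (fn a i)) = cls U (g (fn a j)) := by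
    intro i j U hi hj hne hdj hy h1 h2
    have hi1 := (hold_inf.1 hi).1
    have hj1 := (hold_inf.1 hj).1
    have e1 := hdj _ _ _ (el_nm a i hi1) hy (hg _ U (hne _ (el_nm a i hi1))) h1
    have e2 := hdj _ _ _ (el_nm a j hj1) hy (hg _ U (hne _ (el_nm a j hj1))) h2
    rcases trichotomous_of r i j with h | h | h
    · have := hold_mono (iInf_le _ ⟨i, h⟩) (hold_inf.1 hj).2
      rw [hold_compl, hold_inf] at this
      exact absurd ⟨hi1, mk_eq.1 (e1.trans e2.symm)⟩ this
    · rw [h]
    · have := hold_mono (iInf_le _ ⟨j, h⟩) (hold_inf.1 hi).2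
      rw [hold_compl, hold_inf] at this
      exact absurd ⟨hj1, mk_eq.1 (e2.trans e1.symm)⟩ this
  refine all_mk (fun U z' => ∀ z, El U z (cls U c) →
      (∀ y, El U y (cls U a) → ∃ z, El U z y) →
      (∀ y y' z, El U y (cls U a) → El U y' (cls U a) → El U z y → El U z y' → y = y') →
      El U (cls U y) (cls U a) → El U z' (cls U y) → El U z (cls U y) → z' = z)
    (fun i U hi z hz => ?_) hz'.2 z hz.2 hne hdj hy hz'.1 hz.1
  exact all_mk (fun U z => hold U (val i) →
      (∀ y, El U y (cls U a) → ∃ z, El U z y) →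
      (∀ y y' z, El U y (cls U a) → El U y' (cls U a) → El U z y → El U z y' → y = y') →
      El U (cls U y) (cls U a) → El U (cls U (g (fn a i))) (cls U y) → El U z (cls U y) →
      cls U (g (fn a i)) = z) (fun j U hj hi => key i j U hi hj) hz hi

/-- Adjoining a member to a name. -/
noncomputable def insN (a b : Nm X) : Nm X :=
  Name.mk (Option (dom b)) (fun o => o.elim a (fn b)) fun o => o.elim ⊤ (vl b)

theorem el_insN {U : UF X} (a b : Nm X) (z : Md U) :
    El U z (cls U (insN a b)) ↔ El U z (cls U b) ∨ z = cls U a := by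
  constructor
  · intro hz
    refine all_mk (fun U z => El U z (cls U b) ∨ z = cls U a) (fun o U ho => ?_) hz
    cases o with
    | none => exact Or.inr rfl
    | some i => exact Or.inl (el_nm b i ho)
  · rintro (hz | rfl)
    · refine all_nm b (fun U z => El U z (cls U (insN a b))) (fun i U hi => ?_) hz
      exact el_of_v (fun o : Option (dom b) => o.elim a (fn b)) _ (some i) hi
    · exact el_of_v (fun o : Option (dom b) => o.elim a (fn b)) _ none (hold_top U)

/-- The names of the natural numbers. -/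
noncomputable def numN : ℕ → Nm X
  | 0 => Name.mk Empty Empty.elim Empty.elim
  | k + 1 => insN (numN k) (numN k)

/-- The name of `ω`. -/
noncomputable def omN : Nm X := Name.mk ℕ numN fun _ => ⊤

/-- The natural numbers in the model. -/
noncomputable abbrev num (U : UF X) (k : ℕ) : Md U := cls U (numN k)

/-- The set `ω` in the model. -/
noncomputable abbrev om (U : UF X) : Md U := cls U omN

theorem succ_num (U : UF X) (k : ℕ) : Succ (El U) (num U k) (num U (k + 1)) :=
  fun z => el_insN _ _ z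

omit [BaireSpace X] in
theorem emp_num (U : UF X) : Emp (El U) (num U 0) := by
  intro z hz
  obtain ⟨i, -⟩ := (el_fin _ _ z).1 hz
  exact i.elim

theorem el_num {U : UF X} {k : ℕ} {z : Md U} : El U z (num U k) ↔ ∃ j < k, z = num U j := by
  induction k with
  | zero => simpa using emp_num U z
  | succ k ih =>
    rw [succ_num U k z, ih]
    constructor
    · rintro (⟨j, hj, h⟩ | h)
      · exact ⟨j, Nat.lt_succ_of_lt hj, h⟩
      · exact ⟨k, Nat.lt_succ_self k, h⟩
    · rintro ⟨j, hj, h⟩
      rcases Nat.lt_succ_iff_lt_or_eq.mp hj with h' | h'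
      · exact Or.inl ⟨j, h', h⟩
      · exact Or.inr (h' ▸ h)

theorem num_ne {U : UF X} : ∀ j k : ℕ, j < k → num U j ≠ num U k := by
  intro j
  induction j using Nat.strong_induction_on with
  | _ j ih =>
    intro k hjk h
    have h1 : El U (num U j) (num U k) := el_num.2 ⟨j, hjk, rfl⟩
    rw [← h] at h1
    obtain ⟨i, hi, h2⟩ := el_num.1 h1
    exact ih i hi j hi h2.symm

theorem num_inj {U : UF X} {j k : ℕ} : num U j = num U k ↔ j = k := by
  refine ⟨fun h => ?_, fun h => h ▸ rfl⟩
  rcases lt_trichotomy j k with h' | h' | h'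
  · exact absurd h (num_ne _ _ h')
  · exact h'
  · exact absurd h.symm (num_ne _ _ h')

theorem num_el_num {U : UF X} {j k : ℕ} : El U (num U j) (num U k) ↔ j < k := by
  rw [el_num]
  exact ⟨fun ⟨i, hi, h⟩ => num_inj.1 h ▸ hi, fun h => ⟨j, h, rfl⟩⟩

omit [BaireSpace X] in
theorem num_el_om (U : UF X) (k : ℕ) : El U (num U k) (om U) :=
  el_of_v numN _ k (hold_top U)

theorem all_om (P : (U : UF X) → Md U → Prop) [hP : ∀ τ, Tr fun U => P U (cls U τ)]
    (h : ∀ k U, P U (num U k)) {U : UF X} {y : Md U} (hy : El U y (om U)) : P U y :=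
  all_mk P (fun k U _ => h k U) hy

theorem ind_om (U : UF X) : Ind (El U) (om U) := by
  refine ⟨⟨_, num_el_om U 0, emp_num U⟩, fun a ha => ?_⟩
  exact all_om (fun U a => ∃ b, El U b (om U) ∧ Succ (El U) a b)
    (fun k U => ⟨_, num_el_om U (k + 1), succ_num U k⟩) ha

theorem succ_uniq {U : UF X} {a b c : Md U} (h : Succ (El U) a b) (h' : Succ (El U) a c) :
    b = c := md_ext fun z => (h z).trans (h' z).symm

theorem omega_om (U : UF X) : Omega (El U) (om U) := by
  refine ⟨ind_om U, fun w hw z hz => ?_⟩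
  obtain ⟨w, rfl⟩ := mk_surj w
  refine all_om (fun U z => Ind (El U) (cls U w) → El U z (cls U w)) (fun k U hw => ?_) hz hw
  induction k with
  | zero =>
    obtain ⟨e, he, he'⟩ := hw.1
    have : e = num U 0 := md_ext fun z => ⟨fun h => absurd h (he' z), fun h => absurd h (emp_num U z)⟩
    exact this ▸ he
  | succ k ih =>
    obtain ⟨b, hb, hb'⟩ := hw.2 _ ih
    exact succ_uniq hb' (succ_num U k) ▸ hb

theorem zfc_md (U : UF X) : ZFC (El U) where
  extensionality := fun _ _ h => md_ext h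
  foundation := md_found
  separation := by
    intro φ v a
    choose v' hv' using fun j => mk_surj (v j)
    obtain rfl : v = fun j => cls U (v' j) := funext hv'
    obtain ⟨a, rfl⟩ := mk_surj a
    have : ∀ τ, Tr fun U =>
        Sat (El U) φ (Function.update (fun j => cls U (v' j)) 0 (cls U τ)) := by
      intro τ
      simp only [cls_update]
      exact tr_Sat _ _
    obtain ⟨b, hb⟩ := md_sep
      (fun U z => Sat (El U) φ (Function.update (fun j => cls U (v' j)) 0 z)) a
    exact ⟨_, hb U⟩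
  pairing := by
    intro a b
    obtain ⟨a, rfl⟩ := mk_surj a
    obtain ⟨b, rfl⟩ := mk_surj b
    exact ⟨cls U (insN a (insN b b)), (el_insN _ _ _).2 (Or.inr rfl),
      (el_insN _ _ _).2 (Or.inl ((el_insN _ _ _).2 (Or.inr rfl)))⟩
  union := by
    intro a
    obtain ⟨a, rfl⟩ := mk_surj a
    obtain ⟨u, hu⟩ := md_union a
    exact ⟨_, hu U⟩
  replacement := by
    intro φ v a h
    choose v' hv' using fun j => mk_surj (v j)
    obtain rfl : v = fun j => cls U (v' j) := funext hv'
    obtain ⟨a, rfl⟩ := mk_surj a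
    have : ∀ σ τ, Tr fun U => Sat (El U) φ (Function.update
        (Function.update (fun j => cls U (v' j)) 0 (cls U σ)) 1 (cls U τ)) := by
      intro σ τ
      simp only [cls_update]
      exact tr_Sat _ _
    obtain ⟨b, hb⟩ := md_coll (fun U x y => Sat (El U) φ (Function.update
        (Function.update (fun j => cls U (v' j)) 0 x) 1 y)) a
    exact ⟨_, fun x hx => hb U x hx (h x hx).exists⟩
  infinity := ⟨_, ind_om U⟩
  powerSet := by
    intro a
    obtain ⟨a, rfl⟩ := mk_surj a
    obtain ⟨p, hp⟩ := md_power a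
    exact ⟨_, hp U⟩
  choice := by
    intro a h h'
    obtain ⟨a, rfl⟩ := mk_surj a
    obtain ⟨c, hc⟩ := md_choice a
    exact ⟨_, hc U h h'⟩

/-- The name of a doubleton. -/
noncomputable def dblN (a b : Nm X) : Nm X := Name.mk Bool (fun i => cond i a b) fun _ => ⊤

omit [BaireSpace X] in
theorem dbl_dblN (U : UF X) (a b : Nm X) :
    Dbl (El U) (cls U (dblN a b)) (cls U a) (cls U b) := by
  intro z
  rw [dblN, el_fin]
  simp [hold_top, or_comm]

theorem dbl_uniq {U : UF X} {t t' a b : Md U} (h : Dbl (El U) t a b) (h' : Dbl (El U) t' a b) :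
    t = t' := md_ext fun z => (h z).trans (h' z).symm

omit [BaireSpace X] in
theorem exists_dbl {U : UF X} (a b : Md U) : ∃ t, Dbl (El U) t a b := by
  obtain ⟨a, rfl⟩ := mk_surj a
  obtain ⟨b, rfl⟩ := mk_surj b
  exact ⟨_, dbl_dblN U a b⟩

/-- The name of an ordered pair. -/
noncomputable def prN (a b : Nm X) : Nm X := dblN (dblN a a) (dblN a b)

theorem pair_prN (U : UF X) (a b : Nm X) :
    Pair (El U) (cls U (prN a b)) (cls U a) (cls U b) := by
  intro t
  rw [prN, dbl_dblN U _ _ t]
  refine or_congr ⟨?_, fun h => dbl_uniq h (dbl_dblN _ _ _)⟩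
    ⟨?_, fun h => dbl_uniq h (dbl_dblN _ _ _)⟩
  all_goals
    rintro rfl
    exact dbl_dblN _ _ _

theorem pair_uniq {U : UF X} {z z' a b : Md U} (h : Pair (El U) z a b) (h' : Pair (El U) z' a b) :
    z = z' := md_ext fun t => (h t).trans (h' t).symm

omit [BaireSpace X] in
theorem pair_inj {U : UF X} {z a b a' b' : Md U} (h : Pair (El U) z a b)
    (h' : Pair (El U) z a' b') : a = a' ∧ b = b' := by
  have e1 : a = a' := by
    obtain ⟨t, ht⟩ := exists_dbl a a
    rcases (h' t).1 ((h t).2 (Or.inl ht)) with h1 | h1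
    all_goals
      have := (ht a').1 ((h1 a').2 (Or.inl rfl))
      exact (this.elim id id).symm
  subst e1
  have aux : ∀ {b b' : Md U}, Pair (El U) z a b → Pair (El U) z a b' → b = a ∨ b = b' := by
    intro b b' h h'
    obtain ⟨t, ht⟩ := exists_dbl a b
    rcases (h' t).1 ((h t).2 (Or.inr ht)) with h1 | h1
    · exact Or.inl (((h1 b).1 ((ht b).2 (Or.inr rfl))).elim id id)
    · exact (h1 b).1 ((ht b).2 (Or.inr rfl))
  refine ⟨rfl, ?_⟩
  rcases aux h h' with h1 | h1
  · rcases aux h' h with h2 | h2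
    · exact h1.trans h2.symm
    · exact h2.symm
  · exact h1

end Pool.Agent.Lib.MP_53f9be_gt.Frc
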