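import Pool.Agent.Lib.MP_53f9be_gt.Entire

/-!
Locally uniform limits of holomorphic automorphisms.
-/

open Complex Filter Topology Set Metric
open scoped ContDiff NNReal

namespace Pool.Agent.Lib.MP_53f9be_gt

variable {E : Type*} [NormedAddCommGroup E] [NormedSpace ℂ E]

/-- Holomorphic automorphisms preserving the set `Y`. -/
structure IsAut (Y : Set E) (φ : E ≃ E) : Prop where
  diff : Differentiable ℂ φ
  diff_symm : Differentiable ℂ φ.symm
  mem : ∀ z, φ z ∈ Y ↔ z ∈ Y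

/-- Uniform limits, on bounded sets, of such automorphisms. -/
def Approx (Y : Set E) (F : E → E) : Prop :=
  ∀ R ε : ℝ, 0 < ε → ∃ φ : E ≃ E, IsAut Y φ ∧ ∀ z, ‖z‖ ≤ R → ‖φ z - F z‖ ≤ ε

/-- Limits of automorphisms whose derivative is everywhere injective. -/
structure Good (Y : Set E) (F : E → E) : Prop where
  approx : Approx Y F
  inj : ∀ x, Function.Injective (fderiv ℂ F x)

variable {Y : Set E}

theorem IsAut.refl : IsAut Y (Equiv.refl E) where
  diff := differentiable_id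
  diff_symm := differentiable_id
  mem _ := Iff.rfl

theorem IsAut.trans {φ ψ : E ≃ E} (hφ : IsAut Y φ) (hψ : IsAut Y ψ) : IsAut Y (φ.trans ψ) where
  diff := hψ.diff.comp hφ.diff
  diff_symm := hφ.diff_symm.comp hψ.diff_symm
  mem z := (hψ.mem _).trans (hφ.mem z)

theorem IsAut.symm {φ : E ≃ E} (hφ : IsAut Y φ) : IsAut Y φ.symm where
  diff := hφ.diff_symm
  diff_symm := hφ.diff
  mem z := by rw [← hφ.mem, Equiv.apply_symm_apply]

theorem IsAut.good {φ : E ≃ E} (hφ : IsAut Y φ) : Good Y φ where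
  approx _ _ hε := ⟨φ, hφ, fun z _ => by simpa using hε.le⟩
  inj x := by
    have h := fderiv_comp x (hφ.diff_symm (φ x)) (hφ.diff x)
    rw [Equiv.symm_comp_self, fderiv_id] at h
    intro v w hvw
    have h1 := congrArg (fun A : E →L[ℂ] E => A v) h
    have h2 := congrArg (fun A : E →L[ℂ] E => A w) h
    simp only [ContinuousLinearMap.id_apply, ContinuousLinearMap.comp_apply] at h1 h2
    rw [h1, h2, hvw]

theorem good_id : Good Y (id : E → E) := (IsAut.refl (E := E)).good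

theorem Approx.of_approx {F : E → E}
    (h : ∀ R ε : ℝ, 0 < ε → ∃ G, Approx Y G ∧ ∀ z, ‖z‖ ≤ R → ‖G z - F z‖ ≤ ε) : Approx Y F := by
  intro R ε hε
  obtain ⟨G, hG, h1⟩ := h R (ε / 2) (by positivity)
  obtain ⟨φ, hφ, h2⟩ := hG R (ε / 2) (by positivity)
  refine ⟨φ, hφ, fun z hz => ?_⟩
  calc ‖φ z - F z‖ = ‖(φ z - G z) + (G z - F z)‖ := by simp
    _ ≤ _ := norm_add_le _ _
    _ ≤ ε := by linarith [h1 z hz, h2 z hz]

theorem norm_fderiv_sub_le {f g : E → E} (hf : Differentiable ℂ f) (hg : Differentiable ℂ g)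
    {R ε : ℝ} (h : ∀ z, ‖z‖ ≤ R + 1 → ‖f z - g z‖ ≤ ε) {x : E} (hx : ‖x‖ ≤ R) :
    ‖fderiv ℂ (f - g) x‖ ≤ 2 * ε := by
  have := norm_fderiv_le_of_bound (c := x) one_pos (hf.sub hg).differentiableOn (M := ε)
    (fun y hy => h y (by
      rw [mem_ball, dist_eq_norm] at hy
      have := norm_le_norm_add_norm_sub' y x
      linarith))
  simpa using this

variable [FiniteDimensional ℂ E]

theorem exists_bound {f : E → E} (hf : Continuous f) (R : ℝ) :
    ∃ M, ∀ z, ‖z‖ ≤ R → ‖f z‖ ≤ M := by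
  have : ProperSpace E := FiniteDimensional.proper ℂ E
  obtain ⟨M, hM⟩ := (isCompact_closedBall (0 : E) R).exists_bound_of_continuousOn hf.continuousOn
  exact ⟨M, fun z hz => hM z (by simpa using hz)⟩

theorem exists_modulus {f : E → E} (hf : Continuous f) (R : ℝ) {ε : ℝ} (hε : 0 < ε) :
    ∃ δ, 0 < δ ∧ δ ≤ 1 ∧ ∀ z w, ‖z‖ ≤ R → ‖w - z‖ ≤ δ → ‖f w - f z‖ ≤ ε := by
  have : ProperSpace E := FiniteDimensional.proper ℂ E
  have := (isCompact_closedBall (0 : E) (R + 1)).uniformContinuousOn_of_continuous hf.continuousOn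
  obtain ⟨δ, hδ, h⟩ := Metric.uniformContinuousOn_iff_le.1 this ε hε
  refine ⟨min δ 1, by positivity, min_le_right _ _, fun z w hz hw => ?_⟩
  rw [← dist_eq_norm]
  refine h w ?_ z ?_ (by rw [dist_eq_norm]; exact hw.trans (min_le_left _ _))
  · have := norm_le_norm_add_norm_sub' w z
    have h2 := hw.trans (min_le_right _ _)
    simp only [mem_closedBall, dist_zero_right]; linarith
  · simp only [mem_closedBall, dist_zero_right]; linarith

theorem Approx.differentiable {F : E → E} (hF : Approx Y F) : Differentiable ℂ F := by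
  have : CompleteSpace E := FiniteDimensional.complete ℂ E
  intro c
  have hb : ∀ y ∈ ball c 1, ‖y‖ ≤ ‖c‖ + 1 := fun y hy => by
    rw [mem_ball, dist_eq_norm] at hy
    have := norm_le_norm_add_norm_sub' y c
    linarith
  obtain ⟨φ, hφ, h1⟩ := hF (‖c‖ + 1) 1 one_pos
  obtain ⟨M, hM⟩ := exists_bound hφ.diff.continuous (‖c‖ + 1)
  refine differentiableAt_of_approx (M := M + 1) one_pos (fun y hy => ?_) (fun ε hε => ?_)
  · have := norm_le_norm_add_norm_sub (φ y) (F y)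
    linarith [h1 y (hb y hy), hM y (hb y hy)]
  · obtain ⟨ψ, hψ, h2⟩ := hF (‖c‖ + 1) ε hε
    exact ⟨ψ, hψ.diff.differentiableOn, fun y hy => h2 y (hb y hy)⟩

theorem Good.differentiable {F : E → E} (hF : Good Y F) : Differentiable ℂ F :=
  hF.approx.differentiable

theorem Good.continuous {F : E → E} (hF : Good Y F) : Continuous F := hF.differentiable.continuous

theorem Good.analyticAt {F : E → E} (hF : Good Y F) (x : E) : AnalyticAt ℂ F x := by
  have : CompleteSpace E := FiniteDimensional.complete ℂ E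
  exact analyticAt_of_differentiable hF.differentiable x

theorem Good.exists_equiv {F : E → E} (hF : Good Y F) (x : E) :
    ∃ A : E ≃L[ℂ] E, HasStrictFDerivAt F (A : E →L[ℂ] E) x := by
  have : CompleteSpace E := FiniteDimensional.complete ℂ E
  refine ⟨(LinearEquiv.ofInjectiveEndo (fderiv ℂ F x : E →ₗ[ℂ] E)
    (hF.inj x)).toContinuousLinearEquiv, ?_⟩
  convert (hF.analyticAt x).hasStrictFDerivAt using 1
  ext v; rfl

theorem Good.stable {F : E → E} (hF : Good Y F) (R : ℝ) :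
    ∃ δ, 0 < δ ∧ ∀ G : E → E, Differentiable ℂ G → (∀ z, ‖z‖ ≤ R + 1 → ‖G z - F z‖ ≤ δ) →
      ∀ x, ‖x‖ ≤ R → Function.Injective (fderiv ℂ G x) := by
  have : ProperSpace E := FiniteDimensional.proper ℂ E
  have : CompleteSpace E := FiniteDimensional.complete ℂ E
  have hc : Continuous (fderiv ℂ F) :=
    (contDiff_nat_of_differentiable 1 hF.differentiable).continuous_fderiv (by simp)
  obtain ⟨m, hm, h⟩ := ((isCompact_closedBall (0 : E) R).prod
    (isCompact_sphere (0 : E) 1)).exists_forall_le' (f := fun p => ‖fderiv ℂ F p.1 p.2‖) (a := 0)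
    (Continuous.continuousOn (by fun_prop)) (by
      rintro ⟨x, v⟩ ⟨-, hv⟩
      refine norm_pos_iff.2 fun h0 => ?_
      have : v = 0 := hF.inj x (h0.trans (map_zero _).symm)
      simp [this] at hv)
  refine ⟨m / 4, by positivity, fun G hG hc x hx => ?_⟩
  rw [injective_iff_map_eq_zero]
  intro v hv
  by_contra hne
  have hv0 : 0 < ‖v‖ := norm_pos_iff.2 hne
  have h1 := norm_fderiv_sub_le hG hF.differentiable hc hx
  have h2 := h (x, ((‖v‖⁻¹ : ℝ) : ℂ) • v) ⟨by simpa using hx, by simp [norm_smul, hv0.ne']⟩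
  have h3 := (fderiv ℂ (G - F) x).le_opNorm v
  rw [fderiv_sub (hG x) (hF.differentiable x)] at h1 h3
  simp only [_root_.sub_apply, hv, zero_sub, norm_neg] at h3
  simp only [map_smul, norm_smul, Complex.norm_real, norm_inv, norm_norm] at h2
  rw [inv_mul_eq_div, le_div_iff₀ hv0] at h2
  nlinarith

theorem Good.isOpenMap {F : E → E} (hF : Good Y F) : IsOpenMap F := by
  have : CompleteSpace E := FiniteDimensional.complete ℂ E
  choose A hA using hF.exists_equiv
  exact isOpenMap_of_hasStrictFDerivAt_equiv hA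

theorem Good.comp {F G : E → E} (hG : Good Y G) (hF : Good Y F) : Good Y (G ∘ F) := by
  refine ⟨fun R ε hε => ?_, fun x => ?_⟩
  swap
  · rw [fderiv_comp x (hG.differentiable _) (hF.differentiable _)]
    exact (hG.inj _).comp (hF.inj _)
  obtain ⟨M, hM⟩ := exists_bound hF.continuous R
  obtain ⟨δ, hδ, hδ1, h⟩ := exists_modulus hG.continuous M (half_pos hε)
  obtain ⟨φ, hφ, h1⟩ := hF.approx R δ hδ
  obtain ⟨ψ, hψ, h2⟩ := hG.approx (M + 1) (ε / 2) (half_pos hε)
  refine ⟨φ.trans ψ, hφ.trans hψ, fun z hz => ?_⟩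
  have a1 := h (F z) (φ z) (hM z hz) (h1 z hz)
  have a2 := h2 (φ z) (by
    have := norm_le_norm_add_norm_sub' (φ z) (F z)
    linarith [hM z hz, h1 z hz])
  calc ‖(φ.trans ψ) z - (G ∘ F) z‖ = ‖(ψ (φ z) - G (φ z)) + (G (φ z) - G (F z))‖ := by simp
    _ ≤ _ := norm_add_le _ _
    _ ≤ ε := by linarith

variable [Nontrivial E]

/-- Maps close to `F` cover a fixed neighbourhood of `F a` from a small ball around `a`. -/
theorem Good.local_surj {F : E → E} (hF : Good Y F) (a : E) {ρ : ℝ} (hρ : 0 < ρ) :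
    ∃ η, 0 < η ∧ ∀ φ : E → E, Differentiable ℂ φ →
      (∀ z, ‖z‖ ≤ ‖a‖ + 2 → ‖φ z - F z‖ ≤ η) →
      ∀ y, ‖y - F a‖ ≤ η → ∃ x, ‖x - a‖ ≤ ρ ∧ φ x = y := by
  have : CompleteSpace E := FiniteDimensional.complete ℂ E
  obtain ⟨A, hA⟩ := hF.exists_equiv a
  set N : ℝ≥0 := A.toNonlinearRightInverse.nnnorm with hN
  have hNpos : 0 < N := A.nnnorm_symm_pos
  have hNr : (0 : ℝ) < N := hNpos
  obtain ⟨s, hs, happ⟩ := hA.approximates_deriv_on_nhds (c := N⁻¹ / 4) (Or.inr (by positivity))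
  obtain ⟨r, hr, hrs⟩ := Metric.nhds_basis_closedBall.mem_iff.1 hs
  set ρ' := min (min ρ r) 1 with hρ'
  have hρ'0 : 0 < ρ' := by positivity
  have hρ'1 : ρ' ≤ 1 := min_le_right _ _
  have hρ'ρ : ρ' ≤ ρ := (min_le_left _ _).trans (min_le_left _ _)
  have hρ'r : ρ' ≤ r := (min_le_left _ _).trans (min_le_right _ _)
  refine ⟨(N : ℝ)⁻¹ * ρ' / 8, by positivity, fun φ hφ hclose y hy => ?_⟩
  have hlip : LipschitzOnWith (N⁻¹ / 4) (φ - F) (closedBall a ρ') := by
    refine (convex_closedBall a ρ').lipschitzOnWith_of_nnnorm_fderiv_le (𝕜 := ℂ)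
      (fun x _ => (hφ.sub hF.differentiable) x) (fun x hx => ?_)
    rw [← NNReal.coe_le_coe]
    have h1 := norm_fderiv_sub_le hφ hF.differentiable (R := ‖a‖ + 1)
      (fun z hz => hclose z (by linarith)) (x := x) (by
        rw [mem_closedBall, dist_eq_norm] at hx
        have := norm_le_norm_add_norm_sub' x a
        linarith)
    have h2 : (N : ℝ)⁻¹ * ρ' ≤ (N : ℝ)⁻¹ := mul_le_of_le_one_right (by positivity) hρ'1
    push_cast
    linarith
  have happ2 : ApproximatesLinearOn φ (A : E →L[ℂ] E) (closedBall a ρ') (N⁻¹ / 4 + N⁻¹ / 4) := by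
    have h1 := (happ.mono_set ((closedBall_subset_closedBall hρ'r).trans hrs)).lipschitzOnWith
    have h2 := hlip.add h1
    refine LipschitzOnWith.approximatesLinearOn ?_
    have e : φ - ⇑(A : E →L[ℂ] E) = fun x => (φ - F) x + (F - ⇑(A : E →L[ℂ] E)) x := by
      funext x; simp
    rw [e]; exact h2
  have hs := happ2.surjOn_closedBall_of_nonlinearRightInverse A.toNonlinearRightInverse hρ'0.le
    Subset.rfl
  obtain ⟨x, hx, hxy⟩ := @hs y (by
    rw [mem_closedBall, dist_eq_norm, ← hN]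
    have h1 := hclose a (by linarith)
    have h2 : ‖y - φ a‖ ≤ ‖y - F a‖ + ‖φ a - F a‖ := by
      calc ‖y - φ a‖ = ‖(y - F a) - (φ a - F a)‖ := by simp
        _ ≤ _ := norm_sub_le _ _
    have h3 : (0 : ℝ) ≤ (N : ℝ)⁻¹ * ρ' := by positivity
    push_cast
    nlinarith)
  exact ⟨x, by rw [mem_closedBall, dist_eq_norm] at hx; linarith, hxy⟩

theorem Good.injective {F : E → E} (hF : Good Y F) : Function.Injective F := by
  intro a b hab
  by_contra hne
  have hd : 0 < ‖a - b‖ := norm_pos_iff.2 (sub_ne_zero.2 hne)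
  obtain ⟨η₁, h₁, H₁⟩ := hF.local_surj a (ρ := ‖a - b‖ / 3) (by positivity)
  obtain ⟨η₂, h₂, H₂⟩ := hF.local_surj b (ρ := ‖a - b‖ / 3) (by positivity)
  obtain ⟨φ, hφ, h⟩ := hF.approx (‖a‖ + ‖b‖ + 2) (min η₁ η₂) (by positivity)
  obtain ⟨x, hx, hx'⟩ := H₁ φ hφ.diff (fun z hz => (h z (by linarith [norm_nonneg b])).trans
    (min_le_left _ _)) (F a) (by simpa using h₁.le)
  obtain ⟨y, hy, hy'⟩ := H₂ φ hφ.diff (fun z hz => (h z (by linarith [norm_nonneg a])).trans
    (min_le_right _ _)) (F a) (by simpa [hab] using h₂.le)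
  have : x = y := φ.injective (hx'.trans hy'.symm)
  subst this
  have : ‖a - b‖ ≤ ‖x - a‖ + ‖x - b‖ := by
    calc ‖a - b‖ = ‖(x - b) - (x - a)‖ := by congr 1; abel
      _ ≤ _ := by rw [add_comm]; exact norm_sub_le _ _
  linarith

theorem Good.inv_approx {F : E → E} (hF : Good Y F) (R : ℝ) {ε : ℝ} (hε : 0 < ε) :
    ∃ φ : E ≃ E, IsAut Y φ ∧ ∀ z, ‖z‖ ≤ R → ‖φ.symm (F z) - z‖ ≤ ε := by
  have : ProperSpace E := FiniteDimensional.proper ℂ E
  have key : ∃ δ, 0 < δ ∧ ∀ φ : E ≃ E, IsAut Y φ → (∀ z, ‖z‖ ≤ R + 2 → ‖φ z - F z‖ ≤ δ) →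
      ∀ z ∈ closedBall (0 : E) R, ‖φ.symm (F z) - z‖ ≤ ε := by
    refine (isCompact_closedBall (0 : E) R).induction_on
      (p := fun S => ∃ δ, 0 < δ ∧ ∀ φ : E ≃ E, IsAut Y φ → (∀ z, ‖z‖ ≤ R + 2 → ‖φ z - F z‖ ≤ δ) →
        ∀ z ∈ S, ‖φ.symm (F z) - z‖ ≤ ε) ⟨1, one_pos, by simp⟩ ?_ ?_ ?_
    · rintro s t hst ⟨δ, hδ, h⟩
      exact ⟨δ, hδ, fun φ hφ h' z hz => h φ hφ h' z (hst hz)⟩
    · rintro s t ⟨δ, hδ, h⟩ ⟨δ', hδ', h'⟩
      refine ⟨min δ δ', by positivity, fun φ hφ hc z hz => ?_⟩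
      rcases hz with hz | hz
      · exact h φ hφ (fun z hz => (hc z hz).trans (min_le_left _ _)) z hz
      · exact h' φ hφ (fun z hz => (hc z hz).trans (min_le_right _ _)) z hz
    · intro a ha
      obtain ⟨η, hη, H⟩ := hF.local_surj a (half_pos hε)
      have ha' : ‖a‖ ≤ R := by simpa using ha
      refine ⟨{z | ‖z - a‖ < ε / 2 ∧ ‖F z - F a‖ < η}, mem_nhdsWithin_of_mem_nhds ?_,
        η, hη, fun φ hφ hc z hz => ?_⟩
      · have hc := hF.continuous
        have o1 : IsOpen {z | ‖z - a‖ < ε / 2} := isOpen_lt (by fun_prop) continuous_const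
        have o2 : IsOpen {z | ‖F z - F a‖ < η} := isOpen_lt (by fun_prop) continuous_const
        exact (o1.inter o2).mem_nhds ⟨by simpa using hε, by simpa using hη⟩
      · obtain ⟨x, hx, hx'⟩ := H φ hφ.diff (fun z hz => hc z (by linarith)) (F z) hz.2.le
        rw [← hx', Equiv.symm_apply_apply]
        calc ‖x - z‖ = ‖(x - a) - (z - a)‖ := by simp
          _ ≤ _ := norm_sub_le _ _
          _ ≤ ε := by linarith [hz.1]
  obtain ⟨δ, hδ, h⟩ := key
  obtain ⟨φ, hφ, h'⟩ := hF.approx (R + 2) δ hδ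
  exact ⟨φ, hφ, fun z hz => h φ hφ h' z (by simpa using hz)⟩

theorem Good.mem_iff {F : E → E} (hF : Good Y F) (hY : IsClosed Y) (z : E) :
    F z ∈ Y ↔ z ∈ Y := by
  constructor
  · intro h
    rw [← hY.closure_eq, Metric.mem_closure_iff]
    intro ε hε
    obtain ⟨φ, hφ, h'⟩ := hF.inv_approx ‖z‖ (half_pos hε)
    refine ⟨φ.symm (F z), (hφ.symm.mem _).2 h, ?_⟩
    rw [dist_comm, dist_eq_norm]
    linarith [h' z le_rfl]
  · intro h
    rw [← hY.closure_eq, Metric.mem_closure_iff]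
    intro ε hε
    obtain ⟨φ, hφ, h'⟩ := hF.approx ‖z‖ _ (half_pos hε)
    refine ⟨φ z, (hφ.mem _).2 h, ?_⟩
    rw [dist_comm, dist_eq_norm]
    linarith [h' z le_rfl]

end Pool.Agent.Lib.MP_53f9be_gt
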