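import Pool.Agent.Lib.MP_53f9be_gt.Good

/-!
Limits of recursively built sequences of good maps, cocones over countable chains, and chains of
length the first uncountable ordinal.
-/

open Complex Filter Topology Set Metric

namespace Pool.Agent.Lib.MP_53f9be_gt

variable {E : Type*} [NormedAddCommGroup E] [NormedSpace ℂ E] [FiniteDimensional ℂ E] {Y : Set E}

theorem exists_limit {S : Type*} (H : ℕ → S → ℕ → E → E) (r : S → ℝ) (P : ℕ → S → Prop)
    (hG : ∀ m s n, P m s → n ≤ m → Good Y (H m s n)) (hr : ∀ m s, P m s → (m : ℝ) ≤ r s)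
    (step : ∀ m s, P m s → ∀ ε, 0 < ε → ∃ s', P (m + 1) s' ∧ r s ≤ r s' ∧
      ∀ n ≤ m, ∀ z, ‖z‖ ≤ r s → ‖H (m + 1) s' n z - H m s n z‖ ≤ ε)
    (s₀ : S) (h₀ : P 0 s₀) :
    ∃ s : ℕ → S, (∀ m, P m (s m)) ∧ ∃ G : ℕ → E → E, ∀ n, Good Y (G n) ∧
      (∀ z, Tendsto (fun m => H m (s m) n z) atTop (𝓝 (G n z))) ∧
      ∀ m, n ≤ m → ∀ z, ‖z‖ ≤ r (s m) → ‖G n z - H m (s m) n z‖ ≤ 1 := by
  have : CompleteSpace E := FiniteDimensional.complete ℂ E
  let Stab : ℕ → S → ℝ → Prop := fun m s δ => ∀ n ≤ m, ∀ G : E → E, Differentiable ℂ G →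
    (∀ z, ‖z‖ ≤ m → ‖G z - H m s n z‖ ≤ δ) → ∀ x, ‖x‖ ≤ m - 1 → Function.Injective (fderiv ℂ G x)
  have hstab : ∀ m s, P m s → ∃ δ, 0 < δ ∧ ∀ δ' ≤ δ, Stab m s δ' := by
    intro m s hs
    have : ∀ k, ∃ δ, 0 < δ ∧ ∀ n < k, n ≤ m → ∀ G : E → E, Differentiable ℂ G →
        (∀ z, ‖z‖ ≤ m → ‖G z - H m s n z‖ ≤ δ) →
        ∀ x, ‖x‖ ≤ m - 1 → Function.Injective (fderiv ℂ G x) := by
      intro k
      induction k with
      | zero => exact ⟨1, one_pos, by simp⟩
      | succ k ih =>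
        obtain ⟨δ, hδ, h⟩ := ih
        by_cases hk : k ≤ m
        · obtain ⟨δ', hδ', h'⟩ := (hG m s k hs hk).stable (m - 1)
          refine ⟨min δ δ', by positivity, fun n hn hnm G hGd hc => ?_⟩
          rcases Nat.lt_succ_iff_lt_or_eq.1 hn with hn | rfl
          · exact h n hn hnm G hGd (fun z hz => (hc z hz).trans (min_le_left _ _))
          · exact h' G hGd (fun z hz => (hc z (by linarith)).trans (min_le_right _ _))
        · exact ⟨δ, hδ, fun n hn hnm => h n (by omega) hnm⟩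
    obtain ⟨δ, hδ, h⟩ := this (m + 1)
    exact ⟨δ, hδ, fun δ' hδ' n hn G hGd hc =>
      h n (by omega) hn G hGd (fun z hz => (hc z hz).trans hδ')⟩
  let Inv : ℕ → S × ℝ → Prop := fun m p => P m p.1 ∧ 0 < p.2 ∧ Stab m p.1 (2 * p.2) ∧
    p.2 ≤ (1 / 2) ^ (m + 1)
  have key : ∀ m p, Inv m p → ∃ p', Inv (m + 1) p' ∧ p'.2 ≤ p.2 / 2 ∧ r p.1 ≤ r p'.1 ∧
      ∀ n ≤ m, ∀ z, ‖z‖ ≤ r p.1 → ‖H (m + 1) p'.1 n z - H m p.1 n z‖ ≤ p.2 := by
    rintro m ⟨s, ε⟩ ⟨h1, h2, -, h4⟩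
    obtain ⟨s', hs', hr', hc⟩ := step m s h1 ε h2
    obtain ⟨δ, hδ, hst⟩ := hstab _ _ hs'
    refine ⟨(s', min (ε / 2) (δ / 2)), ⟨hs', by positivity, hst _ ?_, ?_⟩, min_le_left _ _, hr', hc⟩
    · have := min_le_right (ε / 2) (δ / 2)
      dsimp only; linarith
    · have := min_le_left (ε / 2) (δ / 2)
      rw [pow_succ]; dsimp only at h4 ⊢; linarith
  obtain ⟨δ₀, hδ₀, hst₀⟩ := hstab _ _ h₀
  have : Nonempty (S × ℝ) := ⟨(s₀, 0)⟩
  choose! f hf using key
  let p : ℕ → S × ℝ := fun m => Nat.rec (s₀, min (1 / 2) (δ₀ / 2)) f m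
  have hp : ∀ m, p (m + 1) = f m (p m) := fun m => rfl
  have hinv : ∀ m, Inv m (p m) := by
    intro m
    induction m with
    | zero =>
      refine ⟨h₀, lt_min (by norm_num) (by positivity), hst₀ _ ?_, ?_⟩
      · have := min_le_right (1 / 2 : ℝ) (δ₀ / 2)
        change 2 * min (1 / 2 : ℝ) (δ₀ / 2) ≤ δ₀; linarith
      · change min (1 / 2 : ℝ) (δ₀ / 2) ≤ _
        simp
    | succ m ih => exact (hf m _ ih).1
  have hmono : Monotone fun m => r (p m).1 :=
    monotone_nat_of_le_succ fun m => (hf m _ (hinv m)).2.2.1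
  have hest : ∀ m n, n ≤ m → ∀ z, ‖z‖ ≤ r (p m).1 → ∀ k, m ≤ k →
      ‖H k (p k).1 n z - H m (p m).1 n z‖ ≤ 2 * (p m).2 - 2 * (p k).2 := by
    intro m n hn z hz k hk
    induction k, hk using Nat.le_induction with
    | base => simp
    | succ k hk ih =>
      obtain ⟨-, a1, -, a2⟩ := hf k _ (hinv k)
      have a3 := a2 n (hn.trans hk) z (hz.trans (hmono hk))
      rw [← hp] at a1 a3
      calc _ = ‖(H (k + 1) (p (k + 1)).1 n z - H k (p k).1 n z) +
            (H k (p k).1 n z - H m (p m).1 n z)‖ := by simp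
        _ ≤ _ := norm_add_le _ _
        _ ≤ _ := by linarith
  have hsmall : ∀ (n : ℕ) (R ε : ℝ), 0 < ε → ∃ m, n ≤ m ∧ R ≤ m ∧ 2 * (p m).2 ≤ ε := by
    intro n R ε hε
    have h1 : ∀ᶠ m : ℕ in atTop, (1 / 2 : ℝ) ^ m ≤ ε :=
      (tendsto_pow_atTop_nhds_zero_of_lt_one (by norm_num) (by norm_num)).eventually_le_const hε
    obtain ⟨m, a1, a2, a3⟩ := ((eventually_ge_atTop n).and
      ((tendsto_natCast_atTop_atTop.eventually_ge_atTop R).and h1)).exists
    refine ⟨m, a1, a2, ?_⟩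
    have := (hinv m).2.2.2
    rw [pow_succ] at this
    linarith
  have hlim : ∀ n z, ∃ w, Tendsto (fun m => H m (p m).1 n z) atTop (𝓝 w) := by
    intro n z
    refine cauchySeq_tendsto_of_complete (Metric.cauchySeq_iff'.2 fun ε hε => ?_)
    obtain ⟨m, a1, a2, a3⟩ := hsmall n ‖z‖ ε hε
    refine ⟨m, fun k hk => ?_⟩
    rw [dist_eq_norm]
    have := hest m n a1 z (a2.trans (hr _ _ (hinv m).1)) k hk
    linarith [(hinv k).2.1]
  choose G hGl using hlim
  have hGe : ∀ n m, n ≤ m → ∀ z, ‖z‖ ≤ r (p m).1 → ‖G n z - H m (p m).1 n z‖ ≤ 2 * (p m).2 := by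
    intro n m hn z hz
    refine le_of_tendsto ((hGl n z).sub_const _).norm ?_
    filter_upwards [eventually_ge_atTop m] with k hk
    linarith [hest m n hn z hz k hk, (hinv k).2.1]
  refine ⟨fun m => (p m).1, fun m => (hinv m).1, G, fun n => ⟨?_, hGl n, fun m hn z hz => ?_⟩⟩
  · have happ : Approx Y (G n) := by
      refine Approx.of_approx fun R ε hε => ?_
      obtain ⟨m, a1, a2, a3⟩ := hsmall n R ε hε
      refine ⟨_, (hG m _ n (hinv m).1 a1).approx, fun z hz => ?_⟩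
      rw [norm_sub_rev]
      exact (hGe n m a1 z (hz.trans (a2.trans (hr _ _ (hinv m).1)))).trans a3
    refine ⟨happ, fun x => ?_⟩
    obtain ⟨m, a1, a2, -⟩ := hsmall n (‖x‖ + 1) 1 one_pos
    exact (hinv m).2.2.1 n a1 _ happ.differentiable
      (fun z hz => hGe n m a1 z (hz.trans (hr _ _ (hinv m).1))) x (by linarith)
  · refine (hGe n m hn z hz).trans ?_
    have h1 := (hinv m).2.2.2
    have h2 : (1 / 2 : ℝ) ^ m ≤ 1 := pow_le_one₀ (by norm_num) (by norm_num)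
    rw [pow_succ] at h1
    linarith

variable [Nontrivial E]

theorem exists_cocone_nat (F : ℕ → ℕ → E → E) (hF : ∀ n m, n ≤ m → Good Y (F n m))
    (hcomp : ∀ n m k, n ≤ m → m ≤ k → F n k = F m k ∘ F n m) :
    ∃ G : ℕ → E → E, (∀ n, Good Y (G n)) ∧ ∀ n m, n ≤ m → G n = G m ∘ F n m := by
  obtain ⟨s, -, G, hG⟩ := exists_limit (Y := Y) (S := (E ≃ E) × ℝ) (fun m s n => s.1 ∘ F n m)
    Prod.snd (fun m s => IsAut Y s.1 ∧ s.2 = m) (fun m s n hs hn => hs.1.good.comp (hF n m hn))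
    (fun m s hs => hs.2.ge) (by
      rintro m ⟨ψ, ρ⟩ ⟨hψ, rfl⟩ ε hε
      have hb : ∀ n, ∃ M, n ≤ m → ∀ z, ‖z‖ ≤ (m : ℝ) → ‖ψ (F n m z)‖ ≤ M := by
        intro n
        by_cases hn : n ≤ m
        · obtain ⟨M, hM⟩ := exists_bound (hψ.good.comp (hF n m hn)).continuous m
          exact ⟨M, fun _ => hM⟩
        · exact ⟨0, fun h => absurd h hn⟩
      choose M hM using hb
      obtain ⟨B, hB⟩ := ((Set.finite_le_nat m).image M).bddAbove
      obtain ⟨φ, hφ, h⟩ := ((hF m (m + 1) m.le_succ).comp hψ.symm.good).inv_approx B hε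
      refine ⟨(φ.symm, (m + 1 : ℕ)), ⟨hφ.symm, rfl⟩, by simp, fun n hn z hz => ?_⟩
      have := h _ ((hM n hn z hz).trans (hB ⟨n, hn, rfl⟩))
      simpa [hcomp n m (m + 1) hn m.le_succ] using this)
    (Equiv.refl E, 0) ⟨IsAut.refl, by simp⟩
  refine ⟨G, fun n => (hG n).1, fun n m hnm => funext fun z => ?_⟩
  refine tendsto_nhds_unique ((hG n).2.1 z) (((hG m).2.1 (F n m z)).congr' ?_)
  filter_upwards [eventually_ge_atTop m] with k hk
  simp [hcomp n m k hnm hk]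

theorem exists_cocone {I : Type*} [LinearOrder I] (β : I) (hβ : (Iio β).Countable)
    (F : I → I → E → E) (hF : ∀ a b, a ≤ b → b < β → Good Y (F a b))
    (hcomp : ∀ a b c, a ≤ b → b ≤ c → c < β → F a c = F b c ∘ F a b) :
    ∃ G : I → E → E, (∀ a < β, Good Y (G a)) ∧ ∀ a b, a ≤ b → b < β → G a = G b ∘ F a b := by
  rcases (Iio β).eq_empty_or_nonempty with h | h
  · have : ∀ a, ¬ a < β := fun a ha => by simpa [h] using (show a ∈ Iio β from ha)
    exact ⟨fun _ => id, fun a ha => absurd ha (this a), fun a b _ hb => absurd hb (this b)⟩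
  have := h.to_subtype
  have := hβ.to_subtype
  obtain ⟨c, hc, hc'⟩ := exists_seq_monotone_tendsto_atTop_atTop (Iio β)
  obtain ⟨G, hG, hG'⟩ := exists_cocone_nat (Y := Y) (fun n m => F (c n) (c m))
    (fun n m hnm => hF _ _ (hc hnm) (c m).2)
    (fun n m k h1 h2 => hcomp _ _ _ (hc h1) (hc h2) (c k).2)
  have hk : ∀ a < β, ∃ k, a ≤ c k := fun a ha =>
    (hc'.eventually_ge_atTop ⟨a, ha⟩).exists
  choose! k hk using hk
  have key : ∀ (a : I) (n m : ℕ), a ≤ c n → a ≤ c m → G n ∘ F a (c n) = G m ∘ F a (c m) := by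
    intro a n m hn hm
    wlog hnm : n ≤ m generalizing n m
    · exact (this m n hm hn (le_of_not_ge hnm)).symm
    rw [hG' n m hnm, hcomp a (c n) (c m) hn (hc hnm) (c m).2]
    rfl
  refine ⟨fun a => G (k a) ∘ F a (c (k a)), fun a ha => (hG _).comp (hF _ _ (hk a ha) (c _).2),
    fun a b hab hb => ?_⟩
  dsimp only
  rw [key a (k a) (k b) (hk a (hab.trans_lt hb)) (hab.trans (hk b hb)),
    hcomp a b (c (k b)) hab (hk b hb) (c _).2]
  rfl

theorem exists_rec {I D : Type*} [LinearOrder I] [WellFoundedLT I] [Nonempty D]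
    (P : I → (I → D) → Prop) (hloc : ∀ β f g, (∀ α ≤ β, f α = g α) → P β f → P β g)
    (hstep : ∀ β f, (∀ α < β, P α f) → ∃ d, P β (Function.update f β d)) :
    ∃ f, ∀ β, P β f := by
  classical
  choose! s hs using hstep
  let d₀ : D := Classical.arbitrary D
  let f : I → D := (wellFounded_lt (α := I)).fix fun β rec =>
    s β fun α => if h : α < β then rec α h else d₀
  have hf : ∀ β, f β = s β fun α => if α < β then f α else d₀ := fun β => by
    simp only [f]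
    rw [WellFounded.fix_eq]
    rfl
  refine ⟨f, fun β => ?_⟩
  induction β using WellFoundedLT.induction with
  | ind β ih =>
    refine hloc β _ _ ?_ (hs β (fun α => if α < β then f α else d₀) fun α hα =>
      hloc α f _ (fun γ hγ => by simp [hγ.trans_lt hα]) (ih α hα))
    intro α hα
    rcases hα.lt_or_eq with h | rfl
    · simp [h, h.ne]
    · rw [Function.update_self, ← hf]

theorem exists_chain {I : Type*} [LinearOrder I] [WellFoundedLT I] (hI : ∀ β : I, (Iio β).Countable)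
    (Q : I → I → (E → E) → Prop)
    (hQ : ∀ (β : I) (G : I → E → E), (∀ α < β, Good Y (G α)) →
      ∃ Φ, Good Y Φ ∧ ∀ α < β, Q α β (Φ ∘ G α)) :
    ∃ F : I → I → E → E, (∀ a b, a ≤ b → Good Y (F a b)) ∧ (∀ a, F a a = id) ∧
      (∀ a b c, a ≤ b → b ≤ c → F a c = F b c ∘ F a b) ∧ ∀ a b, a < b → Q a b (F a b) := by
  classical
  obtain ⟨f, hf⟩ := exists_rec (I := I) (D := I → E → E) (fun β f => (∀ α ≤ β, Good Y (f β α)) ∧
    f β β = id ∧ (∀ a b, a ≤ b → b ≤ β → f β a = f β b ∘ f b a) ∧ ∀ α < β, Q α β (f β α)) (by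
      rintro β f g hfg ⟨h1, h2, h3, h4⟩
      rw [← hfg β le_rfl]
      refine ⟨h1, h2, fun a b hab hb => ?_, h4⟩
      rw [← hfg b hb]
      exact h3 a b hab hb) (by
      intro β f hf
      obtain ⟨G, hG, hG'⟩ := exists_cocone (Y := Y) β (hI β) (fun a b => f b a)
        (fun a b hab hb => (hf b hb).1 a hab)
        (fun a b c hab hbc hc => (hf c hc).2.2.1 a b hab hbc)
      obtain ⟨Φ, hΦ, hQ'⟩ := hQ β G hG
      refine ⟨fun α => if α < β then Φ ∘ G α else id, ?_⟩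
      simp only [Function.update_self, lt_irrefl, if_false, true_and]
      refine ⟨fun α _ => ?_, fun a b hab hb => ?_, fun α hα => by simpa [hα] using hQ' α hα⟩
      · split_ifs with h
        · exact hΦ.comp (hG α h)
        · exact good_id
      · rcases hb.lt_or_eq with hb | rfl
        · rw [if_pos hb, if_pos (hab.trans_lt hb), Function.update_of_ne hb.ne, hG' a b hab hb]
          rfl
        · simp)
  exact ⟨fun a b => f b a, fun a b hab => (hf b).1 a hab, fun a => (hf a).2.1,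
    fun a b c hab hbc => (hf c).2.2.1 a b hab hbc, fun a b hab => (hf b).2.2.2 a hab⟩

end Pool.Agent.Lib.MP_53f9be_gt
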