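import Pool.Agent.Lib.MP_53f9be_gt.RealStep

/-!
A Fatou-Bieberbach map preserving the real points whose image omits an open set, and a lemma on
developable spaces.
-/

open Complex Filter Topology Set Metric

namespace Pool.Agent.Lib.MP_53f9be_gt

/-- The shear in the first coordinate. -/
def shear (g : ℂ → ℂ) : ℂ × ℂ ≃ ℂ × ℂ where
  toFun p := (p.1 + g p.2, p.2)
  invFun p := (p.1 - g p.2, p.2)
  left_inv p := by simp
  right_inv p := by simp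

theorem isAut_shear_univ {g : ℂ → ℂ} (hg : Differentiable ℂ g) : IsAut univ (shear g) where
  diff := by
    change Differentiable ℂ fun p : ℂ × ℂ => (p.1 + g p.2, p.2)
    fun_prop
  diff_symm := by
    change Differentiable ℂ fun p : ℂ × ℂ => (p.1 - g p.2, p.2)
    fun_prop
  mem _ := Iff.rfl

theorem isAut_shear {g : ℂ → ℂ} (hg : Differentiable ℂ g) (hr : ∀ y, y.im = 0 → (g y).im = 0) :
    IsAut realPts (shear g) where
  diff := (isAut_shear_univ hg).diff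
  diff_symm := (isAut_shear_univ hg).diff_symm
  mem p := by
    change (p.1 + g p.2).im = 0 ∧ p.2.im = 0 ↔ p.1.im = 0 ∧ p.2.im = 0
    refine and_congr_left fun h => ?_
    simp [hr _ h]

theorem norm_shear_sub (g : ℂ → ℂ) (z : ℂ × ℂ) : ‖shear g z - z‖ = ‖g z.2‖ := by
  have : shear g z - z = (g z.2, 0) := Prod.ext (add_sub_cancel_left _ _) (sub_self _)
  rw [this, Prod.norm_mk, norm_zero, max_eq_left (norm_nonneg _)]

theorem exists_shear_out (r M ε : ℝ) (hr : 0 ≤ r) (hε : 0 < ε) :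
    ∃ θ : ℂ × ℂ ≃ ℂ × ℂ, IsAut realPts θ ∧ (∀ z, ‖z‖ ≤ r → ‖θ z - z‖ ≤ ε) ∧
      ∀ w, ‖w‖ ≤ M → r + 1 ≤ ‖w.2‖ → r + 2 ≤ ‖(θ.symm w).1‖ := by
  set ρ := r + 1 / 2 with hρ
  have hρ0 : 0 < ρ := by linarith
  have h1 : ∀ᶠ N : ℕ in atTop, (r / ρ) ^ N ≤ ε :=
    (tendsto_pow_atTop_nhds_zero_of_lt_one (by positivity)
      (by rw [div_lt_one hρ0]; linarith)).eventually_le_const hε
  have h2 : ∀ᶠ N : ℕ in atTop, r + 2 + M ≤ ((r + 1) / ρ) ^ N :=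
    (tendsto_pow_atTop_atTop_of_one_lt (by rw [one_lt_div hρ0]; linarith)).eventually_ge_atTop _
  obtain ⟨N, h1, h2⟩ := (h1.and h2).exists
  have hn : ∀ y : ℂ, ‖(y / ρ) ^ N‖ = (‖y‖ / ρ) ^ N := fun y => by
    simp only [norm_pow, norm_div, norm_real, Real.norm_of_nonneg hρ0.le]
  refine ⟨shear fun y => (y / ρ) ^ N, isAut_shear (by fun_prop) fun y hy => ?_, fun z hz => ?_,
    fun w hw hw' => ?_⟩
  · obtain ⟨t, rfl⟩ : ∃ t : ℝ, y = t := ⟨y.re, Complex.ext (by simp) (by simp [hy])⟩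
    norm_cast
  · rw [norm_shear_sub, hn]
    refine le_trans ?_ h1
    have := (norm_snd_le z).trans hz
    gcongr
  · change r + 2 ≤ ‖w.1 - (w.2 / ρ) ^ N‖
    have h3 : ((r + 1) / ρ) ^ N ≤ ‖(w.2 / ρ) ^ N‖ := by rw [hn]; gcongr
    have h4 := norm_sub_norm_le ((w.2 / ρ) ^ N) w.1
    rw [norm_sub_rev]
    linarith [norm_fst_le w]

theorem exists_shear_out' (r M ε : ℝ) (hr : 0 ≤ r) (hε : 0 < ε) :
    ∃ θ : ℂ × ℂ ≃ ℂ × ℂ, IsAut realPts θ ∧ (∀ z, ‖z‖ ≤ r → ‖θ z - z‖ ≤ ε) ∧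
      ∀ w, ‖w‖ ≤ M → r + 1 ≤ ‖w.1‖ → r + 2 ≤ ‖(θ.symm w).2‖ := by
  obtain ⟨θ, h1, h2, h3⟩ := exists_shear_out r M ε hr hε
  have hs : ∀ z : ℂ × ℂ, ‖z.swap‖ = ‖z‖ := fun z => max_comm _ _
  refine ⟨((Equiv.prodComm ℂ ℂ).trans θ).trans (Equiv.prodComm ℂ ℂ),
    (isAut_swap.trans h1).trans isAut_swap, fun z hz => ?_,
    fun w hw hw' => h3 w.swap (by rwa [hs]) hw'⟩
  rw [← hs]
  exact h2 z.swap (by rwa [hs])

theorem exists_good_miss : ∃ F : ℂ × ℂ → ℂ × ℂ, Good realPts F ∧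
    ∀ z, F z ∉ {w : ℂ × ℂ | 1 < ‖w.2‖ ∧ ‖w‖ < 2} := by
  obtain ⟨s, hs, G, hG⟩ := exists_limit (Y := realPts) (S := (ℂ × ℂ ≃ ℂ × ℂ) × ℝ)
    (fun _ s _ => s.1) Prod.snd
    (fun m s => IsAut realPts s.1 ∧ s.2 = m ∧
      ((∀ w, 1 < ‖w.2‖ → ‖w‖ < 2 → (m : ℝ) + 1 ≤ ‖(s.1.symm w).2‖) ∨
        ∀ w, 1 < ‖w.2‖ → ‖w‖ < 2 → (m : ℝ) + 1 ≤ ‖(s.1.symm w).1‖))
    (fun m s n hs _ => hs.1.good) (fun m s hs => hs.2.1.ge) (by
      rintro m ⟨Φ, ρ⟩ ⟨hΦ, rfl, hb⟩ ε hε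
      obtain ⟨δ, hδ, -, hmod⟩ := exists_modulus hΦ.diff.continuous m hε
      obtain ⟨M, hM⟩ := exists_bound hΦ.diff_symm.continuous 2
      rcases hb with hb | hb
      · obtain ⟨θ, hθ, h1, h2⟩ := exists_shear_out m M δ m.cast_nonneg hδ
        refine ⟨(θ.trans Φ, (m + 1 : ℕ)), ⟨hθ.trans hΦ, rfl, Or.inr fun w hw hw' => ?_⟩, by simp,
          fun n _ z hz => hmod z (θ z) hz (h1 z hz)⟩
        have := h2 _ (hM w hw'.le) (hb w hw hw')
        push_cast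
        exact le_trans (by linarith) this
      · obtain ⟨θ, hθ, h1, h2⟩ := exists_shear_out' m M δ m.cast_nonneg hδ
        refine ⟨(θ.trans Φ, (m + 1 : ℕ)), ⟨hθ.trans hΦ, rfl, Or.inl fun w hw hw' => ?_⟩, by simp,
          fun n _ z hz => hmod z (θ z) hz (h1 z hz)⟩
        have := h2 _ (hM w hw'.le) (hb w hw hw')
        push_cast
        exact le_trans (by linarith) this)
    (Equiv.refl _, 0) ⟨IsAut.refl, by simp, Or.inl fun w hw _ => by simpa using hw.le⟩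
  refine ⟨G 0, (hG 0).1, fun z => ?_⟩
  have ho : IsOpen {w : ℂ × ℂ | 1 < ‖w.2‖ ∧ ‖w‖ < 2} :=
    (isOpen_lt continuous_const continuous_snd.norm).and (isOpen_lt continuous_norm continuous_const)
  refine ho.isClosed_compl.mem_of_tendsto ((hG 0).2.1 z) ?_
  filter_upwards [tendsto_natCast_atTop_atTop.eventually_ge_atTop ‖z‖] with m hm hw
  rcases (hs m).2.2 with h | h
  · have := h _ hw.1 hw.2
    rw [Equiv.symm_apply_apply] at this
    linarith [norm_snd_le z]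
  · have := h _ hw.1 hw.2
    rw [Equiv.symm_apply_apply] at this
    linarith [norm_fst_le z]

theorem isCompact_of_development {X : Type*} [TopologicalSpace X] {Y : Set X} (hY : IsClosed Y)
    (hω : ∀ A ⊆ Y, A.Countable → IsCompact (closure A)) (G : ℕ → Set (Set X))
    (h1 : ∀ n, ∀ U ∈ G n, IsOpen U) (h2 : ∀ n x, ∃ U ∈ G n, x ∈ U)
    (h3 : ∀ x, ∀ V ∈ 𝓝 x, ∃ n, ∀ U ∈ G n, x ∈ U → U ⊆ V) : IsCompact Y := by
  have key : ∀ n, ∃ s : Finset X, (∀ x ∈ s, x ∈ Y) ∧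
      ∀ y ∈ Y, ∃ x ∈ s, ∃ U ∈ G n, x ∈ U ∧ y ∈ U := by
    intro n
    by_contra! h
    obtain ⟨u, hu, hu'⟩ := exists_seq_of_forall_finset_exists (· ∈ Y)
      (fun x y => ∀ U ∈ G n, x ∈ U → y ∉ U) h
    obtain ⟨x, -, hx⟩ := (hω (range u) (range_subset_iff.2 hu)
      (countable_range u)).exists_mapClusterPt_of_frequently (l := atTop) (f := u)
      (Frequently.of_forall fun k => subset_closure (mem_range_self k))
    obtain ⟨U, hU, hxU⟩ := h2 n x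
    have := hx.frequently ((h1 n U hU).mem_nhds hxU)
    obtain ⟨k, hk⟩ := this.exists
    obtain ⟨l, hl, hl'⟩ := (this.and_eventually (eventually_gt_atTop k)).exists
    exact hu' k l hl' U hU hk hl
  choose s hs hs' using key
  have hA : (⋃ n, (s n : Set X)) ⊆ Y := iUnion_subset fun n x hx => hs n x hx
  refine (hω _ hA (countable_iUnion fun n => (s n).countable_toSet)).of_isClosed_subset hY ?_
  intro y hy
  rw [mem_closure_iff_nhds]
  intro V hV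
  obtain ⟨n, hn⟩ := h3 y V hV
  obtain ⟨x, hx, U, hU, hxU, hyU⟩ := hs' n y hy
  exact ⟨x, hn U hU hyU hxU, mem_iUnion.2 ⟨n, hx⟩⟩

end Pool.Agent.Lib.MP_53f9be_gt
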