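import Pool.Agent.Lib.MP_53f9be_gt.Limit

/-!
A Fatou-Bieberbach map of the complex plane pair preserving the real points and bounded on them.
-/

open Complex Filter Topology Set Metric

namespace Pool.Agent.Lib.MP_53f9be_gt

/-- The real points of `ℂ × ℂ`. -/
def realPts : Set (ℂ × ℂ) := {p | p.1.im = 0 ∧ p.2.im = 0}

theorem exists_exponent {a b η : ℝ} (ha : 0 < a) (hab : a < b) (hη : 0 < η) :
    ∃ h : ℂ → ℂ, Differentiable ℂ h ∧ (∀ x, ‖x‖ ≤ a → ‖exp (h x) - 1‖ ≤ η) ∧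
      ∀ x : ℂ, x.im = 0 → ∃ g : ℝ, exp (h x) = g ∧ 0 < g ∧ g ≤ 1 ∧ (b ≤ ‖x‖ → g ≤ η) := by
  set ρ := (a + b) / 2 with hρ
  have hρ0 : 0 < ρ := by linarith
  have h1 : ∀ᶠ N : ℕ in atTop, ((a / ρ) ^ 2) ^ N ≤ min 1 (η / 2) :=
    (tendsto_pow_atTop_nhds_zero_of_lt_one (by positivity) (pow_lt_one₀ (by positivity)
      (by rw [div_lt_one hρ0]; linarith) two_ne_zero)).eventually_le_const (by positivity)
  have h2 : ∀ᶠ N : ℕ in atTop, η⁻¹ ≤ ((b / ρ) ^ 2) ^ N :=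
    (tendsto_pow_atTop_atTop_of_one_lt (one_lt_pow₀ (by rw [one_lt_div hρ0]; linarith)
      two_ne_zero)).eventually_ge_atTop _
  obtain ⟨N, h1, h2⟩ := (h1.and h2).exists
  refine ⟨fun x => -((x / ρ) ^ 2) ^ N, by fun_prop, fun x hx => ?_, fun x hx => ?_⟩
  · have : ‖-((x / ρ) ^ 2) ^ N‖ ≤ min 1 (η / 2) := by
      refine le_trans ?_ h1
      simp only [norm_neg, norm_pow, norm_div, norm_real, Real.norm_of_nonneg hρ0.le]
      gcongr
    linarith [norm_exp_sub_one_le (this.trans (min_le_left _ _)), this.trans (min_le_right _ _)]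
  · obtain ⟨t, rfl⟩ : ∃ t : ℝ, x = t := ⟨x.re, Complex.ext (by simp) (by simp [hx])⟩
    have hu : 0 ≤ ((t / ρ) ^ 2) ^ N := by positivity
    refine ⟨Real.exp (-((t / ρ) ^ 2) ^ N), by push_cast; rfl, Real.exp_pos _,
      Real.exp_le_one_iff.2 (by linarith), fun hb => ?_⟩
    have h3 : ((b / ρ) ^ 2) ^ N ≤ ((t / ρ) ^ 2) ^ N := by
      rw [← sq_abs (t / ρ), abs_div, abs_of_pos hρ0]
      have : b ≤ |t| := by simpa using hb
      have : 0 < b := by linarith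
      gcongr
    rw [Real.exp_neg, inv_le_comm₀ (Real.exp_pos _) hη]
    linarith [Real.add_one_le_exp (((t / ρ) ^ 2) ^ N)]

/-- The overshear fixing the line at height `c`. -/
noncomputable def overshear (h : ℂ → ℂ) (c : ℝ) : ℂ × ℂ ≃ ℂ × ℂ where
  toFun p := (p.1, c + (p.2 - c) * exp (h p.1))
  invFun p := (p.1, c + (p.2 - c) * exp (-h p.1))
  left_inv p := by simp [mul_assoc, ← exp_add]
  right_inv p := by simp [mul_assoc, ← exp_add]

theorem isAut_overshear {h : ℂ → ℂ} (hh : Differentiable ℂ h) (c : ℝ)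
    (hr : ∀ x : ℂ, x.im = 0 → ∃ g : ℝ, exp (h x) = g ∧ 0 < g) :
    IsAut realPts (overshear h c) where
  diff := by
    change Differentiable ℂ fun p : ℂ × ℂ => (p.1, c + (p.2 - c) * exp (h p.1))
    fun_prop
  diff_symm := by
    change Differentiable ℂ fun p : ℂ × ℂ => (p.1, c + (p.2 - c) * exp (-h p.1))
    fun_prop
  mem p := by
    change p.1.im = 0 ∧ (c + (p.2 - c) * exp (h p.1)).im = 0 ↔ p.1.im = 0 ∧ p.2.im = 0
    refine and_congr_right fun h1 => ?_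
    obtain ⟨g, hg, hg0⟩ := hr _ h1
    simp [hg, hg0.ne']

theorem isAut_swap : IsAut realPts (Equiv.prodComm ℂ ℂ) where
  diff := (ContinuousLinearEquiv.prodComm ℂ ℂ ℂ).differentiable
  diff_symm := (ContinuousLinearEquiv.prodComm ℂ ℂ ℂ).differentiable
  mem _ := and_comm

theorem near_trans {E : Type*} [NormedAddCommGroup E] {f g : E → E} {r ε ε' : ℝ}
    (hf : ∀ z, ‖z‖ ≤ r → ‖f z - z‖ ≤ ε) (hg : ∀ z, ‖z‖ ≤ r + ε → ‖g z - z‖ ≤ ε') (z : E)
    (hz : ‖z‖ ≤ r) : ‖g (f z) - z‖ ≤ ε + ε' := by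
  have h1 := hf z hz
  have h2 := hg (f z) (by linarith [norm_le_norm_add_norm_sub' (f z) z])
  calc ‖g (f z) - z‖ = ‖(g (f z) - f z) + (f z - z)‖ := by simp
    _ ≤ _ := norm_add_le _ _
    _ ≤ _ := by linarith

theorem exists_push (r R ε : ℝ) (hr : 0 ≤ r) (hε : 0 < ε) :
    ∃ θ : ℂ × ℂ ≃ ℂ × ℂ, IsAut realPts θ ∧ (∀ z, ‖z‖ ≤ r → ‖θ z - z‖ ≤ ε) ∧
      ∀ z ∈ realPts, ‖z‖ ≤ R → ‖θ z‖ ≤ r + 5 := by
  wlog hε1 : ε ≤ 1 generalizing ε
  · obtain ⟨θ, h1, h2, h3⟩ := this 1 one_pos le_rfl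
    exact ⟨θ, h1, fun z hz => (h2 z hz).trans (le_of_not_ge hε1), h3⟩
  set D := max R (r + 4) with hD
  have hD1 : r + 4 ≤ D := le_max_right _ _
  obtain ⟨h, hh, h1, h2⟩ := exists_exponent (a := r + 2) (b := r + 3) (η := ε / (6 * D))
    (by linarith) (by linarith) (div_pos hε (by linarith))
  have hDη : 2 * D * (ε / (6 * D)) = ε / 3 := by
    have : D ≠ 0 := by linarith
    field_simp; norm_num
  have hB := isAut_overshear hh (r + 4) fun x hx => (h2 x hx).imp fun g hg => ⟨hg.1, hg.2.1⟩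
  let st : ℂ → ℂ → ℂ := fun x y => ((r + 4 : ℝ) : ℂ) + (y - (r + 4 : ℝ)) * exp (h x)
  have hc : ‖((r + 4 : ℝ) : ℂ)‖ = r + 4 := by rw [norm_real, Real.norm_of_nonneg (by linarith)]
  have s0 : ∀ x y, ‖x‖ ≤ r + 2 → ‖y‖ ≤ r + 2 → ‖st x y - y‖ ≤ ε / 3 := by
    intro x y hx hy
    have : st x y - y = (y - (r + 4 : ℝ)) * (exp (h x) - 1) := by simp only [st]; ring
    rw [this, norm_mul, ← hDη]
    have := norm_sub_le y ((r + 4 : ℝ) : ℂ)
    exact mul_le_mul (by linarith) (h1 x hx) (norm_nonneg _) (by linarith)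
  have s1 : ∀ x y, x.im = 0 → y.im = 0 → (st x y).im = 0 := fun x y hx hy =>
    ((hB.mem (x, y)).2 ⟨hx, hy⟩).2
  have s2 : ∀ x y K, x.im = 0 → ‖y‖ ≤ K → r + 4 ≤ K → ‖st x y‖ ≤ K := by
    intro x y K hx hy hK
    obtain ⟨g, hg, hg0, hg1, -⟩ := h2 x hx
    have : st x y = ((1 - g : ℝ) : ℂ) * (r + 4 : ℝ) + g * y := by
      simp only [st, hg]; push_cast; ring
    rw [this]
    refine (norm_add_le _ _).trans ?_
    rw [norm_mul, norm_mul, hc, norm_real, norm_real, Real.norm_of_nonneg (by linarith),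
      Real.norm_of_nonneg hg0.le]
    nlinarith
  have s3 : ∀ x y, x.im = 0 → r + 3 ≤ ‖x‖ → ‖y‖ ≤ D →
      r + 3 ≤ ‖st x y‖ ∧ ‖st x y‖ ≤ r + 5 := by
    intro x y hx hx' hy
    obtain ⟨g, hg, hg0, -, hg1⟩ := h2 x hx
    have h3 : ‖st x y - (r + 4 : ℝ)‖ ≤ ε / 3 := by
      simp only [st, hg, add_sub_cancel_left, norm_mul]
      rw [← hDη, norm_real, Real.norm_of_nonneg hg0.le]
      have := norm_sub_le y ((r + 4 : ℝ) : ℂ)
      exact mul_le_mul (by linarith) (hg1 hx') hg0.le (by linarith)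
    have h4 := abs_le.1 ((abs_norm_sub_norm_le _ _).trans h3)
    constructor <;> linarith [h4.1, h4.2]
  let B := overshear h (r + 4)
  let H := ((Equiv.prodComm ℂ ℂ).trans B).trans (Equiv.prodComm ℂ ℂ)
  have nB : ∀ z, ‖z‖ ≤ r + 2 → ‖B z - z‖ ≤ ε / 3 := fun z hz => by
    have : B z - z = (0, st z.1 z.2 - z.2) := Prod.ext (sub_self _) rfl
    rw [this, Prod.norm_mk, norm_zero]
    exact max_le (by positivity) (s0 _ _ ((norm_fst_le z).trans hz) ((norm_snd_le z).trans hz))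
  have nH : ∀ z, ‖z‖ ≤ r + 2 → ‖H z - z‖ ≤ ε / 3 := fun z hz => by
    have : H z - z = (st z.2 z.1 - z.1, 0) := Prod.ext rfl (sub_self _)
    rw [this, Prod.norm_mk, norm_zero]
    exact max_le (s0 _ _ ((norm_snd_le z).trans hz) ((norm_fst_le z).trans hz)) (by positivity)
  refine ⟨(B.trans H).trans B, (hB.trans ((isAut_swap.trans hB).trans isAut_swap)).trans hB,
    fun z hz => ?_, ?_⟩
  · have := near_trans (near_trans (r := r) (fun z hz => nB z (by linarith))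
      (fun z hz => nH z (by linarith))) (fun z hz => nB z (by linarith)) z hz
    exact this.trans (by linarith)
  · rintro ⟨x, y⟩ ⟨hx, hy⟩ hz
    have hxD : ‖x‖ ≤ D := (norm_fst_le (x, y)).trans (hz.trans (le_max_left _ _))
    have hyD : ‖y‖ ≤ D := (norm_snd_le (x, y)).trans (hz.trans (le_max_left _ _))
    change ‖(st (st x y) x, st (st (st x y) x) (st x y))‖ ≤ r + 5
    have i1 := s1 x y hx hy
    have i2 := s1 _ x i1 hx
    rw [Prod.norm_mk]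
    rcases le_or_gt (r + 3) ‖st x y‖ with h3 | h3
    · have := s3 _ x i1 h3 hxD
      exact max_le this.2 (s3 _ _ i2 this.1 (s2 x y D hx hyD hD1)).2
    · have h4 : ‖x‖ < r + 3 := lt_of_not_ge fun h4 => (s3 x y hx h4 hyD).1.not_gt h3
      exact max_le (s2 _ _ _ i1 (by linarith) (by linarith))
        (s2 _ _ _ i2 (by linarith) (by linarith))

theorem exists_good_bounded : ∃ F : ℂ × ℂ → ℂ × ℂ, Good realPts F ∧ ∀ z ∈ realPts, ‖F z‖ ≤ 6 := by
  obtain ⟨s, hs, G, hG⟩ := exists_limit (Y := realPts) (S := (ℂ × ℂ ≃ ℂ × ℂ) × ℝ)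
    (fun _ s _ => s.1) Prod.snd
    (fun m s => IsAut realPts s.1 ∧ s.2 = m ∧ ∀ z ∈ realPts, ‖z‖ ≤ m + 5 → ‖s.1 z‖ ≤ 5)
    (fun m s n hs _ => hs.1.good) (fun m s hs => hs.2.1.ge) (by
      rintro m ⟨Φ, ρ⟩ ⟨hΦ, rfl, hb⟩ ε hε
      obtain ⟨δ, hδ, -, hmod⟩ := exists_modulus hΦ.diff.continuous m hε
      obtain ⟨θ, hθ, h1, h2⟩ := exists_push m ((m + 1 : ℕ) + 5) δ m.cast_nonneg hδ
      exact ⟨(θ.trans Φ, (m + 1 : ℕ)), ⟨hθ.trans hΦ, rfl, fun z hz hz' =>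
        hb _ ((hθ.mem z).2 hz) (h2 z hz hz')⟩, by simp,
        fun n _ z hz => hmod z (θ z) hz (h1 z hz)⟩)
    (Equiv.refl _, 0) ⟨IsAut.refl, by simp, fun z _ hz => by simpa using hz⟩
  refine ⟨G 0, (hG 0).1, fun z hz => ?_⟩
  obtain ⟨m, hm⟩ := exists_nat_ge ‖z‖
  have h1 := (hG 0).2.2 m m.zero_le z (by rwa [(hs m).2.1])
  have h2 := (hs m).2.2 z hz (by linarith)
  linarith [norm_le_norm_add_norm_sub' (G 0 z) ((s m).1 z)]

end Pool.Agent.Lib.MP_53f9be_gt
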